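import Mathlib

/-!
# Paths with bounded cost
-/

open Set Topology Filter

namespace Pool.Agent.W618.IFS

/-- Closed sets without interior. -/
def Thin {X : Type*} [TopologicalSpace X] (F : Set X) : Prop := IsClosed F ∧ interior F = ∅

theorem Thin.union {X : Type*} [TopologicalSpace X] {F G : Set X} (hF : Thin F) (hG : Thin G) :
    Thin (F ∪ G) :=
  ⟨hF.1.union hG.1, by
    rw [interior_union_isClosed_of_interior_empty hF.1 hG.2, hF.2]⟩

theorem thin_empty {X : Type*} [TopologicalSpace X] : Thin (∅ : Set X) :=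
  ⟨isClosed_empty, interior_empty⟩

theorem thin_biUnion {X ι : Type*} [TopologicalSpace X] (s : Finset ι) (F : ι → Set X)
    (h : ∀ i ∈ s, Thin (F i)) : Thin (⋃ i ∈ s, F i) := by
  classical
  induction s using Finset.induction_on with
  | empty => simpa using thin_empty
  | insert a s ha ih =>
    rw [Finset.set_biUnion_insert]
    exact (h a (Finset.mem_insert_self _ _)).union
      (ih fun i hi => h i (Finset.mem_insert_of_mem hi))

/-- Pseudo-metric axioms for a function on pairs. -/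
structure PM {X : Type*} (e : X → X → ℝ) : Prop where
  refl : ∀ a, e a a = 0
  nonneg : ∀ a b, 0 ≤ e a b
  symm : ∀ a b, e a b = e b a
  tri : ∀ a b c, e a c ≤ e a b + e b c

section

variable {X : Type*} [TopologicalSpace X]

/-- There is a path from `p` to `x` inside `A`, with thin image, Lipschitz with constant `K` for
the pseudo-metric `e`. -/
def PathIn (e : X → X → ℝ) (K : ℝ) (A : Set X) (p x : X) : Prop :=
  ∃ σ : ℝ → X, Continuous σ ∧ σ 0 = p ∧ σ 1 = x ∧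
    (∀ s ∈ Icc (0 : ℝ) 1, ∀ t ∈ Icc (0 : ℝ) 1, e (σ s) (σ t) ≤ K * |s - t|) ∧
    (∀ s ∈ Icc (0 : ℝ) 1, σ s ∈ A) ∧ ∃ F, Thin F ∧ ∀ s ∈ Icc (0 : ℝ) 1, σ s ∈ F

theorem PathIn.mono {e : X → X → ℝ} {K K' : ℝ} {A A' : Set X} {p x : X} (h : PathIn e K A p x)
    (hK : K ≤ K') (hA : A ⊆ A') : PathIn e K' A' p x := by
  obtain ⟨σ, h1, h2, h3, h4, h5, h6⟩ := h
  exact ⟨σ, h1, h2, h3, fun s hs t ht => (h4 s hs t ht).trans
    (mul_le_mul_of_nonneg_right hK (abs_nonneg _)), fun s hs => hA (h5 s hs), h6⟩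

theorem PathIn.mono_e {e e' : X → X → ℝ} {K K' : ℝ} {A : Set X} {p x : X} (h : PathIn e K A p x)
    (he : ∀ a ∈ A, ∀ b ∈ A, ∀ L, e a b ≤ K * L → e' a b ≤ K' * L) : PathIn e' K' A p x := by
  obtain ⟨σ, h1, h2, h3, h4, h5, h6⟩ := h
  exact ⟨σ, h1, h2, h3, fun s hs t ht => he _ (h5 s hs) _ (h5 t ht) _ (h4 s hs t ht), h5, h6⟩

theorem PathIn.symm {e : X → X → ℝ} {K : ℝ} {A : Set X} {p x : X} (h : PathIn e K A p x) :
    PathIn e K A x p := by
  obtain ⟨σ, h1, h2, h3, h4, h5, F, h6, h7⟩ := h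
  have hi : ∀ s ∈ Icc (0 : ℝ) 1, 1 - s ∈ Icc (0 : ℝ) 1 := by
    rintro s ⟨hs, hs'⟩; constructor <;> linarith
  refine ⟨fun s => σ (1 - s), h1.comp (by fun_prop), by simpa using h3, by simpa using h2,
    fun s hs t ht => ?_, fun s hs => h5 _ (hi s hs), F, h6, fun s hs => h7 _ (hi s hs)⟩
  have h8 := h4 _ (hi s hs) _ (hi t ht)
  have h9 : |1 - s - (1 - t)| = |s - t| := by
    rw [show 1 - s - (1 - t) = -(s - t) by ring, abs_neg]
  rwa [h9] at h8

/-- The concatenation of two paths, first one on `[0, a]`. -/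
noncomputable def cat (a : ℝ) (σ τ : ℝ → X) (s : ℝ) : X :=
  if s ≤ a then σ (s / a) else τ ((s - a) / (1 - a))

theorem cat_cont {a : ℝ} (ha : 0 < a) {σ τ : ℝ → X} (hσ : Continuous σ)
    (hτ : Continuous τ) (h : σ 1 = τ 0) : Continuous (cat a σ τ) := by
  refine Continuous.if_le (hσ.comp (by fun_prop)) (hτ.comp (by fun_prop)) continuous_id
    continuous_const ?_
  intro s hs
  subst hs
  simp only [sub_self, zero_div]
  rw [div_self ha.ne', h]

theorem cat_zero {a : ℝ} (ha : 0 < a) {σ τ : ℝ → X} : cat a σ τ 0 = σ 0 := by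
  simp [cat, ha.le]

theorem cat_one {a : ℝ} (ha : a < 1) {σ τ : ℝ → X} : cat a σ τ 1 = τ 1 := by
  have : (1 : ℝ) - a ≠ 0 := by linarith [ha] |> fun h : (0 : ℝ) < 1 - a => h.ne'
  simp [cat, not_le.2 ha, div_self this]

theorem cat_mem {a : ℝ} (ha : 0 < a) (ha1 : a < 1) {σ τ : ℝ → X} {A : Set X}
    (hσ : ∀ s ∈ Icc (0 : ℝ) 1, σ s ∈ A) (hτ : ∀ s ∈ Icc (0 : ℝ) 1, τ s ∈ A) :
    ∀ s ∈ Icc (0 : ℝ) 1, cat a σ τ s ∈ A := by
  rintro s ⟨hs, hs'⟩
  unfold cat
  split_ifs with h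
  · exact hσ _ ⟨div_nonneg hs ha.le, (div_le_one ha).2 h⟩
  · have h1 : 0 < 1 - a := by linarith
    push Not at h
    exact hτ _ ⟨div_nonneg (by linarith) h1.le, (div_le_one h1).2 (by linarith)⟩

theorem cat_cost {a : ℝ} (ha : 0 < a) (ha1 : a < 1) {σ τ : ℝ → X} (h : σ 1 = τ 0)
    {e : X → X → ℝ} (he : PM e) {K1 K2 K : ℝ} (hK1 : K1 ≤ a * K) (hK2 : K2 ≤ (1 - a) * K)
    (hσ : ∀ s ∈ Icc (0 : ℝ) 1, ∀ t ∈ Icc (0 : ℝ) 1, e (σ s) (σ t) ≤ K1 * |s - t|)
    (hτ : ∀ s ∈ Icc (0 : ℝ) 1, ∀ t ∈ Icc (0 : ℝ) 1, e (τ s) (τ t) ≤ K2 * |s - t|) :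
    ∀ s ∈ Icc (0 : ℝ) 1, ∀ t ∈ Icc (0 : ℝ) 1,
      e (cat a σ τ s) (cat a σ τ t) ≤ K * |s - t| := by
  have h1a : 0 < 1 - a := by linarith
  have hl : ∀ s t : ℝ, 0 ≤ s → s ≤ t → t ≤ a → e (σ (s / a)) (σ (t / a)) ≤ K * (t - s) := by
    intro s t hs hst ht
    have h1 := hσ (s / a) ⟨div_nonneg hs ha.le, (div_le_one ha).2 (hst.trans ht)⟩ (t / a)
      ⟨div_nonneg (hs.trans hst) ha.le, (div_le_one ha).2 ht⟩
    have h2 : |s / a - t / a| = (t - s) / a := by
      rw [← sub_div, abs_div, abs_of_pos ha, abs_sub_comm, abs_of_nonneg (by linarith)]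
    rw [h2] at h1
    have h3 : K1 * ((t - s) / a) ≤ a * K * ((t - s) / a) :=
      mul_le_mul_of_nonneg_right hK1 (div_nonneg (by linarith) ha.le)
    have h4 : a * K * ((t - s) / a) = K * (t - s) := by field_simp
    linarith
  have hr : ∀ s t : ℝ, a ≤ s → s ≤ t → t ≤ 1 →
      e (τ ((s - a) / (1 - a))) (τ ((t - a) / (1 - a))) ≤ K * (t - s) := by
    intro s t hs hst ht
    have h1 := hτ ((s - a) / (1 - a)) ⟨div_nonneg (by linarith) h1a.le,
      (div_le_one h1a).2 (by linarith)⟩ ((t - a) / (1 - a))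
      ⟨div_nonneg (by linarith) h1a.le, (div_le_one h1a).2 (by linarith)⟩
    have h2 : |(s - a) / (1 - a) - (t - a) / (1 - a)| = (t - s) / (1 - a) := by
      rw [← sub_div, abs_div, abs_of_pos h1a, abs_sub_comm, abs_of_nonneg (by linarith)]
      ring
    rw [h2] at h1
    have h3 : K2 * ((t - s) / (1 - a)) ≤ (1 - a) * K * ((t - s) / (1 - a)) :=
      mul_le_mul_of_nonneg_right hK2 (div_nonneg (by linarith) h1a.le)
    have h4 : (1 - a) * K * ((t - s) / (1 - a)) = K * (t - s) := by field_simp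
    linarith
  have hmain : ∀ s t : ℝ, 0 ≤ s → s ≤ t → t ≤ 1 →
      e (cat a σ τ s) (cat a σ τ t) ≤ K * (t - s) := by
    intro s t hs hst ht
    unfold cat
    by_cases h1 : t ≤ a
    · rw [if_pos h1, if_pos (hst.trans h1)]
      exact hl s t hs hst h1
    · push Not at h1
      rw [if_neg (not_le.2 h1)]
      by_cases h2 : s ≤ a
      · rw [if_pos h2]
        have h3 := hl s a hs h2 le_rfl
        have h4 := hr a t le_rfl h1.le ht
        rw [div_self ha.ne', h] at h3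
        rw [sub_self, zero_div] at h4
        have h5 := he.tri (σ (s / a)) (τ 0) (τ ((t - a) / (1 - a)))
        linarith
      · rw [if_neg h2]
        exact hr s t (not_le.1 h2).le hst ht
  rintro s ⟨hs, hs'⟩ t ⟨ht, ht'⟩
  rcases le_total s t with hst | hst
  · have h1 := hmain s t hs hst ht'
    rwa [abs_sub_comm, abs_of_nonneg (by linarith)]
  · have h1 := hmain t s ht hst hs'
    rw [he.symm]
    rwa [abs_of_nonneg (by linarith)]

theorem PathIn.trans {e : X → X → ℝ} (he : PM e) {K1 K2 K a : ℝ} {A : Set X} {p x z : X}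
    (h : PathIn e K1 A p x) (h' : PathIn e K2 A x z) (ha : 0 < a) (ha1 : a < 1)
    (hK1 : K1 ≤ a * K) (hK2 : K2 ≤ (1 - a) * K) : PathIn e K A p z := by
  obtain ⟨σ, h1, h2, h3, h4, h5, F, h6, h7⟩ := h
  obtain ⟨τ, g1, g2, g3, g4, g5, G, g6, g7⟩ := h'
  exact ⟨cat a σ τ, cat_cont ha h1 g1 (h3.trans g2.symm), by rw [cat_zero ha, h2],
    by rw [cat_one ha1, g3], cat_cost ha ha1 (h3.trans g2.symm) he hK1 hK2 h4 g4,
    cat_mem ha ha1 h5 g5, F ∪ G, h6.union g6,
    cat_mem ha ha1 (fun s hs => Or.inl (h7 s hs)) (fun s hs => Or.inr (g7 s hs))⟩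

end

section

variable {X : Type*} [MetricSpace X]

/-- `x` is reached from `p` by a cheap and small path. -/
def Reach (e : X → X → ℝ) (η : ℝ) (p x : X) : Prop := PathIn e η (Metric.closedBall x η) p x

theorem Reach.dist_le {e : X → X → ℝ} {η : ℝ} {p x : X} (h : Reach e η p x) : dist p x ≤ η := by
  obtain ⟨σ, h1, h2, h3, h4, h5, h6⟩ := h
  have := h5 0 ⟨le_rfl, zero_le_one⟩
  rwa [h2, Metric.mem_closedBall] at this

/-- Two points reached from the same point reach each other. -/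
theorem Reach.two {e : X → X → ℝ} (he : PM e) {η : ℝ} (hη : 0 ≤ η) {p x z : X}
    (h : Reach e η p x) (h' : Reach e η p z) : Reach e (6 * η) x z := by
  have h1 := h.dist_le
  have h2 := h'.dist_le
  have h3 : dist x z ≤ 2 * η := by
    have := dist_triangle_left x z p
    linarith
  refine PathIn.trans he (K1 := η) (K2 := η) (a := 1 / 2) (x := p) ?_ ?_ (by norm_num)
    (by norm_num) (by linarith) (by linarith)
  · refine (PathIn.symm h).mono le_rfl (Metric.closedBall_subset_closedBall' ?_)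
    linarith
  · exact PathIn.mono h' le_rfl (Metric.closedBall_subset_closedBall (by linarith))

/-- All points of `U` are reached cheaply from finitely many points. -/
def Net (e : X → X → ℝ) (U : Set X) : Prop :=
  ∀ η > 0, ∃ P : Finset X, ∀ x ∈ U, ∃ p ∈ P, Reach e η p x

/-- At the point `y` and at scale `R`, `r` new cells can be made. -/
def CCat (Q : Set X) (y : X) (R r : ℝ) : Prop :=
  ∀ Γ : Set X, Thin Γ → ∀ ε > 0, ∃ (y' : X) (v : X → ℝ) (U : Set X),
    Continuous v ∧ (∀ x, 0 ≤ v x ∧ v x ≤ 1) ∧ (∀ x, 0 < v x → dist x y < r / 2) ∧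
    (∃ δ > 0, ∀ x, dist x y < δ → v x = 0) ∧ (∃ δ > 0, ∀ x, dist x y' < δ → v x = 1) ∧
    (∀ x ∈ Γ, v x = 0) ∧ Q ⊆ U ∧ Net (fun a b => |v a - v b|) U ∧
    PathIn (fun a b => |v a - v b|) (1 + ε) (Metric.ball y R) y y' ∧
    ∀ x ∈ U, dist x y < r → PathIn (fun a b => |v a - v b|) (1 + ε) (Metric.ball y R) y' x

end

end Pool.Agent.W618.IFS
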