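import Mathlib
import Pool.Agent.W618.IFS.Path

/-!
# Reparametrisation of paths
-/

open Set Topology Filter

namespace Pool.Agent.W618.IFS

variable {X : Type*} [TopologicalSpace X]

theorem pathIn_reparam {e : X → X → ℝ} (hsymm : ∀ a b, e a b = e b a) {σ0 : ℝ → X}
    (hσ0 : Continuous σ0) {ζ : ℝ → ℝ} (hζm : StrictMono ζ)
    (hζs : Function.Surjective ζ)
    (he : ∀ s t, 0 ≤ s → s ≤ t → t ≤ 1 → e (σ0 s) (σ0 t) ≤ ζ t - ζ s) {K : ℝ}
    (hK : ζ 1 - ζ 0 ≤ K) {A : Set X} (hA : ∀ s ∈ Icc (0 : ℝ) 1, σ0 s ∈ A) {F : Set X}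
    (hF : Thin F) (hFσ : ∀ s ∈ Icc (0 : ℝ) 1, σ0 s ∈ F) : PathIn e K A (σ0 0) (σ0 1) := by
  let O := StrictMono.orderIsoOfSurjective ζ hζm hζs
  have hO : ∀ s, O s = ζ s := fun s => rfl
  have hψc : Continuous O.symm := O.symm.continuous
  have h01 : 0 < ζ 1 - ζ 0 := sub_pos.2 (hζm one_pos)
  set ψ : ℝ → ℝ := fun u => O.symm (ζ 0 + (ζ 1 - ζ 0) * u) with hψ
  have hψζ : ∀ u, ζ (ψ u) = ζ 0 + (ζ 1 - ζ 0) * u := by
    intro u
    rw [← hO, hψ]
    exact O.apply_symm_apply _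
  have hψ0 : ψ 0 = 0 := by
    apply hζm.injective
    rw [hψζ]; ring
  have hψ1 : ψ 1 = 1 := by
    apply hζm.injective
    rw [hψζ]; ring
  have hψm : ∀ u w, u ≤ w → ψ u ≤ ψ w := by
    intro u w huw
    rw [← hζm.le_iff_le, hψζ, hψζ]
    nlinarith
  have hψI : ∀ u ∈ Icc (0 : ℝ) 1, ψ u ∈ Icc (0 : ℝ) 1 := by
    intro u hu
    have h1 := hψm 0 u hu.1
    have h2 := hψm u 1 hu.2
    rw [hψ0] at h1
    rw [hψ1] at h2
    exact ⟨h1, h2⟩
  have hmain : ∀ u ∈ Icc (0 : ℝ) 1, ∀ w ∈ Icc (0 : ℝ) 1, u ≤ w →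
      e (σ0 (ψ u)) (σ0 (ψ w)) ≤ K * |u - w| := by
    intro u hu w hw huw
    have h1 := he _ _ (hψI u hu).1 (hψm u w huw) (hψI w hw).2
    rw [hψζ, hψζ] at h1
    rw [abs_sub_comm, abs_of_nonneg (by linarith)]
    nlinarith
  refine ⟨fun u => σ0 (ψ u), hσ0.comp (hψc.comp (by fun_prop)), by simp only [hψ0],
    by simp only [hψ1], ?_, fun u hu => hA _ (hψI u hu), F, hF, fun u hu => hFσ _ (hψI u hu)⟩
  intro u hu w hw
  rcases le_total u w with h | h
  · exact hmain u hu w hw h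
  · rw [hsymm, abs_sub_comm]
    exact hmain w hw u hu h

/-- the clamp to the unit interval -/
noncomputable def cl01 (s : ℝ) : ℝ := max 0 (min s 1)

theorem cl01_mem (s : ℝ) : cl01 s ∈ Icc (0 : ℝ) 1 :=
  ⟨le_max_left _ _, max_le zero_le_one (min_le_right _ _)⟩

theorem cl01_of_mem {s : ℝ} (hs : s ∈ Icc (0 : ℝ) 1) : cl01 s = s := by
  unfold cl01
  rw [min_eq_left hs.2, max_eq_right hs.1]

theorem cl01_mono : Monotone cl01 := by
  intro s t h
  exact max_le_max le_rfl (min_le_min h le_rfl)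

theorem cl01_cont : Continuous cl01 := by
  unfold cl01
  fun_prop

theorem cl01_lip (s t : ℝ) : |cl01 s - cl01 t| ≤ |s - t| := by
  wlog h : s ≤ t generalizing s t
  · rw [abs_sub_comm, abs_sub_comm s t]
    exact this t s (le_of_not_ge h)
  have h1 := cl01_mono h
  rw [abs_sub_comm, abs_of_nonneg (by linarith), abs_sub_comm, abs_of_nonneg (by linarith)]
  have h2 : cl01 t ≤ cl01 s + (t - s) := by
    refine max_le ?_ ?_
    · have := (cl01_mem s).1
      linarith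
    · have h3 : min s 1 ≤ cl01 s := le_max_right _ _
      have h4 : min t 1 ≤ min s 1 + (t - s) := by
        rcases le_total s 1 with h5 | h5
        · rw [min_eq_left h5]
          exact (min_le_left _ _).trans (by linarith)
        · rw [min_eq_right h5]
          exact (min_le_right _ _).trans (by linarith)
      linarith
  linarith

/-- A path along which the function `v` decreases. -/
theorem pathIn_of_antitone {v : X → ℝ} (hv : Continuous v) {σ0 : ℝ → X} (hσ0 : Continuous σ0)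
    (hanti : ∀ s t, 0 ≤ s → s ≤ t → t ≤ 1 → v (σ0 t) ≤ v (σ0 s)) {ε K : ℝ} (hε : 0 < ε)
    (hK : v (σ0 0) - v (σ0 1) + ε ≤ K) {A : Set X} (hA : ∀ s ∈ Icc (0 : ℝ) 1, σ0 s ∈ A)
    {F : Set X} (hF : Thin F) (hFσ : ∀ s ∈ Icc (0 : ℝ) 1, σ0 s ∈ F) :
    PathIn (fun a b => |v a - v b|) K A (σ0 0) (σ0 1) := by
  have h0 : (0 : ℝ) ∈ Icc (0 : ℝ) 1 := ⟨le_rfl, zero_le_one⟩
  have h1 : (1 : ℝ) ∈ Icc (0 : ℝ) 1 := ⟨zero_le_one, le_rfl⟩
  have hbd : ∀ s, v (σ0 1) ≤ v (σ0 (cl01 s)) ∧ v (σ0 (cl01 s)) ≤ v (σ0 0) := fun s =>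
    ⟨hanti _ _ (cl01_mem s).1 (cl01_mem s).2 le_rfl,
      hanti _ _ le_rfl (cl01_mem s).1 (cl01_mem s).2⟩
  have hc : Continuous fun s => ε * s + (v (σ0 0) - v (σ0 (cl01 s))) :=
    (continuous_const.mul continuous_id).add (continuous_const.sub (hv.comp (hσ0.comp cl01_cont)))
  have hm : StrictMono fun s => ε * s + (v (σ0 0) - v (σ0 (cl01 s))) := by
    intro s t hst
    have h2 := hanti _ _ (cl01_mem s).1 (cl01_mono hst.le) (cl01_mem t).2
    simp only
    nlinarith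
  have hsur : Function.Surjective fun s => ε * s + (v (σ0 0) - v (σ0 (cl01 s))) := by
    refine hc.surjective ?_ ?_
    · refine tendsto_atTop_mono (f := fun s => ε * s) (fun s => ?_)
        (tendsto_id.const_mul_atTop hε)
      have := (hbd s).2
      linarith
    · refine tendsto_atBot_mono (f := fun s => ε * s + (v (σ0 0) - v (σ0 1))) (fun s => ?_)
        (tendsto_atBot_add_const_right _ _ (tendsto_id.const_mul_atBot hε))
      have := (hbd s).1
      linarith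
  refine pathIn_reparam (fun a b => abs_sub_comm _ _) hσ0 hm hsur ?_ ?_ hA hF hFσ
  · intro s t hs hst ht
    have h2 := hanti s t hs hst ht
    simp only [cl01_of_mem (show s ∈ Icc (0 : ℝ) 1 from ⟨hs, hst.trans ht⟩),
      cl01_of_mem (show t ∈ Icc (0 : ℝ) 1 from ⟨hs.trans hst, ht⟩)]
    rw [abs_of_nonneg (by linarith)]
    nlinarith
  · simp only [cl01_of_mem h0, cl01_of_mem h1]
    linarith

end Pool.Agent.W618.IFS
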