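import Mathlib

/-!
# The combinatorics of cells and words
-/

open Set

namespace Pool.Agent.W618.IFS

/-- birth time of a cell -/
def birth : List ℕ → ℕ
  | [] => 0
  | t :: _ => t

@[simp] theorem birth_nil : birth [] = 0 := rfl
@[simp] theorem birth_cons (t : ℕ) (c : List ℕ) : birth (t :: c) = t := rfl

/-- the cells present at time `t` -/
def cl (i : ℕ → ℕ) : ℕ → Finset (List ℕ)
  | 0 => {[]}
  | t + 1 => cl i t ∪ ((cl i t).filter fun c => i (birth c) ≤ t + 1).image fun c => (t + 1) :: c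

variable {i : ℕ → ℕ}

@[simp] theorem cl_zero : cl i 0 = {[]} := rfl

theorem mem_cl_succ {t : ℕ} {c : List ℕ} : c ∈ cl i (t + 1) ↔ c ∈ cl i t ∨
    ∃ c' ∈ cl i t, i (birth c') ≤ t + 1 ∧ c = (t + 1) :: c' := by
  simp only [cl, Finset.mem_union, Finset.mem_image, Finset.mem_filter]
  constructor
  · rintro (h | ⟨c', ⟨h1, h2⟩, h3⟩)
    · exact Or.inl h
    · exact Or.inr ⟨c', h1, h2, h3.symm⟩
  · rintro (h | ⟨c', h1, h2, h3⟩)
    · exact Or.inl h
    · exact Or.inr ⟨c', ⟨h1, h2⟩, h3.symm⟩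

theorem cl_mono (t : ℕ) : cl i t ⊆ cl i (t + 1) := fun _ h => mem_cl_succ.2 (Or.inl h)

theorem cl_mono_le {s t : ℕ} (h : s ≤ t) : cl i s ⊆ cl i t := by
  induction h with
  | refl => exact Finset.Subset.refl _
  | step _ ih => exact ih.trans (cl_mono _)

theorem nil_mem (t : ℕ) : [] ∈ cl i t :=
  cl_mono_le (Nat.zero_le t) (by rw [cl_zero]; exact Finset.mem_singleton_self _)

theorem birth_le {t : ℕ} {c : List ℕ} (h : c ∈ cl i t) : birth c ≤ t := by
  induction t generalizing c with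
  | zero => rw [cl_zero, Finset.mem_singleton] at h; rw [h]; rfl
  | succ t ih =>
    rcases mem_cl_succ.1 h with h | ⟨c', h1, h2, h3⟩
    · exact (ih h).trans (Nat.le_succ t)
    · rw [h3]; rfl

theorem mem_of_birth_le {s t : ℕ} {c : List ℕ} (h : c ∈ cl i t) (hs : birth c ≤ s) :
    c ∈ cl i s := by
  rcases le_total t s with hts | hst
  · exact cl_mono_le hts h
  · induction hst with
    | refl => exact h
    | step hm ih =>
      rename_i m
      rcases mem_cl_succ.1 h with h1 | ⟨c', h1, h2, h3⟩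
      · exact ih h1
      · exfalso
        rw [h3] at hs
        have hsm : s ≤ m := hm
        simp only [birth_cons] at hs
        omega

theorem mem_birth {t : ℕ} {c : List ℕ} (h : c ∈ cl i t) : c ∈ cl i (birth c) :=
  mem_of_birth_le h le_rfl

theorem new_iff {t : ℕ} {c : List ℕ} : (c ∈ cl i (t + 1) ∧ c ∉ cl i t) ↔
    ∃ c' ∈ cl i t, i (birth c') ≤ t + 1 ∧ c = (t + 1) :: c' := by
  constructor
  · rintro ⟨h1, h2⟩
    rcases mem_cl_succ.1 h1 with h | h
    · exact absurd h h2
    · exact h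
  · rintro ⟨c', h1, h2, h3⟩
    refine ⟨mem_cl_succ.2 (Or.inr ⟨c', h1, h2, h3⟩), fun h => ?_⟩
    have := birth_le h
    rw [h3] at this
    simp only [birth_cons] at this
    omega

theorem cons_mem {t s : ℕ} {c : List ℕ} (h : s :: c ∈ cl i t) :
    1 ≤ s ∧ s ≤ t ∧ c ∈ cl i (s - 1) ∧ i (birth c) ≤ s := by
  have h1 : s ≤ t := birth_le h
  have h2 : s :: c ∈ cl i s := mem_of_birth_le h le_rfl
  obtain _ | s := s
  · rw [cl_zero, Finset.mem_singleton] at h2
    exact absurd h2 (List.cons_ne_nil _ _)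
  · have h3 : (s + 1) :: c ∉ cl i s := fun h => by
      have := birth_le h
      simp only [birth_cons] at this
      omega
    obtain ⟨c', h4, h5, h6⟩ := new_iff.1 ⟨h2, h3⟩
    have h7 : c = c' := (List.cons.inj h6).2
    subst h7
    exact ⟨by omega, h1, h4, h5⟩

theorem mem_cons {s : ℕ} {c : List ℕ} (h : c ∈ cl i s) (h' : i (birth c) ≤ s + 1) :
    (s + 1) :: c ∈ cl i (s + 1) := mem_cl_succ.2 (Or.inr ⟨c, h, h', rfl⟩)

theorem mem_cons' {s t : ℕ} {c : List ℕ} (h : c ∈ cl i t) (hs : birth c < s)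
    (h' : i (birth c) ≤ s) (hst : s ≤ t) : s :: c ∈ cl i t := by
  obtain _ | s := s
  · omega
  · exact cl_mono_le hst (mem_cons (mem_of_birth_le h (by omega)) h')

/-- The cells depend only on the early values of `i`. -/
theorem cl_congr {i i' : ℕ → ℕ} {T : ℕ} (h : ∀ b ≤ T, i b = i' b) :
    ∀ t ≤ T + 1, cl i t = cl i' t := by
  intro t
  induction t with
  | zero => intro _; rfl
  | succ t ih =>
    intro ht
    have h1 := ih (by omega)
    ext c
    rw [mem_cl_succ, mem_cl_succ, h1]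
    refine or_congr Iff.rfl ⟨?_, ?_⟩
    · rintro ⟨c', h2, h3, h4⟩
      have h5 := birth_le h2
      exact ⟨c', h2, by rw [← h _ (by omega)]; exact h3, h4⟩
    · rintro ⟨c', h2, h3, h4⟩
      have h5 := birth_le h2
      exact ⟨c', h2, by rw [h _ (by omega)]; exact h3, h4⟩

/-- target of a word: shift all letters by one and append `1` when `j = 1`. -/
def tg (j : Fin 2) : List ℕ → List ℕ
  | [] => if j = 0 then [] else [1]
  | t :: c => (t + 1) :: tg j c

@[simp] theorem tg_cons (j : Fin 2) (t : ℕ) (c : List ℕ) : tg j (t :: c) = (t + 1) :: tg j c := rfl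
@[simp] theorem tg_zero_nil : tg 0 [] = [] := rfl
@[simp] theorem tg_one_nil : tg 1 [] = [1] := rfl

theorem birth_tg (j : Fin 2) (c : List ℕ) (h : ¬ (j = 0 ∧ c = [])) :
    birth (tg j c) = birth c + 1 := by
  obtain _ | ⟨t, c⟩ := c
  · fin_cases j
    · exact absurd ⟨rfl, rfl⟩ h
    · rfl
  · rfl

theorem birth_tg_le (j : Fin 2) (c : List ℕ) : birth (tg j c) ≤ birth c + 1 := by
  by_cases h : j = 0 ∧ c = []
  · rw [h.1, h.2]; simp
  · exact (birth_tg j c h).le

theorem length_tg (j : Fin 2) (c : List ℕ) : c.length ≤ (tg j c).length := by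
  induction c with
  | nil => simp
  | cons t c ih => simp only [tg_cons, List.length_cons]; omega

/-- Every new cell is the target of a unique word on the cell level before. -/
theorem exists_word {i : ℕ → ℕ} {T : ℕ} (hi0 : i 0 = 1) (hi : ∀ b < T, i b < i (b + 1))
    {q : List ℕ} (hq : q ∈ cl i (T + 1)) (hqT : birth q = T + 1) :
    ∃ j c, c ∈ cl i T ∧ birth c = T ∧ tg j c = q := by
  induction q generalizing T with
  | nil => simp at hqT
  | cons t q ih =>
    simp only [birth_cons] at hqT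
    subst hqT
    obtain ⟨-, -, h1, h2⟩ := cons_mem hq
    simp only [Nat.add_sub_cancel] at h1
    obtain _ | ⟨s, q⟩ := q
    · -- q = [T+1]
      obtain _ | T := T
      · exact ⟨1, [], by simp, rfl, rfl⟩
      · refine ⟨0, [T + 1], ?_, rfl, rfl⟩
        exact mem_cons (nil_mem _) (by simp [hi0])
    · obtain ⟨h3, h4, h5, h6⟩ := cons_mem h1
      obtain ⟨s, rfl⟩ : ∃ s', s = s' + 1 := ⟨s - 1, by omega⟩
      obtain ⟨j, c, hc1, hc2, hc3⟩ := ih (T := s) (fun b hb => hi b (by omega))
        (mem_of_birth_le h1 le_rfl) rfl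
      refine ⟨j, T :: c, ?_, rfl, by rw [tg_cons, hc3]⟩
      simp only [birth_cons] at h2
      have h7 := hi s (by omega)
      refine mem_cons' (t := T) (cl_mono_le (by omega) hc1) (by omega) ?_ le_rfl
      rw [hc2]; omega

end Pool.Agent.W618.IFS
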