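import Mathlib
import Pool.Agent.H764R3.TopFractalCut

/-!
# Arcs with interior
-/

open Set Topology Filter

namespace Pool.Agent.W618.IFS

open Pool.Agent.H764R3.TopFractal Pool.Agent.H764R3.TopFractalCut

theorem attractor_of_subsingleton {X : Type*} [TopologicalSpace X] [Subsingleton X]
    [Nonempty X] :
    IsTopologicalIFSAttractor X := by
  refine ⟨inferInstance, {id}, finite_singleton _, ?_, ?_, ?_⟩
  · intro f hf
    rw [mem_singleton_iff.1 hf]
    exact continuous_id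
  · simp
  · intro 𝒰 _ hc
    refine ⟨0, fun l hl _ => ?_⟩
    rw [List.length_eq_zero_iff.1 hl]
    obtain ⟨x⟩ := ‹Nonempty X›
    have hx : x ∈ ⋃₀ 𝒰 := by rw [hc]; trivial
    obtain ⟨U, hU, hxU⟩ := hx
    refine ⟨U, hU, ?_⟩
    rintro _ ⟨y, rfl⟩
    rw [Subsingleton.elim (([] : List (X → X)).foldr (fun f g => f ∘ g) id y) x]
    exact hxU

/-- A sub-arc of an arc lying in the interior is open. -/
theorem isOpen_subarc {X : Type*} [TopologicalSpace X] [T2Space X] {α : ℝ → X}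
    (hα : Continuous α) (hinj : InjOn α (Icc 0 1)) {a b : ℝ} (ha : 0 ≤ a) (hb : b ≤ 1)
    (h : α '' Ioo a b ⊆ interior (α '' Icc 0 1)) : IsOpen (α '' Ioo a b) := by
  have h1 : α '' Ioo a b = interior (α '' Icc 0 1) \ (α '' (Icc 0 1 \ Ioo a b)) := by
    ext x
    constructor
    · rintro ⟨t, ht, rfl⟩
      refine ⟨h ⟨t, ht, rfl⟩, ?_⟩
      rintro ⟨s, ⟨hs1, hs2⟩, hst⟩
      have : s = t := hinj hs1 ⟨ha.trans ht.1.le, ht.2.le.trans hb⟩ hst
      exact hs2 (this ▸ ht)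
    · rintro ⟨hx1, hx2⟩
      obtain ⟨t, ht, rfl⟩ := interior_subset hx1
      by_contra hcon
      exact hx2 ⟨t, ⟨ht, fun h => hcon ⟨t, h, rfl⟩⟩, rfl⟩
  rw [h1]
  refine isOpen_interior.sdiff ?_
  exact ((isCompact_Icc.diff isOpen_Ioo).image hα).isClosed

theorem attractor_of_free_arc {X : Type*} [TopologicalSpace X]
    [TopologicalSpace.MetrizableSpace X] (q₀ : unitInterval → X) (hq₀ : Continuous q₀)
    (hs : Function.Surjective q₀) {α : ℝ → X} (hα : Continuous α) (hinj : InjOn α (Icc 0 1))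
    (hint : (interior (α '' Icc 0 1)).Nonempty) : IsTopologicalIFSAttractor X := by
  -- a parameter in the open interval
  obtain ⟨x, hx⟩ := hint
  obtain ⟨t0, ht0, rfl⟩ := interior_subset hx
  have hopen : IsOpen (α ⁻¹' interior (α '' Icc 0 1)) := isOpen_interior.preimage hα
  obtain ⟨δ, hδ, hball⟩ := Metric.isOpen_iff.1 hopen t0 hx
  -- an interval inside
  obtain ⟨a, b, hab, ha, hb, hsub⟩ : ∃ a b : ℝ, a < b ∧ 0 ≤ a ∧ b ≤ 1 ∧
      α '' Ioo a b ⊆ interior (α '' Icc 0 1) := by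
    refine ⟨max 0 (t0 - δ), min 1 (t0 + δ), ?_, le_max_left _ _, min_le_left _ _, ?_⟩
    · refine max_lt (lt_min one_pos (by linarith [ht0.1])) (lt_min (by linarith [ht0.2]) (by linarith))
    · rintro _ ⟨t, ht, rfl⟩
      refine hball ?_
      have h1 := (le_max_right 0 (t0 - δ)).trans_lt ht.1
      have h2 := ht.2.trans_le (min_le_right 1 (t0 + δ))
      rw [Metric.mem_ball, Real.dist_eq, abs_lt]
      constructor <;> linarith
  have hcut : ∀ t ∈ Ioo a b, IsLocalCutPoint (α t) := by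
    intro t ht
    refine ⟨α '' Ioo a b, isOpen_subarc hα hinj ha hb hsub,
      ⟨⟨_, mem_image_of_mem α ht⟩, isPreconnected_Ioo.image α hα.continuousOn⟩,
      mem_image_of_mem α ht, ?_⟩
    intro hpre
    have h1 : IsOpen (α '' Ioo a t) := isOpen_subarc hα hinj ha (ht.2.le.trans hb)
      ((image_mono (Ioo_subset_Ioo_right ht.2.le)).trans hsub)
    have h2 : IsOpen (α '' Ioo t b) := isOpen_subarc hα hinj (ha.trans ht.1.le) hb
      ((image_mono (Ioo_subset_Ioo_left ht.1.le)).trans hsub)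
    have hI : ∀ s ∈ Ioo a b, s ∈ Icc (0 : ℝ) 1 := fun s hs =>
      ⟨ha.trans hs.1.le, hs.2.le.trans hb⟩
    have h3 : α '' Ioo a b \ {α t} ⊆ α '' Ioo a t ∪ α '' Ioo t b := by
      rintro _ ⟨⟨s, hs, rfl⟩, hne⟩
      rcases lt_trichotomy s t with h3 | h3 | h3
      · exact Or.inl ⟨s, ⟨hs.1, h3⟩, rfl⟩
      · exact absurd (by rw [h3]; rfl) hne
      · exact Or.inr ⟨s, ⟨h3, hs.2⟩, rfl⟩
    have h4 : (α '' Ioo a b \ {α t} ∩ α '' Ioo a t).Nonempty := by
      have hs : (a + t) / 2 ∈ Ioo a t := ⟨by linarith [ht.1], by linarith [ht.1]⟩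
      refine ⟨α ((a + t) / 2), ⟨mem_image_of_mem α ⟨hs.1, hs.2.trans ht.2⟩, fun h => ?_⟩,
        mem_image_of_mem α hs⟩
      have := hinj (hI _ ⟨hs.1, hs.2.trans ht.2⟩) (hI t ht) h
      linarith [hs.2]
    have h5 : (α '' Ioo a b \ {α t} ∩ α '' Ioo t b).Nonempty := by
      have hs : (t + b) / 2 ∈ Ioo t b := ⟨by linarith [ht.2], by linarith [ht.2]⟩
      refine ⟨α ((t + b) / 2), ⟨mem_image_of_mem α ⟨ht.1.trans hs.1, hs.2⟩, fun h => ?_⟩,
        mem_image_of_mem α hs⟩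
      have := hinj (hI _ ⟨ht.1.trans hs.1, hs.2⟩) (hI t ht) h
      linarith [hs.1]
    obtain ⟨y, hy1, hy2, hy3⟩ := hpre _ _ h1 h2 h3 h4 h5
    obtain ⟨s, hs, hsy⟩ := hy2
    obtain ⟨s', hs', hsy'⟩ := hy3
    have h6 : s = s' := hinj (hI s ⟨hs.1, hs.2.trans ht.2⟩) (hI s' ⟨ht.1.trans hs'.1, hs'.2⟩)
      (hsy.trans hsy'.symm)
    have h7 := hs.2
    have h8 := hs'.1
    linarith
  refine attractor_of_local_cut_points q₀ hq₀ hs fun hcount => ?_
  have h1 : (α '' Ioo a b).Countable := hcount.mono (by rintro _ ⟨t, ht, rfl⟩; exact hcut t ht)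
  have h2 : (Ioo a b).Countable := by
    refine Set.countable_of_injective_of_countable_image ?_ h1
    exact hinj.mono (fun s hs => (⟨ha.trans hs.1.le, hs.2.le.trans hb⟩ : s ∈ Icc (0 : ℝ) 1))
  have h3 : Cardinal.mk (Ioo a b) = Cardinal.continuum := Cardinal.mk_Ioo_real hab
  rw [← Cardinal.le_aleph0_iff_set_countable, h3] at h2
  exact absurd h2 (not_le.2 Cardinal.aleph0_lt_continuum)

end Pool.Agent.W618.IFS
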