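import Mathlib
import Pool.Agent.W618.IFS.Path

/-!
# Nets for a sum of costs
-/

open Set Topology Filter

namespace Pool.Agent.W618.IFS

theorem exists_pos_le {α : Type*} (A : Finset α) (f : α → ℝ) (hf : ∀ a ∈ A, 0 < f a) :
    ∃ m > 0, ∀ a ∈ A, m ≤ f a := by
  classical
  induction A using Finset.induction_on with
  | empty => exact ⟨1, one_pos, fun a ha => absurd ha (Finset.notMem_empty a)⟩
  | insert a A _ ih =>
    obtain ⟨m, hm, h⟩ := ih fun b hb => hf b (Finset.mem_insert_of_mem hb)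
    refine ⟨min m (f a), lt_min hm (hf a (Finset.mem_insert_self _ _)), fun b hb => ?_⟩
    rcases Finset.mem_insert.1 hb with rfl | hb
    · exact min_le_right _ _
    · exact (min_le_left _ _).trans (h b hb)

variable {X : Type*} [MetricSpace X]

theorem net_add {α : Type*} [DecidableEq α] {e : X → X → ℝ} {U : Set X} (hnet : Net e U)
    (act : Finset α) (Y : α → X) (R r : α → ℝ) (V : α → X → ℝ) (W : α → Set X) (w : α → ℝ)
    (hw1 : ∀ c ∈ act, w c ≤ 1)
    (hr : ∀ c ∈ act, 0 < r c ∧ r c ≤ R c / 4)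
    (he : ∀ c ∈ act, ∀ a b, dist a (Y c) < R c → dist b (Y c) < R c → e a b = 0)
    (hdis : ∀ c ∈ act, ∀ c' ∈ act, c ≠ c' → ∀ x, dist x (Y c) < R c → ¬ dist x (Y c') < R c')
    (hV0 : ∀ c ∈ act, ∀ x, 0 ≤ V c x)
    (hV : ∀ c ∈ act, ∀ x, 0 < V c x → dist x (Y c) < r c / 2)
    (hVn : ∀ c ∈ act, Net (fun a b => |V c a - V c b|) (W c)) :
    Net (fun a b => e a b + ∑ c ∈ act, w c * |V c a - V c b|) (U ∩ ⋂ c ∈ act, W c) := by
  classical
  intro η hη
  obtain ⟨m, hm, hm1⟩ := exists_pos_le act (fun c => r c / 8)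
    (fun c hc => by have := (hr c hc).1; positivity)
  set η1 := min η m with hη1
  have hη1pos : 0 < η1 := lt_min hη hm
  have hη1η : η1 ≤ η := min_le_left _ _
  have hη1m : ∀ c ∈ act, η1 ≤ r c / 8 := fun c hc => (min_le_right _ _).trans (hm1 c hc)
  obtain ⟨P0, hP0⟩ := hnet η1 hη1pos
  have h1 : ∀ c ∈ act, ∃ P : Finset X, ∀ x ∈ W c, ∃ p ∈ P,
      Reach (fun a b => |V c a - V c b|) η1 p x := fun c hc => hVn c hc η1 hη1pos
  choose! P hP using h1
  refine ⟨P0 ∪ act.biUnion P, fun x hx => ?_⟩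
  by_cases hc : ∃ c ∈ act, dist x (Y c) < r c
  · obtain ⟨c, hc, hxc⟩ := hc
    obtain ⟨p, hp, hpx⟩ := hP c hc x (mem_iInter₂.1 hx.2 c hc)
    refine ⟨p, Finset.mem_union_right _ (Finset.mem_biUnion.2 ⟨c, hc, hp⟩), ?_⟩
    refine PathIn.mono ?_ le_rfl (Metric.closedBall_subset_closedBall hη1η)
    refine PathIn.mono_e hpx fun a ha b hb L hL => ?_
    have hr1 := hr c hc
    have h2 := hη1m c hc
    have hnear : ∀ a ∈ Metric.closedBall x η1, dist a (Y c) < R c := by
      intro a ha
      have h3 := dist_triangle a x (Y c)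
      rw [Metric.mem_closedBall] at ha
      linarith [hr1.1]
    have h4 : ∑ c' ∈ act, w c' * |V c' a - V c' b| = w c * |V c a - V c b| := by
      refine Finset.sum_eq_single_of_mem c hc fun c' hc' hne => ?_
      have h5 : ∀ a ∈ Metric.closedBall x η1, V c' a = 0 := by
        intro a ha
        refine le_antisymm (not_lt.1 fun h => ?_) (hV0 c' hc' a)
        have h6 := hV c' hc' a h
        have h7 := hr c' hc'
        exact hdis c hc c' hc' (Ne.symm hne) a (hnear a ha) (by linarith [h7.1])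
      rw [h5 a ha, h5 b hb, sub_self, abs_zero, mul_zero]
    rw [he c hc a b (hnear a ha) (hnear b hb), zero_add, h4]
    have h8 : 0 ≤ η1 * L := le_trans (abs_nonneg _) hL
    have hL0 : 0 ≤ L := by
      by_contra hneg
      have := mul_neg_of_pos_of_neg hη1pos (not_le.1 hneg)
      linarith
    calc w c * |V c a - V c b| ≤ 1 * |V c a - V c b| :=
          mul_le_mul_of_nonneg_right (hw1 c hc) (abs_nonneg _)
      _ = |V c a - V c b| := one_mul _
      _ ≤ η1 * L := hL
      _ ≤ η * L := mul_le_mul_of_nonneg_right hη1η hL0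
  · push Not at hc
    obtain ⟨p, hp, hpx⟩ := hP0 x hx.1
    refine ⟨p, Finset.mem_union_left _ hp, ?_⟩
    refine PathIn.mono ?_ hη1η (Metric.closedBall_subset_closedBall hη1η)
    refine PathIn.mono_e hpx fun a ha b hb L hL => ?_
    have h5 : ∀ c ∈ act, ∀ a ∈ Metric.closedBall x η1, V c a = 0 := by
      intro c hc' a ha
      refine le_antisymm (not_lt.1 fun h => ?_) (hV0 c hc' a)
      have h6 := hV c hc' a h
      have h7 := hr c hc'
      have h8 := hη1m c hc'
      have h9 := hc c hc'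
      have h10 := dist_triangle_left x (Y c) a
      rw [Metric.mem_closedBall] at ha
      linarith [h7.1]
    have h4 : ∑ c' ∈ act, w c' * |V c' a - V c' b| = 0 := by
      refine Finset.sum_eq_zero fun c' hc' => ?_
      rw [h5 c' hc' a ha, h5 c' hc' b hb, sub_self, abs_zero, mul_zero]
    rw [h4, add_zero]
    exact hL

end Pool.Agent.W618.IFS
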