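import Mathlib
import Pool.Agent.W618.IFS.Path
import Pool.Agent.W618.IFS.Cells
import Pool.Agent.W618.IFS.NetAdd

/-!
# The geometric state of the construction
-/

open Set Topology Filter

namespace Pool.Agent.W618.IFS

/-- The geometric data of the construction. -/
structure Geo (X : Type*) where
  i : ℕ → ℕ
  g : ℕ → ℝ
  η : ℕ → ℝ
  ξ : ℕ → ℕ → X
  U : ℕ → Set X
  y : List ℕ → X
  v : List ℕ → X → ℝ
  R : ℕ → List ℕ → ℝ
  r : ℕ → List ℕ → ℝ

variable {X : Type*} [MetricSpace X]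

/-- height of a cell -/
noncomputable def hh (s : Geo X) (c : List ℕ) : ℝ := (9 / 10 : ℝ) ^ c.length * s.g (birth c)

/-- cost pseudo-metric at time `t` -/
noncomputable def Dt (s : Geo X) (t : ℕ) (a b : X) : ℝ :=
  ∑ c ∈ cl s.i t, hh s c * |s.v c a - s.v c b|

/-- Two states agree up to time `T`. -/
structure Agr (s s' : Geo X) (T : ℕ) : Prop where
  i : ∀ b ≤ T, s'.i b = s.i b
  g : ∀ b ≤ T, s'.g b = s.g b
  η : ∀ b ≤ T, s'.η b = s.η b
  ξ : ∀ b ≤ T, s'.ξ b = s.ξ b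
  U : ∀ b ≤ T, s'.U b = s.U b
  y : ∀ c, birth c ≤ T → s'.y c = s.y c
  v : ∀ c, birth c ≤ T → s'.v c = s.v c
  R : ∀ b ≤ T, s'.R b = s.R b
  r : ∀ b ≤ T, s'.r b = s.r b

theorem Agr.cl {s s' : Geo X} {T : ℕ} (h : Agr s s' T) {t : ℕ} (ht : t ≤ T + 1) :
    cl s'.i t = cl s.i t := cl_congr (fun b hb => h.i b hb) t ht

theorem Agr.hh {s s' : Geo X} {T : ℕ} (h : Agr s s' T) {c : List ℕ} (hc : birth c ≤ T) :
    hh s' c = hh s c := by
  unfold IFS.hh
  rw [h.g _ hc]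

theorem Agr.Dt {s s' : Geo X} {T : ℕ} (h : Agr s s' T) {t : ℕ} (ht : t ≤ T) :
    Dt s' t = Dt s t := by
  funext a b
  unfold IFS.Dt
  rw [h.cl (by omega)]
  refine Finset.sum_congr rfl fun c hc => ?_
  have := birth_le hc
  rw [h.hh (by omega), h.v c (by omega)]

theorem Agr.refl (s : Geo X) (T : ℕ) : Agr s s T :=
  ⟨fun _ _ => rfl, fun _ _ => rfl, fun _ _ => rfl, fun _ _ => rfl, fun _ _ => rfl, fun _ _ => rfl,
    fun _ _ => rfl, fun _ _ => rfl, fun _ _ => rfl⟩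

theorem Agr.trans {s s' s'' : Geo X} {T : ℕ} (h : Agr s s' T) (h' : Agr s' s'' T) :
    Agr s s'' T :=
  ⟨fun b hb => (h'.i b hb).trans (h.i b hb), fun b hb => (h'.g b hb).trans (h.g b hb),
    fun b hb => (h'.η b hb).trans (h.η b hb), fun b hb => (h'.ξ b hb).trans (h.ξ b hb),
    fun b hb => (h'.U b hb).trans (h.U b hb), fun b hb => (h'.y b hb).trans (h.y b hb),
    fun b hb => (h'.v b hb).trans (h.v b hb), fun b hb => (h'.R b hb).trans (h.R b hb),
    fun b hb => (h'.r b hb).trans (h.r b hb)⟩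

theorem Agr.mono {s s' : Geo X} {T T' : ℕ} (h : Agr s s' T) (hT : T' ≤ T) :
    Agr s s' T' :=
  ⟨fun b hb => h.i b (hb.trans hT), fun b hb => h.g b (hb.trans hT),
    fun b hb => h.η b (hb.trans hT), fun b hb => h.ξ b (hb.trans hT),
    fun b hb => h.U b (hb.trans hT), fun b hb => h.y b (hb.trans hT),
    fun b hb => h.v b (hb.trans hT), fun b hb => h.R b (hb.trans hT),
    fun b hb => h.r b (hb.trans hT)⟩

/-- The invariants of the geometric state. -/
structure GInv (Q : Set X) (s : Geo X) (T : ℕ) : Prop where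
  i0 : s.i 0 = 1
  is : ∀ t < T, s.i t + 3 ≤ s.i (t + 1)
  gpos : ∀ t ≤ T, 0 < s.g t
  g1 : ∀ t ≤ T, s.g t ≤ 1
  gdec : ∀ t < T, s.g (t + 1) < s.g t
  glow : ∀ t ≤ T, ∀ b < T, t < s.i (b + 1) → 9 / 10 * s.g b < s.g t
  gup : ∀ t ≤ T, ∀ b ≤ T, s.i b ≤ t → s.g t ≤ 19 / 20 * s.g b
  vc : ∀ c ∈ cl s.i T, Continuous (s.v c)
  v0 : ∀ c ∈ cl s.i T, ∀ x, 0 ≤ s.v c x
  v1 : ∀ c ∈ cl s.i T, ∀ x, s.v c x ≤ 1
  vo : ∀ x, s.v [] x = 1
  vy : ∀ c ∈ cl s.i T, s.v c (s.y c) = 1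
  vy0 : ∀ c ∈ cl s.i T, ∀ c' ∈ cl s.i T, c ≠ c' → birth c ≤ birth c' → s.v c' (s.y c) = 0
  vcon : ∀ t ≤ T, ∀ c ∈ cl s.i t, ∀ c' ∈ cl s.i t, ∀ x, dist x (s.y c) < s.R t c →
    s.v c' x = s.v c' (s.y c)
  rpos : ∀ t ≤ T, ∀ c ∈ cl s.i t, 0 < s.r t c ∧ s.r t c ≤ s.R t c / 4
  rmono : ∀ t < T, ∀ c ∈ cl s.i t, s.r (t + 1) c ≤ s.r t c ∧ s.R (t + 1) c ≤ s.R t c
  rinact : ∀ t < T, ∀ c ∈ cl s.i t, t + 1 < s.i (birth c) → s.r (t + 1) c = s.r t c
  Rb : ∀ t ≤ T, ∀ c ∈ cl s.i t, 1 ≤ birth c → s.R t c ≤ (1 / 2) ^ (birth c)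
  Ra : ∀ t ≤ T, ∀ c ∈ cl s.i t, s.i (birth c) ≤ t → s.R t c ≤ (1 / 2) ^ t
  cc : ∀ c ∈ cl s.i T, CCat Q (s.y c) (s.R T c) (s.r T c)
  nest : ∀ u c, u :: c ∈ cl s.i T → ∀ x, (0 < s.v (u :: c) x ∨
    dist x (s.y (u :: c)) ≤ s.R u (u :: c)) → dist x (s.y c) < s.r (u - 1) c / 2
  Qd : Dense Q
  UQ : ∀ t ≤ T, Q ⊆ s.U t
  Um : ∀ t < T, s.U (t + 1) ⊆ s.U t
  net : Net (Dt s T) (s.U T)
  ηpos : ∀ t ≤ T, 0 < s.η t
  ηr : ∀ t ≤ T, ∀ c ∈ cl s.i t, 16 * s.η t ≤ s.r t c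
  ηg : ∀ t ≤ T, 1200 * s.η t ≤ (9 / 10) ^ t * s.g t
  η2 : ∀ t ≤ T, 14 * s.η t ≤ (1 / 2) ^ t
  ηm : ∀ t < T, s.η (t + 1) ≤ s.η t / 2
  ξ : ∀ t, t + 1 ≤ T → ∀ x ∈ s.U (t + 1), ∃ k, s.i t + k + 3 ≤ s.i (t + 1) ∧
    Reach (Dt s (t + 1)) (s.η (t + 1)) (s.ξ (t + 1) k) x

/-- The facts on paths in the zones of the cells that got a child at time `T + 1`. -/
structure EF (s : Geo X) (T : ℕ) : Prop where
  a : ∀ c ∈ cl s.i T, s.i (birth c) ≤ T + 1 →
    PathIn (Dt s (T + 1)) ((9 / 10) ^ (c.length + 1) * ((s.g T + s.g (T + 1)) / 2))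
      (Metric.ball (s.y c) (s.R T c)) (s.y c) (s.y ((T + 1) :: c))
  b : ∀ c ∈ cl s.i T, s.i (birth c) ≤ T + 1 → ∀ x ∈ s.U (T + 1), dist x (s.y c) < s.r T c →
    PathIn (Dt s (T + 1)) ((9 / 10) ^ (c.length + 1) * ((s.g T + s.g (T + 1)) / 2))
      (Metric.ball (s.y c) (s.R T c)) (s.y ((T + 1) :: c)) x

namespace GInv

variable {Q : Set X} {s : Geo X} {T : ℕ} (h : GInv Q s T)

include h

theorem g_anti {a b : ℕ} (hab : a ≤ b) (hb : b ≤ T) : s.g b ≤ s.g a := by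
  induction hab with
  | refl => exact le_rfl
  | step hm ih =>
    rename_i m
    have hm' : m < T := hb
    exact (h.gdec m hm').le.trans (ih hm'.le)

theorem i_lt {b : ℕ} (hb : b ≤ T) : b < s.i b := by
  induction b with
  | zero => rw [h.i0]; exact Nat.one_pos
  | succ b ih =>
    have h1 := ih (by omega)
    have h2 := h.is b (by omega)
    omega

theorem i_mono {a b : ℕ} (hab : a ≤ b) (hb : b ≤ T) : s.i a ≤ s.i b := by
  induction hab with
  | refl => exact le_rfl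
  | step hm ih =>
    rename_i m
    have hm' : m < T := hb
    have h1 := h.is m hm'
    have h2 := ih hm'.le
    show s.i a ≤ s.i (m + 1)
    omega

theorem i_strict {a b : ℕ} (hab : a < b) (hb : b ≤ T) : s.i a < s.i b := by
  have h1 := h.i_mono (a := a + 1) (b := b) hab hb
  have h2 := h.is a (by omega)
  omega

theorem lt_of_i_lt {a b : ℕ} (ha : a ≤ T) (hlt : s.i a < s.i b) : a < b := by
  by_contra hcon
  have := h.i_mono (not_lt.1 hcon) ha
  omega

theorem hh_pos {c : List ℕ} (hc : c ∈ cl s.i T) : 0 < hh s c :=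
  mul_pos (by positivity) (h.gpos _ (birth_le hc))

theorem hh_le_one {c : List ℕ} (hc : c ∈ cl s.i T) : hh s c ≤ 1 := by
  unfold hh
  have h1 := h.g1 _ (birth_le hc)
  have h2 := h.gpos _ (birth_le hc)
  have h3 : (9 / 10 : ℝ) ^ c.length ≤ 1 := pow_le_one₀ (by norm_num) (by norm_num)
  have h4 : (0 : ℝ) ≤ (9 / 10 : ℝ) ^ c.length := by positivity
  nlinarith

theorem pm {t : ℕ} (ht : t ≤ T) : PM (Dt s t) := by
  have hp : ∀ c ∈ cl s.i t, 0 < hh s c := fun c hc => h.hh_pos (cl_mono_le ht hc)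
  refine ⟨fun a => ?_, fun a b => ?_, fun a b => ?_, fun a b c => ?_⟩
  · simp [Dt]
  · exact Finset.sum_nonneg fun c hc => mul_nonneg (hp c hc).le (abs_nonneg _)
  · exact Finset.sum_congr rfl fun c _ => by rw [abs_sub_comm]
  · unfold Dt
    rw [← Finset.sum_add_distrib]
    refine Finset.sum_le_sum fun e he => ?_
    rw [← mul_add]
    exact mul_le_mul_of_nonneg_left (abs_sub_le _ _ _) (hp e he).le

theorem r_anti {c : List ℕ} {a b : ℕ} (hc : c ∈ cl s.i a) (hab : a ≤ b) (hb : b ≤ T) :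
    s.r b c ≤ s.r a c ∧ s.R b c ≤ s.R a c := by
  induction hab with
  | refl => exact ⟨le_rfl, le_rfl⟩
  | step hm ih =>
    rename_i m
    have hm' : m < T := hb
    have h1 := h.rmono m hm' c (cl_mono_le hm hc)
    have h2 := ih hm'.le
    exact ⟨h1.1.trans h2.1, h1.2.trans h2.2⟩

theorem r_inact {c : List ℕ} {a b : ℕ} (hc : c ∈ cl s.i a) (hab : a ≤ b) (hb : b ≤ T)
    (hi : b < s.i (birth c)) : s.r b c = s.r a c := by
  induction hab with
  | refl => rfl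
  | step hm ih =>
    rename_i m
    have hm' : m < T := hb
    have hi' : m + 1 < s.i (birth c) := hi
    have h1 := h.rinact m hm' c (cl_mono_le hm hc) hi'
    show s.r (m + 1) c = s.r a c
    rw [h1]
    exact ih hm'.le (by omega)

/-- The zones of different cells are disjoint. -/
theorem disj {t : ℕ} (ht : t ≤ T) {c c' : List ℕ} (hc : c ∈ cl s.i t) (hc' : c' ∈ cl s.i t)
    (hne : c ≠ c') {x : X} (hx : dist x (s.y c) < s.R t c) : ¬ dist x (s.y c') < s.R t c' := by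
  intro hx'
  wlog hb : birth c ≤ birth c' generalizing c c'
  · exact this hc' hc (Ne.symm hne) hx' hx (by omega)
  · have h1 := h.vcon t ht c hc c' hc' x hx
    have h2 := h.vcon t ht c' hc' c' hc' x hx'
    rw [h1, h.vy c' (cl_mono_le ht hc'), h.vy0 c (cl_mono_le ht hc) c' (cl_mono_le ht hc') hne hb]
      at h2
    exact zero_ne_one h2

theorem η_anti {a b : ℕ} (hab : a ≤ b) (hb : b ≤ T) : s.η b ≤ s.η a := by
  induction hab with
  | refl => exact le_rfl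
  | step hm ih =>
    rename_i m
    have hm' : m < T := hb
    have h1 := h.ηm m hm'
    have h2 := ih hm'.le
    have h3 := h.ηpos m hm'.le
    show s.η (m + 1) ≤ s.η a
    linarith

theorem U_anti {a b : ℕ} (hab : a ≤ b) (hb : b ≤ T) : s.U b ⊆ s.U a := by
  induction hab with
  | refl => exact Subset.rfl
  | step hm ih =>
    rename_i m
    have hm' : m < T := hb
    exact (h.Um m hm').trans (ih hm'.le)

/-- All cells born after time `a` live in the zones (at time `a`) of the cells of time `a` which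
are already active. -/
theorem later {a : ℕ} {q : List ℕ} (hq : q ∈ cl s.i T) (hqa : q ∉ cl s.i a) :
    ∃ c ∈ cl s.i a, s.i (birth c) ≤ birth q ∧ ∀ x, (0 < s.v q x ∨
      dist x (s.y q) ≤ s.R (birth q) q) → dist x (s.y c) < s.r a c / 2 := by
  induction q with
  | nil => exact absurd (nil_mem a) hqa
  | cons u c ih =>
    obtain ⟨h1, h2, h3, h4⟩ := cons_mem hq
    have hcT : c ∈ cl s.i T := cl_mono_le (by omega) h3
    have hau : a < u := by
      by_contra hcon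
      exact hqa (mem_of_birth_le hq (by simp only [birth_cons]; omega))
    by_cases hca : c ∈ cl s.i a
    · refine ⟨c, hca, h4, fun x hx => ?_⟩
      have h5 := h.nest u c hq x hx
      have h6 := (h.r_anti hca (show a ≤ u - 1 by omega) (by omega)).1
      linarith
    · obtain ⟨c0, hc0, hi0, hc0x⟩ := ih hcT hca
      have hbc := birth_le h3
      refine ⟨c0, hc0, ?_, fun x hx => ?_⟩
      · simp only [birth_cons]
        omega
      · have h5 := h.nest u c hq x hx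
        refine hc0x x (Or.inr ?_)
        have h6 := (h.r_anti (mem_birth hcT) (show birth c ≤ u - 1 by omega) (by omega)).1
        have h7 := h.rpos (birth c) (by omega) c (mem_birth hcT)
        linarith [h7.1, h7.2]

theorem disj_le {t : ℕ} (ht : t ≤ T) {c c' : List ℕ} (hc : c ∈ cl s.i t) (hc' : c' ∈ cl s.i t)
    (hne : c ≠ c') {x : X} (hx : dist x (s.y c) < s.R t c) : s.R t c' ≤ dist x (s.y c') :=
  not_lt.1 (h.disj ht hc hc' hne hx)

theorem R_pos {t : ℕ} (ht : t ≤ T) {c : List ℕ} (hc : c ∈ cl s.i t) : 0 < s.R t c := by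
  have := h.rpos t ht c hc
  linarith [this.1, this.2]

/-- The cost along points near `x` does not see the cells born after time `a`. -/
theorem Dt_eq {a t : ℕ} (hat : a ≤ t) (ht : t ≤ T) {p q : X}
    (hp : ∀ c ∈ cl s.i t, c ∉ cl s.i a → s.v c p = s.v c q) : Dt s t p q = Dt s a p q := by
  unfold Dt
  rw [← Finset.sum_sdiff (cl_mono_le hat)]
  rw [Finset.sum_eq_zero, zero_add]
  intro c hc
  rw [Finset.mem_sdiff] at hc
  rw [hp c hc.1 hc.2, sub_self, abs_zero, mul_zero]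

end GInv

end Pool.Agent.W618.IFS
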