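import Mathlib
import Pool.Agent.W618.IFS.State

/-!
# One step of the geometric construction
-/

open Set Topology Filter

namespace Pool.Agent.W618.IFS

variable {X : Type*} [MetricSpace X] {Q : Set X}

theorem exists_beta {s : Geo X} {T : ℕ} (h : GInv Q s T) :
    ∃ β ≤ T, s.i β ≤ T + 1 ∧ ∀ b, β < b → b ≤ T → T + 1 < s.i b := by
  classical
  refine ⟨Nat.findGreatest (fun b => s.i b ≤ T + 1) T, Nat.findGreatest_le T, ?_, ?_⟩
  · exact Nat.findGreatest_spec (P := fun b => s.i b ≤ T + 1) (Nat.zero_le T)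
      (by rw [h.i0]; omega)
  · intro b hb hbT
    by_contra hcon
    exact Nat.findGreatest_is_greatest hb hbT (not_lt.1 hcon)

theorem exists_g {s : Geo X} {T β : ℕ} (h : GInv Q s T) (hβ : β ≤ T)
    (hβ2 : ∀ b, β < b → b ≤ T → T + 1 < s.i b) :
    ∃ g' : ℝ, 0 < g' ∧ g' < s.g T ∧ 9 / 10 * s.g β < g' ∧ g' ≤ 19 / 20 * s.g β ∧
      9 / 10 * s.g T < g' := by
  have hT : 9 / 10 * s.g β < s.g T := by
    rcases hβ.eq_or_lt with h1 | h1
    · subst h1
      have := h.gpos β le_rfl
      linarith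
    · exact h.glow T le_rfl β h1 (by have := hβ2 (β + 1) (by omega) (by omega); omega)
  have hTβ := h.g_anti hβ le_rfl
  have hpos := h.gpos T le_rfl
  have hposβ := h.gpos β hβ
  refine ⟨(min (s.g T) (19 / 20 * s.g β) + 9 / 10 * s.g β) / 2, ?_⟩
  rcases le_total (s.g T) (19 / 20 * s.g β) with h1 | h1
  · rw [min_eq_left h1]
    refine ⟨by linarith, by linarith, by linarith, by linarith, by linarith⟩
  · rw [min_eq_right h1]
    refine ⟨by linarith, by linarith, by linarith, by linarith, by linarith⟩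

theorem geo_step (hCC : ∀ (y : X) (R : ℝ), 0 < R → ∃ r, 0 < r ∧ r ≤ R / 4 ∧ CCat Q y R r)
    {s : Geo X} {T : ℕ} (h : GInv Q s T) {Γ : Set X} (hΓ : Thin Γ) :
    ∃ s' : Geo X, Agr s s' T ∧ GInv Q s' (T + 1) ∧ EF s' T ∧
      ∀ c ∈ cl s.i T, s.i (birth c) ≤ T + 1 → ∀ x ∈ Γ, s'.v ((T + 1) :: c) x = 0 := by
  classical
  have : Nonempty X := ⟨s.y []⟩
  obtain ⟨act, hact⟩ : ∃ act, act = (cl s.i T).filter (fun c => s.i (birth c) ≤ T + 1) := ⟨_, rfl⟩
  have hactm : ∀ c, c ∈ act ↔ c ∈ cl s.i T ∧ s.i (birth c) ≤ T + 1 := by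
    intro c; rw [hact, Finset.mem_filter]
  obtain ⟨β, hβT, hβ1, hβ2⟩ := exists_beta h
  obtain ⟨g', hg0, hg1, hg2, hg3, hg4⟩ := exists_g h hβT hβ2
  have hε : 0 < (s.g T - g') / (2 * g') := div_pos (by linarith) (by linarith)
  have hcc : ∀ c ∈ act, ∃ (y' : X) (v : X → ℝ) (U : Set X),
    Continuous v ∧ (∀ x, 0 ≤ v x ∧ v x ≤ 1) ∧ (∀ x, 0 < v x → dist x (s.y c) < s.r T c / 2) ∧
    (∃ δ > 0, ∀ x, dist x (s.y c) < δ → v x = 0) ∧ (∃ δ > 0, ∀ x, dist x y' < δ → v x = 1) ∧
    (∀ x ∈ Γ, v x = 0) ∧ Q ⊆ U ∧ Net (fun a b => |v a - v b|) U ∧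
    PathIn (fun a b => |v a - v b|) (1 + (s.g T - g') / (2 * g'))
      (Metric.ball (s.y c) (s.R T c)) (s.y c) y' ∧
    ∀ x ∈ U, dist x (s.y c) < s.r T c → PathIn (fun a b => |v a - v b|)
      (1 + (s.g T - g') / (2 * g')) (Metric.ball (s.y c) (s.R T c)) y' x :=
    fun c hc => h.cc c ((hactm c).1 hc).1 Γ hΓ _ hε
  choose! Y V W hY1 hY2 hY3 hY4 hY5 hY6 hY7 hY9 hY10 hY11 using hcc
  -- old radii
  have hRa : ∀ c ∈ act, ∃ R' r', 0 < R' ∧ R' ≤ s.R T c ∧ R' ≤ (1 / 2) ^ (T + 1) ∧
      (∀ x, dist x (s.y c) < R' → V c x = 0) ∧ 0 < r' ∧ r' ≤ R' / 4 ∧ CCat Q (s.y c) R' r' ∧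
      r' ≤ s.r T c := by
    intro c hc
    obtain ⟨δ, hδ, hδ1⟩ := hY4 c hc
    have h1 := h.rpos T le_rfl c ((hactm c).1 hc).1
    have h2 : 0 < min (min (s.r T c) δ) ((1 / 2 : ℝ) ^ (T + 1)) :=
      lt_min (lt_min h1.1 hδ) (by positivity)
    obtain ⟨r', hr1, hr2, hr3⟩ := hCC (s.y c) _ h2
    have h3 : min (min (s.r T c) δ) ((1 / 2 : ℝ) ^ (T + 1)) ≤ s.r T c :=
      (min_le_left _ _).trans (min_le_left _ _)
    refine ⟨_, r', h2, by linarith [h1.1, h1.2], min_le_right _ _, fun x hx => hδ1 x ?_, hr1, hr2,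
      hr3, by linarith⟩
    exact hx.trans_le ((min_le_left _ _).trans (min_le_right _ _))
  choose! Ra ra hRa1 hRa2 hRa3 hRa4 hRa5 hRa6 hRa7 hRa8 using hRa
  have hRn : ∀ c ∈ act, ∃ R' r', 0 < R' ∧ R' ≤ (1 / 2) ^ (T + 1) ∧
      (∀ x, dist x (Y c) ≤ R' → V c x = 1) ∧ 0 < r' ∧ r' ≤ R' / 4 ∧ CCat Q (Y c) R' r' := by
    intro c hc
    obtain ⟨δ, hδ, hδ1⟩ := hY5 c hc
    have h2 : 0 < min (δ / 2) ((1 / 2 : ℝ) ^ (T + 1)) := lt_min (half_pos hδ) (by positivity)
    obtain ⟨r', hr1, hr2, hr3⟩ := hCC (Y c) _ h2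
    refine ⟨_, r', h2, min_le_right _ _, fun x hx => hδ1 x ?_, hr1, hr2, hr3⟩
    have := min_le_left (δ / 2) ((1 / 2 : ℝ) ^ (T + 1))
    linarith
  choose! Rn rn hRn1 hRn2 hRn3 hRn4 hRn5 hRn6 using hRn
  -- disjointness and support facts
  have hsupp : ∀ c ∈ act, ∀ x, 0 < V c x → dist x (s.y c) < s.R T c := by
    intro c hc x hx
    have h1 := hY3 c hc x hx
    have h2 := h.rpos T le_rfl c ((hactm c).1 hc).1
    linarith [h2.1, h2.2]
  have hzero : ∀ c ∈ act, ∀ c' ∈ cl s.i T, c ≠ c' → ∀ x, dist x (s.y c') < s.R T c' →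
      V c x = 0 := by
    intro c hc c' hc' hne x hx
    refine le_antisymm (not_lt.1 fun hpos => ?_) (hY2 c hc x).1
    exact h.disj le_rfl ((hactm c).1 hc).1 hc' hne (hsupp c hc x hpos) hx
  have hYd : ∀ c ∈ act, ∀ x, dist x (Y c) ≤ Rn c → dist x (s.y c) < s.r T c / 2 := by
    intro c hc x hx
    refine hY3 c hc x ?_
    rw [hRn3 c hc x hx]; exact one_pos
  have hYR : ∀ c ∈ act, ∀ x, dist x (Y c) ≤ Rn c → dist x (s.y c) < s.R T c := by
    intro c hc x hx
    have h1 := hYd c hc x hx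
    have h2 := h.rpos T le_rfl c ((hactm c).1 hc).1
    linarith [h2.1, h2.2]
  have hYself : ∀ c ∈ act, V c (Y c) = 1 := fun c hc =>
    hRn3 c hc _ (by rw [dist_self]; exact (hRn1 c hc).le)
  -- open dense set
  obtain ⟨U1, hU1⟩ : ∃ U1, U1 = s.U T ∩ ⋂ c ∈ act, W c := ⟨_, rfl⟩
  -- the new cost
  obtain ⟨E, hE⟩ : ∃ E : X → X → ℝ, E = fun a b => Dt s T a b +
    ∑ c ∈ act, ((9 / 10 : ℝ) ^ (c.length + 1) * g') * |V c a - V c b| := ⟨_, rfl⟩
  have hw1 : ∀ c ∈ act, (9 / 10 : ℝ) ^ (c.length + 1) * g' ≤ 1 := by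
    intro c _
    have h1 : (9 / 10 : ℝ) ^ (c.length + 1) ≤ 1 := pow_le_one₀ (by norm_num) (by norm_num)
    have h2 : (0 : ℝ) ≤ (9 / 10 : ℝ) ^ (c.length + 1) := by positivity
    have h3 := h.g1 T le_rfl
    nlinarith
  have hDzero : ∀ c ∈ cl s.i T, ∀ a b, dist a (s.y c) < s.R T c → dist b (s.y c) < s.R T c →
      Dt s T a b = 0 := by
    intro c hc a b ha hb
    unfold Dt
    refine Finset.sum_eq_zero fun c' hc' => ?_
    rw [h.vcon T le_rfl c hc c' hc' a ha, h.vcon T le_rfl c hc c' hc' b hb, sub_self, abs_zero,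
      mul_zero]
  have hENet : Net E U1 := by
    rw [hE, hU1]
    exact net_add h.net act s.y (s.R T) (s.r T) V W _ hw1
      (fun c hc => h.rpos T le_rfl c ((hactm c).1 hc).1)
      (fun c hc => hDzero c ((hactm c).1 hc).1)
      (fun c hc c' hc' hne x hx => h.disj le_rfl ((hactm c).1 hc).1 ((hactm c').1 hc').1 hne hx)
      (fun c hc x => (hY2 c hc x).1) hY3 hY9
  -- radii as functions
  obtain ⟨R1, hR1⟩ : ∃ R1 : List ℕ → ℝ, R1 = fun c => if birth c = T + 1 then Rn c.tail else
    if c ∈ act then Ra c else s.R T c := ⟨_, rfl⟩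
  obtain ⟨r1, hr1⟩ : ∃ r1 : List ℕ → ℝ, r1 = fun c => if birth c = T + 1 then rn c.tail else
    if c ∈ act then ra c else s.r T c := ⟨_, rfl⟩
  have hR1n : ∀ c, R1 ((T + 1) :: c) = Rn c := fun c => by rw [hR1]; simp
  have hr1n : ∀ c, r1 ((T + 1) :: c) = rn c := fun c => by rw [hr1]; simp
  have hbne : ∀ c ∈ cl s.i T, ¬ birth c = T + 1 := fun c hc => by have := birth_le hc; omega
  have hR1a : ∀ c ∈ act, R1 c = Ra c := fun c hc => by
    rw [hR1]; simp only; rw [if_neg (hbne c ((hactm c).1 hc).1), if_pos hc]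
  have hr1a : ∀ c ∈ act, r1 c = ra c := fun c hc => by
    rw [hr1]; simp only; rw [if_neg (hbne c ((hactm c).1 hc).1), if_pos hc]
  have hR1o : ∀ c ∈ cl s.i T, c ∉ act → R1 c = s.R T c := fun c hc hca => by
    rw [hR1]; simp only; rw [if_neg (hbne c hc), if_neg hca]
  have hr1o : ∀ c ∈ cl s.i T, c ∉ act → r1 c = s.r T c := fun c hc hca => by
    rw [hr1]; simp only; rw [if_neg (hbne c hc), if_neg hca]
  have hcase : ∀ c ∈ cl s.i (T + 1), c ∈ cl s.i T ∨ ∃ c0 ∈ act, c = (T + 1) :: c0 := by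
    intro c hc
    rcases mem_cl_succ.1 hc with h1 | ⟨c0, h1, h2, h3⟩
    · exact Or.inl h1
    · exact Or.inr ⟨c0, (hactm c0).2 ⟨h1, h2⟩, h3⟩
  have hR1le : ∀ c ∈ cl s.i T, R1 c ≤ s.R T c ∧ r1 c ≤ s.r T c := by
    intro c hc
    by_cases hca : c ∈ act
    · rw [hR1a c hca, hr1a c hca]; exact ⟨hRa2 c hca, hRa8 c hca⟩
    · rw [hR1o c hc hca, hr1o c hc hca]; exact ⟨le_rfl, le_rfl⟩
  have hr1pos : ∀ c ∈ cl s.i (T + 1), 0 < r1 c ∧ r1 c ≤ R1 c / 4 := by
    intro c hc
    rcases hcase c hc with hc | ⟨c0, hc0, rfl⟩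
    · by_cases hca : c ∈ act
      · rw [hR1a c hca, hr1a c hca]; exact ⟨hRa5 c hca, hRa6 c hca⟩
      · rw [hR1o c hc hca, hr1o c hc hca]; exact h.rpos T le_rfl c hc
    · rw [hR1n, hr1n]; exact ⟨hRn4 c0 hc0, hRn5 c0 hc0⟩
  -- the small number
  obtain ⟨η', hη0, hη1, hη2, hη3, hη4⟩ : ∃ η' > 0, η' ≤ s.η T / 2 ∧
      (∀ c ∈ cl s.i (T + 1), 16 * η' ≤ r1 c) ∧ 1200 * η' ≤ (9 / 10) ^ (T + 1) * g' ∧
      14 * η' ≤ (1 / 2) ^ (T + 1) := by
    obtain ⟨m, hm, hm1⟩ := exists_pos_le (cl s.i (T + 1)) r1 (fun c hc => (hr1pos c hc).1)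
    have h1 := h.ηpos T le_rfl
    have h2 : 0 < min (min (s.η T / 2) (m / 16))
        (min ((9 / 10) ^ (T + 1) * g' / 1200) ((1 / 2) ^ (T + 1) / 14)) :=
      lt_min (lt_min (by positivity) (by positivity)) (lt_min (by positivity) (by positivity))
    refine ⟨_, h2, (min_le_left _ _).trans (min_le_left _ _), fun c hc => ?_, ?_, ?_⟩
    · have h3 : min (min (s.η T / 2) (m / 16))
        (min ((9 / 10) ^ (T + 1) * g' / 1200) ((1 / 2) ^ (T + 1) / 14)) ≤ m / 16 :=
        (min_le_left _ _).trans (min_le_right _ _)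
      have := hm1 c hc
      linarith
    · have h3 : min (min (s.η T / 2) (m / 16))
        (min ((9 / 10) ^ (T + 1) * g' / 1200) ((1 / 2) ^ (T + 1) / 14)) ≤
          (9 / 10) ^ (T + 1) * g' / 1200 :=
        (min_le_right _ _).trans (min_le_left _ _)
      linarith
    · have h3 : min (min (s.η T / 2) (m / 16))
        (min ((9 / 10) ^ (T + 1) * g' / 1200) ((1 / 2) ^ (T + 1) / 14)) ≤
          (1 / 2) ^ (T + 1) / 14 :=
        (min_le_right _ _).trans (min_le_right _ _)
      linarith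
  obtain ⟨P, hP⟩ := hENet η' hη0
  -- the new state
  obtain ⟨s', hs'⟩ : ∃ s' : Geo X, s' = {
    i := fun b => if b = T + 1 then s.i T + P.card + 3 else s.i b
    g := fun b => if b = T + 1 then g' else s.g b
    η := fun b => if b = T + 1 then η' else s.η b
    ξ := fun b => if b = T + 1 then fun k => P.toList.getD k (s.y []) else s.ξ b
    U := fun b => if b = T + 1 then U1 else s.U b
    y := fun c => if birth c = T + 1 then Y c.tail else s.y c
    v := fun c => if birth c = T + 1 then V c.tail else s.v c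
    R := fun b => if b = T + 1 then R1 else s.R b
    r := fun b => if b = T + 1 then r1 else s.r b } := ⟨_, rfl⟩
  have hagr : Agr s s' T := by
    have hne : ∀ b ≤ T, ¬ b = T + 1 := fun b hb => by omega
    subst hs'
    exact ⟨fun b hb => if_neg (hne b hb), fun b hb => if_neg (hne b hb),
      fun b hb => if_neg (hne b hb), fun b hb => if_neg (hne b hb), fun b hb => if_neg (hne b hb),
      fun c hb => if_neg (hne _ hb), fun c hb => if_neg (hne _ hb), fun b hb => if_neg (hne b hb),
      fun b hb => if_neg (hne b hb)⟩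
  have hi1 : s'.i (T + 1) = s.i T + P.card + 3 := by rw [hs']; exact if_pos rfl
  have hgn : s'.g (T + 1) = g' := by rw [hs']; exact if_pos rfl
  have hηn : s'.η (T + 1) = η' := by rw [hs']; exact if_pos rfl
  have hξn : s'.ξ (T + 1) = fun k => P.toList.getD k (s.y []) := by rw [hs']; exact if_pos rfl
  have hUn : s'.U (T + 1) = U1 := by rw [hs']; exact if_pos rfl
  have hyn : ∀ c, s'.y ((T + 1) :: c) = Y c := fun c => by rw [hs']; exact if_pos rfl
  have hvn : ∀ c, s'.v ((T + 1) :: c) = V c := fun c => by rw [hs']; exact if_pos rfl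
  have hRn' : s'.R (T + 1) = R1 := by rw [hs']; exact if_pos rfl
  have hrn' : s'.r (T + 1) = r1 := by rw [hs']; exact if_pos rfl
  clear hs'
  have hcl : ∀ t ≤ T + 1, cl s'.i t = cl s.i t := fun t ht => hagr.cl ht
  have hyo : ∀ c ∈ cl s.i T, s'.y c = s.y c := fun c hc => hagr.y c (birth_le hc)
  have hvo : ∀ c ∈ cl s.i T, s'.v c = s.v c := fun c hc => hagr.v c (birth_le hc)
  have hsplit : ∀ t ≤ T + 1, t ≤ T ∨ t = T + 1 := fun t ht => by omega
  have hmemn : ∀ c ∈ act, (T + 1) :: c ∈ cl s.i (T + 1) := fun c hc =>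
    mem_cons ((hactm c).1 hc).1 ((hactm c).1 hc).2
  have hDE : Dt s' (T + 1) = E := by
    funext a b
    rw [hE]
    unfold Dt
    rw [hcl (T + 1) le_rfl]
    have h1 : cl s.i (T + 1) = cl s.i T ∪ act.image (fun c => (T + 1) :: c) := by
      rw [hact]; rfl
    rw [h1, Finset.sum_union, Finset.sum_image]
    · refine congrArg₂ _ (Finset.sum_congr rfl fun c hc => ?_) (Finset.sum_congr rfl fun c hc => ?_)
      · rw [hagr.hh (birth_le hc), hvo c hc]
      · rw [hvn c]
        unfold hh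
        rw [birth_cons, hgn, List.length_cons]
    · intro a _ b _ hab
      exact (List.cons.inj hab).2
    · rw [Finset.disjoint_left]
      intro c hc hc'
      obtain ⟨c0, -, h3⟩ := Finset.mem_image.1 hc'
      have h4 := birth_le hc
      rw [← h3] at h4
      simp only [birth_cons] at h4
      omega
  have hGI : GInv Q s' (T + 1) := by
    refine
    { i0 := by rw [hagr.i 0 (Nat.zero_le _)]; exact h.i0
      is := ?_
      gpos := ?_
      g1 := ?_
      gdec := ?_
      glow := ?_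
      gup := ?_
      vc := ?_
      v0 := ?_
      v1 := ?_
      vo := ?_
      vy := ?_
      vy0 := ?_
      vcon := ?_
      rpos := ?_
      rmono := ?_
      rinact := ?_
      Rb := ?_
      Ra := ?_
      cc := ?_
      nest := ?_
      Qd := h.Qd
      UQ := ?_
      Um := ?_
      net := ?_
      ηpos := ?_
      ηr := ?_
      ηg := ?_
      η2 := ?_
      ηm := ?_
      ξ := ?_ }
    · -- is
      intro t ht
      rcases (Nat.lt_succ_iff.1 ht).lt_or_eq with h1 | h1
      · rw [hagr.i t (by omega), hagr.i (t + 1) (by omega)]; exact h.is t h1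
      · subst h1; rw [hagr.i t le_rfl, hi1]; omega
    · -- gpos
      intro t ht
      rcases hsplit t ht with h1 | rfl
      · rw [hagr.g t h1]; exact h.gpos t h1
      · rw [hgn]; exact hg0
    · -- g1
      intro t ht
      rcases hsplit t ht with h1 | rfl
      · rw [hagr.g t h1]; exact h.g1 t h1
      · rw [hgn]; have := h.g1 T le_rfl; linarith
    · -- gdec
      intro t ht
      rcases (Nat.lt_succ_iff.1 ht).lt_or_eq with h1 | h1
      · rw [hagr.g t (by omega), hagr.g (t + 1) (by omega)]; exact h.gdec t h1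
      · subst h1; rw [hagr.g t le_rfl, hgn]; exact hg1
    · -- glow
      intro t ht b hb hti
      rcases hsplit t ht with h1 | rfl
      · rcases (Nat.lt_succ_iff.1 hb).lt_or_eq with h2 | h2
        · rw [hagr.i (b + 1) (by omega)] at hti
          rw [hagr.g b (by omega), hagr.g t h1]
          exact h.glow t h1 b h2 hti
        · subst h2
          rw [hagr.g b le_rfl, hagr.g t h1]
          have h3 := h.g_anti h1 le_rfl
          have h4 := h.gpos b le_rfl
          linarith
      · rcases (Nat.lt_succ_iff.1 hb).lt_or_eq with h2 | h2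
        · rw [hagr.i (b + 1) (by omega)] at hti
          rw [hagr.g b (by omega), hgn]
          have h3 : β ≤ b := by
            by_contra hcon
            have h4 := h.i_mono (show b + 1 ≤ β by omega) hβT
            omega
          have h4 := h.g_anti h3 h2.le
          linarith
        · subst h2
          rw [hagr.g b le_rfl, hgn]; exact hg4
    · -- gup
      intro t ht b hb hbt
      rcases hsplit b hb with h2 | rfl
      · rw [hagr.i b h2] at hbt
        rw [hagr.g b h2]
        rcases hsplit t ht with h1 | rfl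
        · rw [hagr.g t h1]; exact h.gup t h1 b h2 hbt
        · rw [hgn]
          have h3 : b ≤ β := by
            by_contra hcon
            have := hβ2 b (by omega) h2
            omega
          have h4 := h.g_anti h3 hβT
          linarith
      · exfalso
        rw [hi1] at hbt
        have := h.i_lt (b := T) le_rfl
        omega
    · -- vc
      intro c hc
      rw [hcl _ le_rfl] at hc
      rcases hcase c hc with hc | ⟨c0, hc0, rfl⟩
      · rw [hvo c hc]; exact h.vc c hc
      · rw [hvn]; exact hY1 c0 hc0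
    · -- v0
      intro c hc x
      rw [hcl _ le_rfl] at hc
      rcases hcase c hc with hc | ⟨c0, hc0, rfl⟩
      · rw [hvo c hc]; exact h.v0 c hc x
      · rw [hvn]; exact (hY2 c0 hc0 x).1
    · -- v1
      intro c hc x
      rw [hcl _ le_rfl] at hc
      rcases hcase c hc with hc | ⟨c0, hc0, rfl⟩
      · rw [hvo c hc]; exact h.v1 c hc x
      · rw [hvn]; exact (hY2 c0 hc0 x).2
    · -- vo
      intro x
      rw [hvo [] (nil_mem _)]; exact h.vo x
    · -- vy
      intro c hc
      rw [hcl _ le_rfl] at hc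
      rcases hcase c hc with hc | ⟨c0, hc0, rfl⟩
      · rw [hvo c hc, hyo c hc]; exact h.vy c hc
      · rw [hvn, hyn]; exact hYself c0 hc0
    · -- vy0
      intro c hc c' hc' hne hb
      rw [hcl _ le_rfl] at hc hc'
      rcases hcase c' hc' with hc'' | ⟨c0', hc0', rfl⟩
      · have hcT : c ∈ cl s.i T := mem_of_birth_le hc (hb.trans (birth_le hc''))
        rw [hvo c' hc'', hyo c hcT]; exact h.vy0 c hcT c' hc'' hne hb
      · rw [hvn]
        rcases hcase c hc with hcT | ⟨c0, hc0, rfl⟩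
        · rw [hyo c hcT]
          by_cases hcc : c0' = c
          · subst hcc
            exact hRa4 c0' hc0' _ (by rw [dist_self]; exact hRa1 c0' hc0')
          · exact hzero c0' hc0' c hcT hcc _ (by
              rw [dist_self]; exact h.R_pos le_rfl hcT)
        · rw [hyn]
          have hcc : c0' ≠ c0 := fun heq => hne (by rw [heq])
          exact hzero c0' hc0' c0 ((hactm c0).1 hc0).1 hcc _
            (hYR c0 hc0 _ (by rw [dist_self]; exact (hRn1 c0 hc0).le))
    · -- vcon
      intro t ht c hc c' hc' x hx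
      rcases hsplit t ht with h1 | rfl
      · rw [hcl t (by omega)] at hc hc'
        rw [hagr.R t h1, hyo c (cl_mono_le h1 hc)] at hx
        rw [hvo c' (cl_mono_le h1 hc'), hyo c (cl_mono_le h1 hc)]
        exact h.vcon t h1 c hc c' hc' x hx
      · rw [hcl _ le_rfl] at hc hc'
        rw [hRn'] at hx
        rcases hcase c hc with hcT | ⟨c0, hc0, rfl⟩
        · rw [hyo c hcT] at hx ⊢
          have hx' : dist x (s.y c) < s.R T c := hx.trans_le (hR1le c hcT).1
          rcases hcase c' hc' with hcT' | ⟨c0', hc0', rfl⟩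
          · rw [hvo c' hcT']; exact h.vcon T le_rfl c hcT c' hcT' x hx'
          · rw [hvn]
            by_cases hcc : c0' = c
            · subst hcc
              rw [hR1a c0' hc0'] at hx
              rw [hRa4 c0' hc0' x hx,
                hRa4 c0' hc0' _ (by rw [dist_self]; exact hRa1 c0' hc0')]
            · rw [hzero c0' hc0' c hcT hcc x hx', hzero c0' hc0' c hcT hcc _ (by
                rw [dist_self]; exact h.R_pos le_rfl hcT)]
        · rw [hyn, hR1n] at hx
          rw [hyn]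
          have hx1 := hYR c0 hc0 x hx.le
          have hx2 := hYR c0 hc0 (Y c0) (by rw [dist_self]; exact (hRn1 c0 hc0).le)
          have hc0T := ((hactm c0).1 hc0).1
          rcases hcase c' hc' with hcT' | ⟨c0', hc0', rfl⟩
          · rw [hvo c' hcT', h.vcon T le_rfl c0 hc0T c' hcT' x hx1,
              h.vcon T le_rfl c0 hc0T c' hcT' _ hx2]
          · rw [hvn]
            by_cases hcc : c0' = c0
            · subst hcc
              rw [hRn3 c0' hc0' x hx.le, hYself c0' hc0']
            · rw [hzero c0' hc0' c0 hc0T hcc x hx1, hzero c0' hc0' c0 hc0T hcc _ hx2]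
    · -- rpos
      intro t ht c hc
      rcases hsplit t ht with h1 | rfl
      · rw [hcl t (by omega)] at hc
        rw [hagr.r t h1, hagr.R t h1]; exact h.rpos t h1 c hc
      · rw [hcl _ le_rfl] at hc
        rw [hrn', hRn']; exact hr1pos c hc
    · -- rmono
      intro t ht c hc
      rw [hcl t (by omega)] at hc
      rcases (Nat.lt_succ_iff.1 ht).lt_or_eq with h1 | h1
      · rw [hagr.r t (by omega), hagr.R t (by omega), hagr.r (t + 1) (by omega),
          hagr.R (t + 1) (by omega)]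
        exact h.rmono t h1 c hc
      · subst h1
        rw [hagr.r t le_rfl, hagr.R t le_rfl, hrn', hRn']
        exact ⟨(hR1le c hc).2, (hR1le c hc).1⟩
    · -- rinact
      intro t ht c hc hin
      rw [hcl t (by omega)] at hc
      have hbc := birth_le hc
      rw [hagr.i _ (by omega)] at hin
      rcases (Nat.lt_succ_iff.1 ht).lt_or_eq with h1 | h1
      · rw [hagr.r t (by omega), hagr.r (t + 1) (by omega)]
        exact h.rinact t h1 c hc hin
      · subst h1
        rw [hagr.r t le_rfl, hrn']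
        exact hr1o c hc (fun hca => by have := ((hactm c).1 hca).2; omega)
    · -- Rb
      intro t ht c hc hb
      rcases hsplit t ht with h1 | rfl
      · rw [hcl t (by omega)] at hc
        rw [hagr.R t h1]; exact h.Rb t h1 c hc hb
      · rw [hcl _ le_rfl] at hc
        rw [hRn']
        rcases hcase c hc with hcT | ⟨c0, hc0, rfl⟩
        · exact (hR1le c hcT).1.trans (h.Rb T le_rfl c hcT hb)
        · rw [hR1n, birth_cons]; exact hRn2 c0 hc0
    · -- Ra
      intro t ht c hc hb
      rcases hsplit t ht with h1 | rfl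
      · rw [hcl t (by omega)] at hc
        have hbc := birth_le hc
        rw [hagr.i _ (by omega)] at hb
        rw [hagr.R t h1]; exact h.Ra t h1 c hc hb
      · rw [hcl _ le_rfl] at hc
        rw [hRn']
        rcases hcase c hc with hcT | ⟨c0, hc0, rfl⟩
        · rw [hagr.i _ (birth_le hcT)] at hb
          have hca : c ∈ act := (hactm c).2 ⟨hcT, hb⟩
          rw [hR1a c hca]; exact hRa3 c hca
        · rw [hR1n]; exact hRn2 c0 hc0
    · -- cc
      intro c hc
      rw [hcl _ le_rfl] at hc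
      rw [hrn', hRn']
      rcases hcase c hc with hcT | ⟨c0, hc0, rfl⟩
      · rw [hyo c hcT]
        by_cases hca : c ∈ act
        · rw [hR1a c hca, hr1a c hca]; exact hRa7 c hca
        · rw [hR1o c hcT hca, hr1o c hcT hca]; exact h.cc c hcT
      · rw [hyn, hR1n, hr1n]; exact hRn6 c0 hc0
    · -- nest
      intro u c hc x hx
      rw [hcl _ le_rfl] at hc
      obtain ⟨hu1, hu2, hu3, hu4⟩ := cons_mem hc
      have hcT : c ∈ cl s.i T := cl_mono_le (by omega) hu3
      rw [hyo c hcT, hagr.r (u - 1) (by omega)]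
      rcases hcase _ hc with hcT' | ⟨c0, hc0, heq⟩
      · have hbu := birth_le hcT'
        rw [birth_cons] at hbu
        rw [hvo _ hcT', hyo _ hcT', hagr.R u hbu] at hx
        exact h.nest u c hcT' x hx
      · obtain ⟨rfl, rfl⟩ := List.cons.inj heq
        rw [hvn, hyn, hRn', hR1n] at hx
        rw [Nat.add_sub_cancel]
        rcases hx with hx | hx
        · exact hY3 c hc0 x hx
        · exact hYd c hc0 x hx
    · -- UQ
      intro t ht
      rcases hsplit t ht with h1 | rfl
      · rw [hagr.U t h1]; exact h.UQ t h1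
      · rw [hUn, hU1]
        exact subset_inter (h.UQ T le_rfl) (subset_iInter₂ hY7)
    · -- Um
      intro t ht
      rcases (Nat.lt_succ_iff.1 ht).lt_or_eq with h1 | h1
      · rw [hagr.U t (by omega), hagr.U (t + 1) (by omega)]; exact h.Um t h1
      · subst h1; rw [hagr.U t le_rfl, hUn, hU1]; exact inter_subset_left
    · -- net
      rw [hDE, hUn]; exact hENet
    · -- ηpos
      intro t ht
      rcases hsplit t ht with h1 | rfl
      · rw [hagr.η t h1]; exact h.ηpos t h1
      · rw [hηn]; exact hη0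
    · -- ηr
      intro t ht c hc
      rcases hsplit t ht with h1 | rfl
      · rw [hcl t (by omega)] at hc
        rw [hagr.η t h1, hagr.r t h1]; exact h.ηr t h1 c hc
      · rw [hcl _ le_rfl] at hc
        rw [hηn, hrn']; exact hη2 c hc
    · -- ηg
      intro t ht
      rcases hsplit t ht with h1 | rfl
      · rw [hagr.η t h1, hagr.g t h1]; exact h.ηg t h1
      · rw [hηn, hgn]; exact hη3
    · -- η2
      intro t ht
      rcases hsplit t ht with h1 | rfl
      · rw [hagr.η t h1]; exact h.η2 t h1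
      · rw [hηn]; exact hη4
    · -- ηm
      intro t ht
      rcases (Nat.lt_succ_iff.1 ht).lt_or_eq with h1 | h1
      · rw [hagr.η t (by omega), hagr.η (t + 1) (by omega)]; exact h.ηm t h1
      · subst h1; rw [hagr.η t le_rfl, hηn]; exact hη1
    · -- ξ
      intro t ht x hx
      rcases (Nat.succ_le_succ_iff.1 ht).lt_or_eq with h1 | h1
      · rw [hagr.U (t + 1) (by omega)] at hx
        rw [hagr.i t (by omega), hagr.i (t + 1) (by omega), hagr.η (t + 1) (by omega),
          hagr.ξ (t + 1) (by omega), hagr.Dt (t := t + 1) (by omega)]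
        exact h.ξ t (by omega) x hx
      · subst h1
        rw [hUn] at hx
        obtain ⟨p, hp, hpx⟩ := hP x hx
        obtain ⟨k, hk, hkp⟩ := List.getElem_of_mem (Finset.mem_toList.2 hp)
        refine ⟨k, ?_, ?_⟩
        · rw [hagr.i t le_rfl, hi1]
          rw [Finset.length_toList] at hk
          omega
        · rw [hDE, hηn, hξn]
          simp only [List.getD_eq_getElem _ _ hk, hkp]
          exact hpx
  have hκ : ∀ c : List ℕ, (9 / 10 : ℝ) ^ (c.length + 1) * g' * (1 + (s.g T - g') / (2 * g')) =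
      (9 / 10) ^ (c.length + 1) * ((s.g T + g') / 2) := by
    intro c
    field_simp
    ring
  have hEloc : ∀ c ∈ act, ∀ a ∈ Metric.ball (s.y c) (s.R T c),
      ∀ b ∈ Metric.ball (s.y c) (s.R T c), ∀ L,
      |V c a - V c b| ≤ (1 + (s.g T - g') / (2 * g')) * L →
      E a b ≤ (9 / 10) ^ (c.length + 1) * ((s.g T + g') / 2) * L := by
    intro c hc a ha b hb L hL
    rw [Metric.mem_ball] at ha hb
    have hcT := ((hactm c).1 hc).1
    rw [hE]
    simp only
    rw [hDzero c hcT a b ha hb, zero_add, Finset.sum_eq_single_of_mem c hc, ← hκ c, mul_assoc _ _ L]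
    · exact mul_le_mul_of_nonneg_left hL (by positivity)
    · intro c' hc' hne
      rw [hzero c' hc' c hcT hne a ha, hzero c' hc' c hcT hne b hb, sub_self, abs_zero, mul_zero]
  refine ⟨s', hagr, hGI, ⟨?_, ?_⟩, ?_⟩
  · intro c hc hic
    rw [hcl T (by omega)] at hc
    rw [hagr.i _ (birth_le hc)] at hic
    have hca : c ∈ act := (hactm c).2 ⟨hc, hic⟩
    rw [hDE, hagr.g T le_rfl, hgn, hyo c hc, hagr.R T le_rfl, hyn]
    exact PathIn.mono_e (hY10 c hca) (hEloc c hca)
  · intro c hc hic x hx hxr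
    rw [hcl T (by omega)] at hc
    rw [hagr.i _ (birth_le hc)] at hic
    have hca : c ∈ act := (hactm c).2 ⟨hc, hic⟩
    rw [hUn, hU1] at hx
    rw [hyo c hc, hagr.r T le_rfl] at hxr
    rw [hDE, hagr.g T le_rfl, hgn, hyo c hc, hagr.R T le_rfl, hyn]
    exact PathIn.mono_e (hY11 c hca x (mem_iInter₂.1 hx.2 c hca) hxr) (hEloc c hca)
  · intro c hc hic x hx
    rw [hvn]
    exact hY6 c ((hactm c).2 ⟨hc, hic⟩) x hx

end Pool.Agent.W618.IFS
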