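import Mathlib
import Pool.Agent.H764R3.TopFractal

/-!
# Weakly contracting systems are topological IFS-attractors
-/

open Set Topology Filter

namespace Pool.Agent.W618.IFS

open Pool.Agent.H764R3.TopFractal

/-- If the finitely many maps `f j` strictly decrease a continuous function `D` at all pairs where
it is positive, and identify all pairs where it vanishes, then they form a topological IFS. -/
theorem attractor_of_weak {X ι : Type*} [MetricSpace X] [CompactSpace X] [Finite ι] [Nonempty X]
    (f : ι → X → X) (hf : ∀ j, Continuous (f j)) (hcov : ∀ x, ∃ j y, f j y = x)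
    (D : X → X → ℝ) (hD : Continuous (fun p : X × X => D p.1 p.2))
    (hD0 : ∀ x y, 0 ≤ D x y) (hDd : ∀ x, D x x = 0)
    (hs : ∀ j x y, 0 < D x y → D (f j x) (f j y) < D x y)
    (hz : ∀ j x y, D x y = 0 → f j x = f j y) :
    IsTopologicalIFSAttractor X := by
  classical
  -- upper bound for D
  obtain ⟨M, hM⟩ : ∃ M, ∀ x y, D x y ≤ M := by
    obtain ⟨p, -, hp⟩ := isCompact_univ.exists_isMaxOn (s := (univ : Set (X × X))) univ_nonempty
      hD.continuousOn
    exact ⟨D p.1 p.2, fun x y => hp (mem_univ (x, y))⟩
  have hη : ∀ η > 0, ∃ δ > 0, ∀ j x y, D (f j x) (f j y) < η ∨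
      D (f j x) (f j y) ≤ D x y - δ := by
    intro η hη
    have h1 : ∀ j, ∃ δ > 0, ∀ x y, D (f j x) (f j y) < η ∨ D (f j x) (f j y) ≤ D x y - δ := by
      intro j
      have hc : IsClosed {p : X × X | η ≤ D p.1 p.2} := isClosed_le continuous_const hD
      have hg : Continuous (fun p : X × X => D p.1 p.2 - D (f j p.1) (f j p.2)) := by
        have h2 : Continuous (fun p : X × X => D (f j p.1) (f j p.2)) :=
          hD.comp (((hf j).comp continuous_fst).prodMk ((hf j).comp continuous_snd))
        exact hD.sub h2
      rcases ({p : X × X | η ≤ D p.1 p.2}).eq_empty_or_nonempty with he | hne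
      · refine ⟨1, one_pos, fun x y => Or.inl ?_⟩
        have h3 : D x y < η := by
          by_contra h
          have : (x, y) ∈ {p : X × X | η ≤ D p.1 p.2} := not_lt.1 h
          rw [he] at this
          exact this
        rcases (hD0 x y).eq_or_lt with h4 | h4
        · rw [hz j x y h4.symm, hDd]; exact hη
        · exact (hs j x y h4).trans h3
      · obtain ⟨p, hp, hpm⟩ := hc.isCompact.exists_isMinOn hne hg.continuousOn
        have hp' : η ≤ D p.1 p.2 := hp
        refine ⟨D p.1 p.2 - D (f j p.1) (f j p.2), sub_pos.2 (hs j _ _ (hη.trans_le hp')),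
          fun x y => ?_⟩
        rcases lt_or_ge (D x y) η with h3 | h3
        · left
          rcases (hD0 x y).eq_or_lt with h4 | h4
          · rw [hz j x y h4.symm, hDd]; exact hη
          · exact (hs j x y h4).trans h3
        · right
          have h5 : D p.1 p.2 - D (f j p.1) (f j p.2) ≤ D x y - D (f j x) (f j y) :=
            hpm (show (x, y) ∈ {p : X × X | η ≤ D p.1 p.2} from h3)
          linarith
    choose δ hδ0 hδ using h1
    rcases isEmpty_or_nonempty ι with hi | hi
    · exact ⟨1, one_pos, fun j => (hi.false j).elim⟩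
    · obtain ⟨j0, hj0⟩ := Finite.exists_min δ
      refine ⟨δ j0, hδ0 j0, fun j x y => ?_⟩
      rcases hδ j x y with h | h
      · exact Or.inl h
      · right
        have := hj0 j
        linarith
  have hlm : ∀ lam > 0, ∃ η > 0, ∀ j x y, D x y < η → dist (f j x) (f j y) < lam := by
    intro lam hlam
    have h1 : ∀ j, ∃ η > 0, ∀ x y, D x y < η → dist (f j x) (f j y) < lam := by
      intro j
      have hg : Continuous (fun p : X × X => dist (f j p.1) (f j p.2)) := by fun_prop
      have hc : IsClosed {p : X × X | lam ≤ dist (f j p.1) (f j p.2)} :=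
        isClosed_le continuous_const hg
      rcases ({p : X × X | lam ≤ dist (f j p.1) (f j p.2)}).eq_empty_or_nonempty with he | hne
      · refine ⟨1, one_pos, fun x y _ => ?_⟩
        by_contra h
        have : (x, y) ∈ {p : X × X | lam ≤ dist (f j p.1) (f j p.2)} := not_lt.1 h
        rw [he] at this
        exact this
      · obtain ⟨p, hp, hpm⟩ := hc.isCompact.exists_isMinOn hne hD.continuousOn
        have hp' : lam ≤ dist (f j p.1) (f j p.2) := hp
        refine ⟨D p.1 p.2, ?_, fun x y hxy => ?_⟩
        · rcases (hD0 p.1 p.2).eq_or_lt with h4 | h4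
          · rw [hz j _ _ h4.symm, dist_self] at hp'
            exact absurd hlam (not_lt.2 hp')
          · exact h4
        · by_contra h
          have h5 : D p.1 p.2 ≤ D x y :=
            hpm (show (x, y) ∈ {p : X × X | lam ≤ dist (f j p.1) (f j p.2)} from not_lt.1 h)
          linarith
    choose δ hδ0 hδ using h1
    rcases isEmpty_or_nonempty ι with hi | hi
    · exact ⟨1, one_pos, fun j => (hi.false j).elim⟩
    · obtain ⟨j0, hj0⟩ := Finite.exists_min δ
      exact ⟨δ j0, hδ0 j0, fun j x y h => hδ j x y (h.trans_le (hj0 j))⟩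
  refine ⟨inferInstance, range f, finite_range f, ?_, ?_, ?_⟩
  · rintro _ ⟨j, rfl⟩; exact hf j
  · refine eq_univ_of_forall fun x => ?_
    obtain ⟨j, y, h⟩ := hcov x
    exact mem_iUnion₂.2 ⟨f j, ⟨j, rfl⟩, y, h⟩
  · intro 𝒰 hUo hUc
    obtain ⟨lam, hlam, hball⟩ := lebesgue_number_lemma_of_metric_sUnion (s := (univ : Set X))
      (c := 𝒰) isCompact_univ hUo (by rw [hUc])
    obtain ⟨η, hη0, hη1⟩ := hlm lam hlam
    obtain ⟨δ, hδ0, hδ1⟩ := hη η hη0
    obtain ⟨n, hn⟩ := exists_nat_gt (M / δ)
    have hword : ∀ l : List (X → X), (∀ g ∈ l, g ∈ range f) → ∀ x y : X,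
        D (l.foldr (fun f g => f ∘ g) id x) (l.foldr (fun f g => f ∘ g) id y) < η ∨
        D (l.foldr (fun f g => f ∘ g) id x) (l.foldr (fun f g => f ∘ g) id y) ≤
          M - l.length * δ := by
      intro l
      induction l with
      | nil => intro _ x y; right; simpa using hM x y
      | cons g l ih =>
        intro hl x y
        obtain ⟨j, rfl⟩ := hl g (by simp)
        have h1 := ih (fun f hf => hl f (by simp [hf])) x y
        simp only [List.foldr_cons, Function.comp_apply, List.length_cons]
        set a := l.foldr (fun f g => f ∘ g) id x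
        set b := l.foldr (fun f g => f ∘ g) id y
        rcases h1 with h1 | h1
        · left
          rcases (hD0 a b).eq_or_lt with h4 | h4
          · rw [hz j a b h4.symm, hDd]; exact hη0
          · exact (hs j a b h4).trans h1
        · rcases hδ1 j a b with h2 | h2
          · exact Or.inl h2
          · right
            push_cast
            linarith
    refine ⟨n + 1, fun l hl hlF => ?_⟩
    obtain _ | ⟨g, l⟩ := l
    · simp at hl
    · obtain ⟨j, rfl⟩ := hlF g (by simp)
      simp only [List.length_cons, Nat.add_right_cancel_iff] at hl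
      have hlF' : ∀ g ∈ l, g ∈ range f := fun g hg => hlF g (by simp [hg])
      have hsmall : ∀ x y : X, D (l.foldr (fun f g => f ∘ g) id x)
          (l.foldr (fun f g => f ∘ g) id y) < η := by
        intro x y
        rcases hword l hlF' x y with h | h
        · exact h
        · exfalso
          rw [hl] at h
          have h1 : M < n * δ := by rwa [div_lt_iff₀ hδ0] at hn
          have := hD0 (l.foldr (fun f g => f ∘ g) id x) (l.foldr (fun f g => f ∘ g) id y)
          linarith
      obtain ⟨x0⟩ := ‹Nonempty X›
      obtain ⟨U, hU, hUb⟩ := hball (f j (l.foldr (fun f g => f ∘ g) id x0)) (mem_univ _)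
      refine ⟨U, hU, ?_⟩
      rintro _ ⟨y, rfl⟩
      apply hUb
      simp only [List.foldr_cons, Function.comp_apply]
      exact hη1 j _ _ (hsmall y x0)

end Pool.Agent.W618.IFS
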