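import Mathlib
import Pool.Agent.W618.IFS.Weak

/-!
# Systems of nested cells and the maps they carry
-/

open Set Topology Filter

namespace Pool.Agent.W618.IFS

/-- A growing system of cells with bump functions. -/
structure CellSys (X : Type*) [MetricSpace X] (α : Type*) [DecidableEq α] where
  cells : ℕ → Finset α
  o : α
  par : α → α
  dep : α → ℕ
  y : α → X
  v : α → X → ℝ
  h : α → ℝ
  θ : ℝ
  mono : ∀ T, cells T ⊆ cells (T + 1)
  zero : cells 0 = {o}
  θ0 : 0 < θ
  θ1 : θ < 1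
  vcont : ∀ T, ∀ c ∈ cells T, Continuous (v c)
  v0 : ∀ T, ∀ c ∈ cells T, ∀ x, 0 ≤ v c x
  v1 : ∀ T, ∀ c ∈ cells T, ∀ x, v c x ≤ 1
  vo : ∀ x, v o x = 1
  h0 : ∀ T, ∀ c ∈ cells T, 0 < h c
  par_mem : ∀ T, ∀ c ∈ cells (T + 1), c ∉ cells T → par c ∈ cells T
  dep_par : ∀ T, ∀ c ∈ cells (T + 1), c ∉ cells T → dep c = dep (par c) + 1
  hθ : ∀ T, ∀ c ∈ cells T, h c ≤ θ ^ dep c
  hlim : ∀ ε > 0, ∃ T, ∀ T', ∀ c ∈ cells T', c ∉ cells T → h c ≤ ε
  B1 : ∀ T, ∀ c ∈ cells (T + 1), c ∉ cells T → ∀ x, 0 < v c x →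
    ∀ c' ∈ cells T, v c' x = v c' (y (par c))
  B2 : ∀ T, ∀ c ∈ cells (T + 1), c ∉ cells T → ∀ p ∈ cells T, v c (y p) = 0
  B3 : ∀ T, ∀ c ∈ cells (T + 1), c ∉ cells T → ∀ c' ∈ cells (T + 1), c' ∉ cells T → c ≠ c' →
    ∀ x, 0 < v c x → v c' x = 0
  B4 : ∀ T, ∀ c ∈ cells (T + 1), c ∉ cells T → v c (y c) = 1

namespace CellSys

variable {X : Type*} [MetricSpace X] {α : Type*} [DecidableEq α] (S : CellSys X α)

/-- The pseudo-metric of the cells born up to time `T`. -/
noncomputable def ρ (T : ℕ) (x x' : X) : ℝ := ∑ c ∈ S.cells T, S.h c * |S.v c x - S.v c x'|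

theorem mono_le {a b : ℕ} (h : a ≤ b) : S.cells a ⊆ S.cells b := by
  induction h with
  | refl => exact Finset.Subset.refl _
  | step _ ih => exact ih.trans (S.mono _)

theorem o_mem (T : ℕ) : S.o ∈ S.cells T :=
  S.mono_le (Nat.zero_le T) (by rw [S.zero]; exact Finset.mem_singleton_self _)

theorem y_o : S.v S.o (S.y S.o) = 1 := S.vo _

theorem ρ_nonneg (T : ℕ) (x x' : X) : 0 ≤ S.ρ T x x' :=
  Finset.sum_nonneg fun c hc => mul_nonneg (S.h0 T c hc).le (abs_nonneg _)

theorem ρ_self (T : ℕ) (x : X) : S.ρ T x x = 0 := by simp [ρ]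

theorem ρ_comm (T : ℕ) (x x' : X) : S.ρ T x x' = S.ρ T x' x := by
  unfold ρ
  exact Finset.sum_congr rfl fun c _ => by rw [abs_sub_comm]

theorem ρ_triangle (T : ℕ) (a b c : X) : S.ρ T a c ≤ S.ρ T a b + S.ρ T b c := by
  unfold ρ
  rw [← Finset.sum_add_distrib]
  refine Finset.sum_le_sum fun e he => ?_
  rw [← mul_add]
  exact mul_le_mul_of_nonneg_left (abs_sub_le _ _ _) (S.h0 T e he).le

theorem ρ_mono {T T' : ℕ} (h : T ≤ T') (x x' : X) : S.ρ T x x' ≤ S.ρ T' x x' :=
  Finset.sum_le_sum_of_subset_of_nonneg (S.mono_le h)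
    fun c hc _ => mul_nonneg (S.h0 T' c hc).le (abs_nonneg _)

theorem ρ_cont (T : ℕ) : Continuous (fun p : X × X => S.ρ T p.1 p.2) := by
  unfold ρ
  refine continuous_finsetSum _ fun c hc => ?_
  have := S.vcont T c hc
  fun_prop

/-- every cell is `o` or is new at some time -/
theorem new_of_mem {T : ℕ} {c : α} (hc : c ∈ S.cells T) (hne : c ≠ S.o) :
    ∃ t, t < T ∧ c ∈ S.cells (t + 1) ∧ c ∉ S.cells t := by
  induction T with
  | zero => rw [S.zero, Finset.mem_singleton] at hc; exact absurd hc hne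
  | succ T ih =>
    by_cases h : c ∈ S.cells T
    · obtain ⟨t, ht, h1⟩ := ih h
      exact ⟨t, ht.trans (Nat.lt_succ_self T), h1⟩
    · exact ⟨T, Nat.lt_succ_self T, hc, h⟩

theorem ρ_tendsto (T : ℕ) {a b : ℕ → X} {x y : X} (ha : Tendsto a atTop (𝓝 x))
    (hb : Tendsto b atTop (𝓝 y)) :
    Tendsto (fun n => S.ρ T (a n) (b n)) atTop (𝓝 (S.ρ T x y)) :=
  ((S.ρ_cont T).tendsto (x, y)).comp (ha.prodMk_nhds hb)

theorem y_self {T : ℕ} {c : α} (hc : c ∈ S.cells T) : S.v c (S.y c) = 1 := by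
  by_cases h : c = S.o
  · rw [h]; exact S.vo _
  · obtain ⟨t, -, h1, h2⟩ := S.new_of_mem hc h
    exact S.B4 t c h1 h2

/-- If the bump of `c` is positive at the centre of `p` then `c` is not deeper than `p`. -/
theorem dep_of_pos {T : ℕ} {c p : α} (hc : c ∈ S.cells T) (hp : p ∈ S.cells T)
    (h : 0 < S.v c (S.y p)) : S.dep c ≤ S.dep p := by
  induction T generalizing c p with
  | zero =>
    rw [S.zero, Finset.mem_singleton] at hc hp
    rw [hc, hp]
  | succ T ih =>
    by_cases hcT : c ∈ S.cells T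
    · by_cases hpT : p ∈ S.cells T
      · exact ih hcT hpT h
      · have h1 : 0 < S.v p (S.y p) := by rw [S.B4 T p hp hpT]; exact one_pos
        have h2 := S.B1 T p hp hpT (S.y p) h1 c hcT
        rw [h2] at h
        have h3 := ih hcT (S.par_mem T p hp hpT) h
        rw [S.dep_par T p hp hpT]; omega
    · by_cases hpT : p ∈ S.cells T
      · rw [S.B2 T c hc hcT p hpT] at h
        exact absurd h (lt_irrefl _)
      · by_cases hcp : c = p
        · rw [hcp]
        · exfalso
          have h1 : 0 < S.v p (S.y p) := by rw [S.B4 T p hp hpT]; exact one_pos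
          rw [S.B3 T p hp hpT c hc hcT (Ne.symm hcp) _ h1] at h
          exact lt_irrefl _ h

/-- Distinct cells containing a point have distinct depths. -/
theorem dep_inj {T : ℕ} {c c' : α} (hc : c ∈ S.cells T) (hc' : c' ∈ S.cells T) {x : X}
    (h : 0 < S.v c x) (h' : 0 < S.v c' x) (hd : S.dep c = S.dep c') : c = c' := by
  induction T with
  | zero =>
    rw [S.zero, Finset.mem_singleton] at hc hc'
    rw [hc, hc']
  | succ T ih =>
    by_cases hcT : c ∈ S.cells T
    · by_cases hcT' : c' ∈ S.cells T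
      · exact ih hcT hcT'
      · exfalso
        have h2 := S.B1 T c' hc' hcT' x h' c hcT
        rw [h2] at h
        have h3 := S.dep_of_pos hcT (S.par_mem T c' hc' hcT') h
        rw [hd, S.dep_par T c' hc' hcT'] at h3
        omega
    · by_cases hcT' : c' ∈ S.cells T
      · exfalso
        have h2 := S.B1 T c hc hcT x h c' hcT'
        rw [h2] at h'
        have h3 := S.dep_of_pos hcT' (S.par_mem T c hc hcT) h'
        rw [← hd, S.dep_par T c hc hcT] at h3
        omega
      · by_contra hne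
        rw [S.B3 T c hc hcT c' hc' hcT' hne x h] at h'
        exact lt_irrefl _ h'

/-- Uniform smallness of the tails. -/
theorem tail_small (ε : ℝ) (hε : 0 < ε) : ∃ T, ∀ T', T ≤ T' → ∀ x,
    ∑ c ∈ S.cells T' \ S.cells T, S.h c * S.v c x ≤ ε := by
  obtain ⟨n, hn⟩ : ∃ n : ℕ, S.θ ^ n * (1 - S.θ)⁻¹ < ε / 2 := by
    have h1 : Tendsto (fun n : ℕ => S.θ ^ n * (1 - S.θ)⁻¹) atTop (𝓝 (0 * (1 - S.θ)⁻¹)) :=
      (tendsto_pow_atTop_nhds_zero_of_lt_one S.θ0.le S.θ1).mul_const _
    rw [zero_mul] at h1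
    exact ((tendsto_order.1 h1).2 (ε / 2) (half_pos hε)).exists
  obtain ⟨T, hT⟩ := S.hlim (ε / 2 / (n + 1)) (by positivity)
  refine ⟨T, fun T' hTT' x => ?_⟩
  classical
  -- restrict to the cells containing x
  set A := (S.cells T' \ S.cells T).filter (fun c => 0 < S.v c x) with hA
  have h1 : ∑ c ∈ S.cells T' \ S.cells T, S.h c * S.v c x = ∑ c ∈ A, S.h c * S.v c x := by
    rw [hA, Finset.sum_filter]
    refine Finset.sum_congr rfl fun c hc => ?_
    split_ifs with h
    · rfl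
    · have h2 : S.v c x = 0 := le_antisymm (not_lt.1 h) (S.v0 T' c (Finset.mem_sdiff.1 hc).1 x)
      rw [h2, mul_zero]
  have hinj : Set.InjOn S.dep (A : Set α) := by
    intro c hc c' hc' hd
    have h2 := Finset.mem_filter.1 (Finset.mem_coe.1 hc)
    have h3 := Finset.mem_filter.1 (Finset.mem_coe.1 hc')
    exact S.dep_inj (Finset.mem_sdiff.1 h2.1).1 (Finset.mem_sdiff.1 h3.1).1 h2.2 h3.2 hd
  have hterm : ∀ c ∈ A, S.h c * S.v c x ≤ min (ε / 2 / (n + 1)) (S.θ ^ S.dep c) := by
    intro c hc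
    have h2 := Finset.mem_filter.1 hc
    have h3 := Finset.mem_sdiff.1 h2.1
    have h4 : S.h c * S.v c x ≤ S.h c :=
      mul_le_of_le_one_right (S.h0 T' c h3.1).le (S.v1 T' c h3.1 x)
    exact le_min (h4.trans (hT T' c h3.1 h3.2)) (h4.trans (S.hθ T' c h3.1))
  rw [h1]
  calc ∑ c ∈ A, S.h c * S.v c x ≤ ∑ c ∈ A, min (ε / 2 / (n + 1)) (S.θ ^ S.dep c) :=
        Finset.sum_le_sum hterm
    _ = ∑ m ∈ A.image S.dep, min (ε / 2 / (n + 1)) (S.θ ^ m) := by
        rw [Finset.sum_image hinj]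
    _ ≤ ∑ m ∈ Finset.range n ∪ (A.image S.dep).filter (fun m => n ≤ m),
          min (ε / 2 / (n + 1)) (S.θ ^ m) := by
        refine Finset.sum_le_sum_of_subset_of_nonneg ?_ ?_
        · intro m hm
          by_cases hmn : m < n
          · exact Finset.mem_union_left _ (Finset.mem_range.2 hmn)
          · exact Finset.mem_union_right _ (Finset.mem_filter.2 ⟨hm, not_lt.1 hmn⟩)
        · intro m _ _
          have := S.θ0
          positivity
    _ ≤ ∑ m ∈ Finset.range n, min (ε / 2 / (n + 1)) (S.θ ^ m) +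
        ∑ m ∈ (A.image S.dep).filter (fun m => n ≤ m), min (ε / 2 / (n + 1)) (S.θ ^ m) := by
        have h9 := Finset.sum_union_inter (s₁ := Finset.range n)
          (s₂ := (A.image S.dep).filter (fun m => n ≤ m))
          (f := fun m => min (ε / 2 / (n + 1)) (S.θ ^ m))
        have : 0 ≤ ∑ m ∈ Finset.range n ∩ (A.image S.dep).filter (fun m => n ≤ m),
            min (ε / 2 / (n + 1)) (S.θ ^ m) := by
          refine Finset.sum_nonneg fun m _ => ?_
          have := S.θ0
          positivity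
        linarith
    _ ≤ ε / 2 + ε / 2 := by
        refine add_le_add ?_ ?_
        · calc ∑ m ∈ Finset.range n, min (ε / 2 / (n + 1)) (S.θ ^ m)
              ≤ ∑ m ∈ Finset.range n, ε / 2 / (n + 1) :=
                Finset.sum_le_sum fun m _ => min_le_left _ _
            _ = n * (ε / 2 / (n + 1)) := by simp
            _ ≤ (n + 1) * (ε / 2 / (n + 1)) := by
                refine mul_le_mul_of_nonneg_right (by linarith) (by positivity)
            _ = ε / 2 := by field_simp
        · refine le_trans ?_ hn.le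
          have hsum : Summable (fun m : ℕ => S.θ ^ (m + n)) := by
            simp_rw [pow_add]
            exact (summable_geometric_of_lt_one S.θ0.le S.θ1).mul_right _
          calc ∑ m ∈ (A.image S.dep).filter (fun m => n ≤ m), min (ε / 2 / (n + 1)) (S.θ ^ m)
              ≤ ∑ m ∈ (A.image S.dep).filter (fun m => n ≤ m), S.θ ^ m :=
                Finset.sum_le_sum fun m _ => min_le_right _ _
            _ = ∑ m ∈ ((A.image S.dep).filter (fun m => n ≤ m)).image (fun m => m - n),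
                  S.θ ^ (m + n) := by
                rw [Finset.sum_image]
                · refine Finset.sum_congr rfl fun m hm => ?_
                  rw [Nat.sub_add_cancel (Finset.mem_filter.1 hm).2]
                · intro a ha b hb hab
                  have h5 := (Finset.mem_filter.1 (Finset.mem_coe.1 ha)).2
                  have h6 := (Finset.mem_filter.1 (Finset.mem_coe.1 hb)).2
                  simp only at hab
                  omega
            _ ≤ ∑' m : ℕ, S.θ ^ (m + n) :=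
                hsum.sum_le_tsum _ (fun m _ => pow_nonneg S.θ0.le _)
            _ = S.θ ^ n * (1 - S.θ)⁻¹ := by
                simp_rw [pow_add]
                rw [tsum_mul_right, tsum_geometric_of_lt_one S.θ0.le S.θ1, mul_comm]
    _ = ε := by ring

/-- The limit pseudo-metric. -/
noncomputable def D (x x' : X) : ℝ := ⨆ T, S.ρ T x x'

theorem ρ_le_add {T T' : ℕ} (h : T ≤ T') (x x' : X) : S.ρ T' x x' ≤ S.ρ T x x' +
    (∑ c ∈ S.cells T' \ S.cells T, S.h c * S.v c x +
      ∑ c ∈ S.cells T' \ S.cells T, S.h c * S.v c x') := by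
  unfold ρ
  rw [← Finset.sum_sdiff (S.mono_le h), add_comm, ← Finset.sum_add_distrib]
  refine add_le_add le_rfl (Finset.sum_le_sum fun c hc => ?_)
  have h1 := (Finset.mem_sdiff.1 hc).1
  rw [← mul_add]
  refine mul_le_mul_of_nonneg_left ?_ (S.h0 T' c h1).le
  rw [abs_le]
  have h2 := S.v0 T' c h1 x
  have h3 := S.v0 T' c h1 x'
  constructor <;> linarith

theorem ρ_near (ε : ℝ) (hε : 0 < ε) : ∃ T, ∀ T' x x', S.ρ T' x x' ≤ S.ρ T x x' + ε := by
  obtain ⟨T, hT⟩ := S.tail_small (ε / 2) (half_pos hε)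
  refine ⟨T, fun T' x x' => ?_⟩
  rcases le_total T T' with h | h
  · have h1 := S.ρ_le_add h x x'
    have h2 := hT T' h x
    have h3 := hT T' h x'
    linarith
  · have := S.ρ_mono h x x'
    linarith

theorem bdd (x x' : X) : BddAbove (range fun T => S.ρ T x x') := by
  obtain ⟨T, hT⟩ := S.ρ_near 1 one_pos
  refine ⟨S.ρ T x x' + 1, ?_⟩
  rintro _ ⟨T', rfl⟩
  exact hT T' x x'

theorem ρ_le_D (T : ℕ) (x x' : X) : S.ρ T x x' ≤ S.D x x' := le_ciSup (S.bdd x x') T

theorem D_le (x x' : X) {K : ℝ} (h : ∀ T, S.ρ T x x' ≤ K) : S.D x x' ≤ K := ciSup_le h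

theorem D_nonneg (x x' : X) : 0 ≤ S.D x x' := (S.ρ_nonneg 0 x x').trans (S.ρ_le_D 0 x x')

theorem D_self (x : X) : S.D x x = 0 :=
  le_antisymm (S.D_le x x fun T => (S.ρ_self T x).le) (S.D_nonneg x x)

theorem D_cont : Continuous (fun p : X × X => S.D p.1 p.2) := by
  refine Metric.continuous_iff.2 fun p ε hε => ?_
  obtain ⟨T, hT⟩ := S.ρ_near (ε / 3) (by positivity)
  obtain ⟨δ, hδ, h⟩ := Metric.continuous_iff.1 (S.ρ_cont T) p (ε / 3) (by positivity)
  refine ⟨δ, hδ, fun q hq => ?_⟩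
  have h1 := h q hq
  rw [Real.dist_eq, abs_lt] at h1 ⊢
  have h2 := S.ρ_le_D T p.1 p.2
  have h3 := S.ρ_le_D T q.1 q.2
  have h4 := S.D_le p.1 p.2 (fun T' => hT T' p.1 p.2)
  have h5 := S.D_le q.1 q.2 (fun T' => hT T' q.1 q.2)
  constructor <;> linarith

end CellSys

end Pool.Agent.W618.IFS
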