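import Mathlib
import Pool.Agent.W618.IFS.Sys

/-!
# The map carried by a cell system
-/

open Set Topology Filter

namespace Pool.Agent.W618.IFS

/-- The data of one map on a cell system. -/
structure MapSys {X : Type*} [MetricSpace X] {α : Type*} [DecidableEq α] (S : CellSys X α) where
  z : α → X
  σ : α → ℝ → X
  k : α → ℝ
  reg : α → Set X
  σc : ∀ T, ∀ c ∈ S.cells (T + 1), c ∉ S.cells T → Continuous (σ c)
  σ0 : ∀ T, ∀ c ∈ S.cells (T + 1), c ∉ S.cells T → σ c 0 = z (S.par c)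
  σ1 : ∀ T, ∀ c ∈ S.cells (T + 1), c ∉ S.cells T → σ c 1 = z c
  kh : ∀ T, ∀ c ∈ S.cells (T + 1), c ∉ S.cells T → k c < S.h c
  B6 : ∀ T, ∀ c ∈ S.cells (T + 1), c ∉ S.cells T → ∀ T', ∀ s ∈ Icc (0 : ℝ) 1,
    ∀ t ∈ Icc (0 : ℝ) 1, S.ρ T' (σ c s) (σ c t) ≤ k c * |s - t|
  regσ : ∀ T, ∀ c ∈ S.cells (T + 1), c ∉ S.cells T → ∀ s ∈ Icc (0 : ℝ) 1, σ c s ∈ reg c
  regn : ∀ T, ∀ c ∈ S.cells (T + 1), c ∉ S.cells T → S.par c ≠ S.o → reg c ⊆ reg (S.par c)
  regd : ∀ ε > 0, ∃ T, ∀ T', ∀ c ∈ S.cells T', c ∉ S.cells T → ∀ a ∈ reg c, ∀ b ∈ reg c,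
    dist a b ≤ ε

namespace MapSys

variable {X : Type*} [MetricSpace X] {α : Type*} [DecidableEq α] {S : CellSys X α}
  (M : MapSys S)

open Classical in
/-- The stage-`T` map. -/
noncomputable def H : ℕ → X → X
  | 0, _ => M.z S.o
  | T + 1, x =>
    if h : ∃ c, c ∈ S.cells (T + 1) ∧ c ∉ S.cells T ∧ 0 < S.v c x then
      M.σ h.choose (S.v h.choose x) else H T x

theorem H_in {T : ℕ} {c : α} (hc : c ∈ S.cells (T + 1)) (hcT : c ∉ S.cells T) {x : X}
    (hx : 0 < S.v c x) : M.H (T + 1) x = M.σ c (S.v c x) := by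
  have h : ∃ c, c ∈ S.cells (T + 1) ∧ c ∉ S.cells T ∧ 0 < S.v c x := ⟨c, hc, hcT, hx⟩
  have h1 : h.choose = c := by
    by_contra hne
    have h2 := h.choose_spec
    rw [S.B3 T _ h2.1 h2.2.1 c hc hcT hne x h2.2.2] at hx
    exact lt_irrefl _ hx
  rw [H, dif_pos h, h1]

theorem H_out {T : ℕ} {x : X} (hx : ∀ c ∈ S.cells (T + 1), c ∉ S.cells T → S.v c x = 0) :
    M.H (T + 1) x = M.H T x := by
  have h : ¬ ∃ c, c ∈ S.cells (T + 1) ∧ c ∉ S.cells T ∧ 0 < S.v c x := by
    rintro ⟨c, h1, h2, h3⟩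
    rw [hx c h1 h2] at h3
    exact lt_irrefl _ h3
  rw [H, dif_neg h]

/-- The basic estimate, for any pseudo-metric. -/
theorem key (T : ℕ) : (∀ (e : X → X → ℝ), (∀ a, e a a = 0) → (∀ a b, 0 ≤ e a b) →
    (∀ a b c, e a c ≤ e a b + e b c) → ∀ x x', e (M.H T x) (M.H T x') ≤
      ∑ c ∈ S.cells T, e (M.σ c (S.v c x)) (M.σ c (S.v c x'))) ∧
    ∀ p ∈ S.cells T, M.H T (S.y p) = M.z p := by
  induction T with
  | zero =>
    refine ⟨fun e he0 he1 he2 x x' => ?_, fun p hp => ?_⟩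
    · simp only [H, he0]
      exact Finset.sum_nonneg fun c _ => he1 _ _
    · rw [S.zero, Finset.mem_singleton] at hp
      rw [hp, H]
  | succ T ih =>
    obtain ⟨ih1, ih2⟩ := ih
    -- dependence only on the values
    have hdep : ∀ x x', (∀ c ∈ S.cells T, S.v c x = S.v c x') → M.H T x = M.H T x' := by
      intro x x' h
      have h1 := ih1 dist dist_self (fun _ _ => dist_nonneg) dist_triangle x x'
      have h2 : ∑ c ∈ S.cells T, dist (M.σ c (S.v c x)) (M.σ c (S.v c x')) = 0 :=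
        Finset.sum_eq_zero fun c hc => by rw [h c hc, dist_self]
      rw [h2] at h1
      exact dist_le_zero.1 h1
    have hin : ∀ c ∈ S.cells (T + 1), c ∉ S.cells T → ∀ x, 0 < S.v c x → M.H T x = M.σ c 0 := by
      intro c hc hcT x hx
      rw [hdep x (S.y (S.par c)) (S.B1 T c hc hcT x hx), ih2 _ (S.par_mem T c hc hcT),
        M.σ0 T c hc hcT]
    refine ⟨fun e he0 he1 he2 x x' => ?_, fun p hp => ?_⟩
    · rw [← Finset.sum_sdiff (S.mono T)]
      have hold := ih1 e he0 he1 he2 x x'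
      have hsumnn : ∀ A : Finset α, 0 ≤ ∑ c ∈ A, e (M.σ c (S.v c x)) (M.σ c (S.v c x')) :=
        fun A => Finset.sum_nonneg fun c _ => he1 _ _
      by_cases h1 : ∃ c, c ∈ S.cells (T + 1) ∧ c ∉ S.cells T ∧ 0 < S.v c x
      · obtain ⟨c, hc, hcT, hx⟩ := h1
        by_cases h2 : ∃ c', c' ∈ S.cells (T + 1) ∧ c' ∉ S.cells T ∧ 0 < S.v c' x'
        · obtain ⟨c', hc', hcT', hx'⟩ := h2
          by_cases hcc : c = c'
          · subst hcc
            rw [M.H_in hc hcT hx, M.H_in hc hcT hx']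
            have h3 := Finset.single_le_sum
              (f := fun c => e (M.σ c (S.v c x)) (M.σ c (S.v c x')))
              (fun c _ => he1 _ _) (Finset.mem_sdiff.2 ⟨hc, hcT⟩)
            have h4 := hsumnn (S.cells T)
            linarith
          · rw [M.H_in hc hcT hx, M.H_in hc' hcT' hx']
            have h5 : S.v c x' = 0 := S.B3 T c' hc' hcT' c hc hcT (Ne.symm hcc) x' hx'
            have h6 : S.v c' x = 0 := S.B3 T c hc hcT c' hc' hcT' hcc x hx
            have h3 : e (M.σ c (S.v c x)) (M.σ c (S.v c x')) +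
                e (M.σ c' (S.v c' x)) (M.σ c' (S.v c' x')) ≤
                ∑ c ∈ S.cells (T + 1) \ S.cells T, e (M.σ c (S.v c x)) (M.σ c (S.v c x')) := by
              rw [← Finset.sum_pair (f := fun c => e (M.σ c (S.v c x)) (M.σ c (S.v c x'))) hcc]
              refine Finset.sum_le_sum_of_subset_of_nonneg ?_ fun c _ _ => he1 _ _
              intro a ha
              rcases Finset.mem_insert.1 ha with rfl | ha
              · exact Finset.mem_sdiff.2 ⟨hc, hcT⟩
              · rw [Finset.mem_singleton.1 ha]; exact Finset.mem_sdiff.2 ⟨hc', hcT'⟩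
            rw [h5, h6] at h3
            have h7 := he2 (M.σ c (S.v c x)) (M.σ c 0) (M.σ c' (S.v c' x'))
            have h8 := he2 (M.σ c 0) (M.σ c' 0) (M.σ c' (S.v c' x'))
            have h9 := hold
            rw [hin c hc hcT x hx, hin c' hc' hcT' x' hx'] at h9
            linarith
        · have h2' : ∀ c ∈ S.cells (T + 1), c ∉ S.cells T → S.v c x' = 0 := fun c hc hcT =>
            le_antisymm (not_lt.1 fun h => h2 ⟨c, hc, hcT, h⟩) (S.v0 (T + 1) c hc x')
          rw [M.H_in hc hcT hx, M.H_out h2']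
          have h3 := Finset.single_le_sum
            (f := fun c => e (M.σ c (S.v c x)) (M.σ c (S.v c x')))
            (fun c _ => he1 _ _) (Finset.mem_sdiff.2 ⟨hc, hcT⟩)
          rw [h2' c hc hcT] at h3
          have h7 := he2 (M.σ c (S.v c x)) (M.σ c 0) (M.H T x')
          have h9 := hold
          rw [hin c hc hcT x hx] at h9
          linarith
      · have h1' : ∀ c ∈ S.cells (T + 1), c ∉ S.cells T → S.v c x = 0 := fun c hc hcT =>
          le_antisymm (not_lt.1 fun h => h1 ⟨c, hc, hcT, h⟩) (S.v0 (T + 1) c hc x)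
        by_cases h2 : ∃ c', c' ∈ S.cells (T + 1) ∧ c' ∉ S.cells T ∧ 0 < S.v c' x'
        · obtain ⟨c', hc', hcT', hx'⟩ := h2
          rw [M.H_in hc' hcT' hx', M.H_out h1']
          have h3 := Finset.single_le_sum
            (f := fun c => e (M.σ c (S.v c x)) (M.σ c (S.v c x')))
            (fun c _ => he1 _ _) (Finset.mem_sdiff.2 ⟨hc', hcT'⟩)
          rw [h1' c' hc' hcT'] at h3
          have h7 := he2 (M.H T x) (M.σ c' 0) (M.σ c' (S.v c' x'))
          have h9 := hold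
          rw [hin c' hc' hcT' x' hx'] at h9
          linarith
        · have h2' : ∀ c ∈ S.cells (T + 1), c ∉ S.cells T → S.v c x' = 0 := fun c hc hcT =>
            le_antisymm (not_lt.1 fun h => h2 ⟨c, hc, hcT, h⟩) (S.v0 (T + 1) c hc x')
          rw [M.H_out h1', M.H_out h2']
          have h4 := hsumnn (S.cells (T + 1) \ S.cells T)
          linarith
    · by_cases hpT : p ∈ S.cells T
      · rw [M.H_out fun c hc hcT => S.B2 T c hc hcT p hpT]
        exact ih2 p hpT
      · have h1 := S.B4 T p hp hpT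
        rw [M.H_in hp hpT (by rw [h1]; exact one_pos), h1, M.σ1 T p hp hpT]

theorem H_dep (T : ℕ) (x x' : X) (h : ∀ c ∈ S.cells T, S.v c x = S.v c x') :
    M.H T x = M.H T x' := by
  have h1 := (M.key T).1 dist dist_self (fun _ _ => dist_nonneg) dist_triangle x x'
  have h2 : ∑ c ∈ S.cells T, dist (M.σ c (S.v c x)) (M.σ c (S.v c x')) = 0 :=
    Finset.sum_eq_zero fun c hc => by rw [h c hc, dist_self]
  rw [h2] at h1
  exact dist_le_zero.1 h1

theorem H_y {T : ℕ} {p : α} (hp : p ∈ S.cells T) : M.H T (S.y p) = M.z p := (M.key T).2 p hp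

theorem H_zero_end {T : ℕ} {c : α} (hc : c ∈ S.cells (T + 1)) (hcT : c ∉ S.cells T) {x : X}
    (hx : 0 < S.v c x) : M.H T x = M.σ c 0 := by
  rw [M.H_dep T x (S.y (S.par c)) (S.B1 T c hc hcT x hx), M.H_y (S.par_mem T c hc hcT),
    M.σ0 T c hc hcT]

theorem σ_cont_or (T : ℕ) (c : α) (hc : c ∈ S.cells T) : c = S.o ∨ Continuous (M.σ c) := by
  by_cases h : c = S.o
  · exact Or.inl h
  · right
    obtain ⟨t, -, h1, h2⟩ := S.new_of_mem hc h
    exact M.σc t c h1 h2

theorem H_cont (T : ℕ) : Continuous (M.H T) := by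
  refine continuous_iff_continuousAt.2 fun x => ?_
  have h1 : Tendsto (fun x' => ∑ c ∈ S.cells T, dist (M.σ c (S.v c x')) (M.σ c (S.v c x)))
      (𝓝 x) (𝓝 (∑ c ∈ S.cells T, dist (M.σ c (S.v c x)) (M.σ c (S.v c x)))) := by
    refine tendsto_finsetSum _ fun c hc => ?_
    rcases M.σ_cont_or T c hc with h | h
    · subst h
      simp only [S.vo]
      exact tendsto_const_nhds
    · have h2 := S.vcont T c hc
      have h3 : Continuous fun x' => dist (M.σ c (S.v c x')) (M.σ c (S.v c x)) := by fun_prop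
      exact h3.tendsto x
  simp only [dist_self, Finset.sum_const_zero] at h1
  rw [ContinuousAt, tendsto_iff_dist_tendsto_zero]
  exact squeeze_zero (fun _ => dist_nonneg)
    (fun x' => (M.key T).1 dist dist_self (fun _ _ => dist_nonneg) dist_triangle x' x) h1

theorem reg_nest {T : ℕ} {c p : α} (hc : c ∈ S.cells T) (hco : c ≠ S.o) (hp : p ∈ S.cells T)
    (h : 0 < S.v c (S.y p)) : p ≠ S.o ∧ M.reg p ⊆ M.reg c := by
  induction T generalizing c p with
  | zero =>
    rw [S.zero, Finset.mem_singleton] at hc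
    exact absurd hc hco
  | succ T ih =>
    by_cases hcT : c ∈ S.cells T
    · by_cases hpT : p ∈ S.cells T
      · exact ih hcT hco hpT h
      · have h1 : 0 < S.v p (S.y p) := by rw [S.B4 T p hp hpT]; exact one_pos
        have h2 := S.B1 T p hp hpT (S.y p) h1 c hcT
        rw [h2] at h
        have h3 := ih hcT hco (S.par_mem T p hp hpT) h
        refine ⟨?_, (M.regn T p hp hpT h3.1).trans h3.2⟩
        rintro rfl
        exact hpT (S.o_mem T)
    · by_cases hpT : p ∈ S.cells T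
      · rw [S.B2 T c hc hcT p hpT] at h
        exact absurd h (lt_irrefl _)
      · by_cases hcp : c = p
        · rw [← hcp]; exact ⟨hco, Subset.rfl⟩
        · exfalso
          have h1 : 0 < S.v p (S.y p) := by rw [S.B4 T p hp hpT]; exact one_pos
          rw [S.B3 T p hp hpT c hc hcT (Ne.symm hcp) _ h1] at h
          exact lt_irrefl _ h

theorem H_cauchy (ε : ℝ) (hε : 0 < ε) : ∃ T, ∀ T', T ≤ T' → ∀ x,
    dist (M.H T' x) (M.H T x) ≤ ε := by
  obtain ⟨T, hT⟩ := M.regd ε hε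
  refine ⟨T, fun T' hTT' x => ?_⟩
  have hP : M.H T' x = M.H T x ∨ ∃ c, c ∈ S.cells T' ∧ c ∉ S.cells T ∧ 0 < S.v c x ∧
      M.H T x ∈ M.reg c ∧ M.H T' x ∈ M.reg c := by
    induction hTT' with
    | refl => exact Or.inl rfl
    | step hle ih =>
      rename_i m
      have hle' : T ≤ m := hle
      by_cases h1 : ∃ c, c ∈ S.cells (m + 1) ∧ c ∉ S.cells m ∧ 0 < S.v c x
      · obtain ⟨c', hc', hcm', hx'⟩ := h1
        right
        have h2 : M.H (m + 1) x ∈ M.reg c' := by
          rw [M.H_in hc' hcm' hx']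
          exact M.regσ m c' hc' hcm' _ ⟨hx'.le, S.v1 _ c' hc' x⟩
        have h3 : M.H m x ∈ M.reg c' := by
          rw [M.H_zero_end hc' hcm' hx']
          exact M.regσ m c' hc' hcm' _ ⟨le_rfl, zero_le_one⟩
        rcases ih with ih | ⟨c, hc, hcT, hx, h4, h5⟩
        · refine ⟨c', hc', fun h => hcm' (S.mono_le hle' h), hx', ?_, h2⟩
          rw [← ih]; exact h3
        · refine ⟨c, S.mono m hc, hcT, hx, h4, ?_⟩
          have hco : c ≠ S.o := by rintro rfl; exact hcT (S.o_mem T)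
          have h6 := S.B1 m c' hc' hcm' x hx' c hc
          rw [h6] at hx
          have h7 := M.reg_nest hc hco (S.par_mem m c' hc' hcm') hx
          exact h7.2 (M.regn m c' hc' hcm' h7.1 h2)
      · have h1' : ∀ c ∈ S.cells (m + 1), c ∉ S.cells m → S.v c x = 0 := fun c hc hcT =>
          le_antisymm (not_lt.1 fun h => h1 ⟨c, hc, hcT, h⟩) (S.v0 (m + 1) c hc x)
        rw [M.H_out h1']
        rcases ih with ih | ⟨c, hc, hcT, hx, h4, h5⟩
        · exact Or.inl ih
        · exact Or.inr ⟨c, S.mono m hc, hcT, hx, h4, h5⟩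
  rcases hP with h | ⟨c, h1, h2, h3, h4, h5⟩
  · rw [h, dist_self]; exact hε.le
  · exact hT T' c h1 h2 _ h5 _ h4

variable [CompleteSpace X]

theorem exists_lim : ∃ f : X → X, Continuous f ∧ (∀ x, Tendsto (fun T => M.H T x) atTop (𝓝 (f x)))
    := by
  have h1 : ∀ x, ∃ y, Tendsto (fun T => M.H T x) atTop (𝓝 y) := by
    intro x
    refine cauchySeq_tendsto_of_complete (Metric.cauchySeq_iff'.2 fun ε hε => ?_)
    obtain ⟨T, hT⟩ := M.H_cauchy (ε / 2) (half_pos hε)
    exact ⟨T, fun n hn => (hT n hn x).trans_lt (half_lt_self hε)⟩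
  choose f hf using h1
  refine ⟨f, ?_, hf⟩
  refine Metric.continuous_iff.2 fun x ε hε => ?_
  obtain ⟨T, hT⟩ := M.H_cauchy (ε / 4) (by positivity)
  have h2 : ∀ x, dist (f x) (M.H T x) ≤ ε / 4 := by
    intro x
    have h3 : Tendsto (fun T' => dist (M.H T' x) (M.H T x)) atTop
        (𝓝 (dist (f x) (M.H T x))) := (hf x).dist tendsto_const_nhds
    exact le_of_tendsto h3 (eventually_atTop.2 ⟨T, fun T' h => hT T' h x⟩)
  obtain ⟨δ, hδ, h3⟩ := Metric.continuous_iff.1 (M.H_cont T) x (ε / 4) (by positivity)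
  refine ⟨δ, hδ, fun a ha => ?_⟩
  have h4 := h3 a ha
  have h5 := h2 x
  have h6 := h2 a
  have h7 := dist_triangle4 (f a) (M.H T a) (M.H T x) (f x)
  rw [dist_comm (M.H T x) (f x)] at h7
  linarith

/-- The limit map. -/
noncomputable def f : X → X := M.exists_lim.choose

theorem f_cont : Continuous M.f := M.exists_lim.choose_spec.1

theorem f_lim (x : X) : Tendsto (fun T => M.H T x) atTop (𝓝 (M.f x)) :=
  M.exists_lim.choose_spec.2 x

theorem f_y {T : ℕ} {p : α} (hp : p ∈ S.cells T) : M.f (S.y p) = M.z p := by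
  have h1 : Tendsto (fun T => M.H T (S.y p)) atTop (𝓝 (M.z p)) := by
    refine tendsto_const_nhds.congr' ?_
    filter_upwards [eventually_ge_atTop T] with t ht
    exact (M.H_y (S.mono_le ht hp)).symm
  exact tendsto_nhds_unique (M.f_lim _) h1

omit [CompleteSpace X] in
theorem k_nonneg {T : ℕ} {c : α} (hc : c ∈ S.cells (T + 1)) (hcT : c ∉ S.cells T) : 0 ≤ M.k c := by
  have h1 := M.B6 T c hc hcT 0 0 ⟨le_rfl, zero_le_one⟩ 1 ⟨zero_le_one, le_rfl⟩
  have h2 := S.ρ_nonneg 0 (M.σ c 0) (M.σ c 1)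
  have h3 : |(0 : ℝ) - 1| = 1 := by norm_num
  rw [h3, mul_one] at h1
  exact h2.trans h1

omit [CompleteSpace X] in
/-- The contraction estimate at a finite stage. -/
theorem ρ_H (T' T : ℕ) (x x' : X) : S.ρ T' (M.H T x) (M.H T x') ≤
    ∑ c ∈ S.cells T \ {S.o}, M.k c * |S.v c x - S.v c x'| := by
  have h1 := (M.key T).1 (S.ρ T') (S.ρ_self T') (S.ρ_nonneg T') (S.ρ_triangle T') x x'
  refine h1.trans ?_
  rw [← Finset.sum_sdiff (s₁ := {S.o}) (by
    rw [Finset.singleton_subset_iff]; exact S.o_mem T)]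
  rw [Finset.sum_singleton, S.vo, S.vo, S.ρ_self, add_zero]
  refine Finset.sum_le_sum fun c hc => ?_
  rw [Finset.mem_sdiff, Finset.mem_singleton] at hc
  obtain ⟨t, ht, h2, h3⟩ := S.new_of_mem hc.1 hc.2
  exact M.B6 t c h2 h3 T' _ ⟨S.v0 T c hc.1 x, S.v1 T c hc.1 x⟩ _
    ⟨S.v0 T c hc.1 x', S.v1 T c hc.1 x'⟩

theorem strict (x x' : X) (h : 0 < S.D x x') : S.D (M.f x) (M.f x') < S.D x x' := by
  -- a cell with different values
  obtain ⟨T0, c0, hc0, hne⟩ : ∃ T0, ∃ c ∈ S.cells T0, S.v c x ≠ S.v c x' := by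
    by_contra hcon
    push Not at hcon
    have : S.D x x' ≤ 0 := S.D_le x x' fun T => by
      unfold CellSys.ρ
      refine le_of_eq (Finset.sum_eq_zero fun c hc => ?_)
      rw [hcon T c hc, sub_self, abs_zero, mul_zero]
    linarith
  have hc0o : c0 ≠ S.o := by
    rintro rfl
    exact hne (by rw [S.vo, S.vo])
  obtain ⟨t0, -, h1, h2⟩ := S.new_of_mem hc0 hc0o
  have hgap : 0 < (S.h c0 - M.k c0) * |S.v c0 x - S.v c0 x'| :=
    mul_pos (sub_pos.2 (M.kh t0 c0 h1 h2)) (abs_pos.2 (sub_ne_zero.2 hne))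
  set ε := (S.h c0 - M.k c0) * |S.v c0 x - S.v c0 x'| with hε
  have hfin : ∀ T', ∀ T, T0 ≤ T → S.ρ T' (M.H T x) (M.H T x') ≤ S.D x x' - ε := by
    intro T' T hT
    have h3 := M.ρ_H T' T x x'
    have h4 : ∑ c ∈ S.cells T \ {S.o}, M.k c * |S.v c x - S.v c x'| + ε ≤ S.ρ T x x' := by
      have hmem : c0 ∈ S.cells T \ {S.o} :=
        Finset.mem_sdiff.2 ⟨S.mono_le hT hc0, by rwa [Finset.mem_singleton]⟩
      have h5 : ∑ c ∈ S.cells T \ {S.o}, S.h c * |S.v c x - S.v c x'| ≤ S.ρ T x x' := by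
        unfold CellSys.ρ
        exact Finset.sum_le_sum_of_subset_of_nonneg Finset.sdiff_subset
          fun c hc _ => mul_nonneg (S.h0 T c hc).le (abs_nonneg _)
      refine le_trans ?_ h5
      rw [← Finset.add_sum_erase _ _ hmem, ← Finset.add_sum_erase _ _ hmem]
      have h6 : ∑ c ∈ (S.cells T \ {S.o}).erase c0, M.k c * |S.v c x - S.v c x'| ≤
          ∑ c ∈ (S.cells T \ {S.o}).erase c0, S.h c * |S.v c x - S.v c x'| := by
        refine Finset.sum_le_sum fun c hc => ?_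
        have hc' := Finset.mem_sdiff.1 (Finset.mem_of_mem_erase hc)
        rw [Finset.mem_singleton] at hc'
        obtain ⟨t, -, h7, h8⟩ := S.new_of_mem hc'.1 hc'.2
        exact mul_le_mul_of_nonneg_right (M.kh t c h7 h8).le (abs_nonneg _)
      rw [hε]
      nlinarith
    have h9 := S.ρ_le_D T x x'
    linarith
  have hlim : ∀ T', S.ρ T' (M.f x) (M.f x') ≤ S.D x x' - ε := by
    intro T'
    have h3 := S.ρ_tendsto T' (M.f_lim x) (M.f_lim x')
    exact le_of_tendsto h3 (eventually_atTop.2 ⟨T0, fun T hT => hfin T' T hT⟩)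
  have := S.D_le _ _ hlim
  linarith

theorem zero (x x' : X) (h : S.D x x' = 0) : M.f x = M.f x' := by
  have h1 : ∀ T, ∀ c ∈ S.cells T, S.v c x = S.v c x' := by
    intro T c hc
    have h2 := S.ρ_le_D T x x'
    rw [h] at h2
    have h3 : S.h c * |S.v c x - S.v c x'| ≤ S.ρ T x x' :=
      Finset.single_le_sum (f := fun c => S.h c * |S.v c x - S.v c x'|)
        (fun c hc => mul_nonneg (S.h0 T c hc).le (abs_nonneg _)) hc
    have h4 : S.h c * |S.v c x - S.v c x'| ≤ 0 := h3.trans h2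
    have h5 : |S.v c x - S.v c x'| ≤ 0 := by
      by_contra hcon
      have := mul_pos (S.h0 T c hc) (not_le.1 hcon)
      linarith
    exact sub_eq_zero.1 (abs_eq_zero.1 (le_antisymm h5 (abs_nonneg _)))
  have h2 : ∀ T, M.H T x = M.H T x' := fun T => M.H_dep T x x' (h1 T)
  have h3 := M.f_lim x
  simp_rw [h2] at h3
  exact tendsto_nhds_unique h3 (M.f_lim x')

end MapSys

open Pool.Agent.H764R3.TopFractal in
/-- **Theorem B.** Finitely many maps carried by one cell system whose vertices are dense. -/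
theorem attractor_of_maps {X : Type*} [MetricSpace X] [CompactSpace X] [Nonempty X]
    {α : Type*} [DecidableEq α] (S : CellSys X α) {ι : Type*} [Finite ι]
    (M : ι → MapSys S) (hd : ∀ x, ∀ ε > 0, ∃ j T, ∃ c ∈ S.cells T, dist x ((M j).z c) < ε) :
    IsTopologicalIFSAttractor X := by
  refine attractor_of_weak (fun j => (M j).f) (fun j => (M j).f_cont) ?_ S.D S.D_cont S.D_nonneg
    S.D_self (fun j x y h => (M j).strict x y h) (fun j x y h => (M j).zero x y h)
  intro x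
  have hcl : IsClosed (⋃ j, range (M j).f) :=
    isClosed_iUnion_of_finite fun j => (isCompact_range (M j).f_cont).isClosed
  have hx : x ∈ closure (⋃ j, range (M j).f) := by
    refine Metric.mem_closure_iff.2 fun ε hε => ?_
    obtain ⟨j, T, c, hc, h⟩ := hd x ε hε
    exact ⟨(M j).z c, mem_iUnion.2 ⟨j, S.y c, (M j).f_y hc⟩, h⟩
  rw [hcl.closure_eq] at hx
  obtain ⟨j, y, h⟩ := mem_iUnion.1 hx
  exact ⟨j, y, h⟩

end Pool.Agent.W618.IFS
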