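import Mathlib
import Pool.Agent.W618.IFS.State

/-!
# Plans of the words
-/

open Set Topology Filter

namespace Pool.Agent.W618.IFS

/-- The plan of a word. -/
structure Plan (X : Type*) where
  z : X
  S : Set X
  tgt : ℕ → X
  pth : ℕ → ℝ → X
  K : ℝ
  fr : ℝ
  ctr2 : X
  rad2 : ℝ
  ctr : X
  rad : ℝ
  σ : ℝ → X
  kc : ℝ

variable {X : Type*} [MetricSpace X] {Q : Set X}

/-- the tasks of a word born at `b` -/
def rg (s : Geo X) (b k : ℕ) : Prop := s.i b + k + 3 ≤ s.i (b + 1)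

/-- The point `x` avoids, at time `t`, the zones in which cells were born after time `a`. -/
def Safe (s : Geo X) (a t : ℕ) (x : X) : Prop :=
  a < t → ∀ c ∈ cl s.i a, s.i (birth c) ≤ t → s.r a c ≤ dist x (s.y c)

/-- A plan is correct in itself. -/
structure LocOK (s : Geo X) (t : ℕ) (Γ : Set X) (c : List ℕ) (P : Plan X) : Prop where
  pc : ∀ k, rg s (birth c) k → Continuous (P.pth k)
  p0 : ∀ k, rg s (birth c) k → P.pth k 0 = P.z
  p1 : ∀ k, rg s (birth c) k → P.pth k 1 = P.tgt k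
  pD : ∀ k, rg s (birth c) k → ∀ u ∈ Icc (0 : ℝ) 1, ∀ w ∈ Icc (0 : ℝ) 1,
    Dt s t (P.pth k u) (P.pth k w) ≤ P.K * |u - w|
  pB : ∀ k, rg s (birth c) k → ∀ u ∈ Icc (0 : ℝ) 1, P.pth k u ∈ Metric.closedBall P.ctr2 P.rad2
  pΓ : ∀ k, rg s (birth c) k → ∀ u ∈ Icc (0 : ℝ) 1, P.pth k u ∈ Γ
  K0 : 0 ≤ P.K
  fr0 : 0 ≤ P.fr
  fr1 : P.fr ≤ 1
  frK : P.fr * P.K ≤ 7 / 10 * hh s c
  frK2 : (1 - P.fr) * P.K ≤ hh s c / 2
  zB : P.z ∈ Metric.closedBall P.ctr2 P.rad2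
  BB : Metric.closedBall P.ctr2 P.rad2 ⊆ Metric.closedBall P.ctr P.rad
  SB : ∀ x ∈ P.S, dist x P.ctr2 + 14 * s.η (birth c + 1) ≤ P.rad2
  tS : P.S.Nonempty → ∀ k, rg s (birth c) k → P.tgt k ∈ P.S
  Q : ∀ x ∈ P.S, ∃ k, rg s (birth c) k ∧
    Reach (Dt s (birth c + 1)) (6 * s.η (birth c + 1)) (P.tgt k) x
  R1 : P.fr ≠ 1 → ∀ m, 1 ≤ m → m ≤ birth c → s.i m ≤ birth c + 1 → P.rad2 ≤ (1 / 2) ^ m
  R2 : ∀ m, 1 ≤ m → m ≤ birth c → s.i m ≤ birth c → s.i (s.i m) ≤ birth c →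
    P.rad2 ≤ (1 / 2) ^ m
  R3 : ∀ m, 1 ≤ m → m ≤ birth c → s.i m ≤ birth c → s.i (s.i m) ≤ birth c →
    s.i (s.i (s.i m)) ≤ birth c → P.rad ≤ (1 / 2) ^ m

/-- A plan is correct relative to its parent. -/
structure ParOK (s : Geo X) (t : ℕ) (Γ : Set X) (u : ℕ) (c : List ℕ) (P0 P : Plan X) : Prop where
  σc : Continuous P.σ
  σ0 : P.σ 0 = P0.z
  σ1 : P.σ 1 = P.z
  σD : ∀ u ∈ Icc (0 : ℝ) 1, ∀ w ∈ Icc (0 : ℝ) 1, Dt s t (P.σ u) (P.σ w) ≤ P.kc * |u - w|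
  σB : ∀ u ∈ Icc (0 : ℝ) 1, P.σ u ∈ Metric.closedBall P.ctr P.rad
  σΓ : ∀ u ∈ Icc (0 : ℝ) 1, P.σ u ∈ Γ
  kh : P.kc < hh s (u :: c)
  nest : c ≠ [] → Metric.closedBall P.ctr P.rad ⊆ Metric.closedBall P0.ctr P0.rad

theorem LocOK.mono {s : Geo X} {t : ℕ} {Γ Γ' : Set X} {c : List ℕ} {P : Plan X}
    (h : LocOK s t Γ c P) (hΓ : Γ ⊆ Γ') : LocOK s t Γ' c P :=
  { h with pΓ := fun k hk u hu => hΓ (h.pΓ k hk u hu) }

theorem ParOK.mono {s : Geo X} {t u : ℕ} {Γ Γ' : Set X} {c : List ℕ} {P0 P : Plan X}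
    (h : ParOK s t Γ u c P0 P) (hΓ : Γ ⊆ Γ') : ParOK s t Γ' u c P0 P :=
  { h with σΓ := fun u hu => hΓ (h.σΓ u hu) }

theorem length_le_birth {i : ℕ → ℕ} {t : ℕ} {c : List ℕ} (hc : c ∈ cl i t) :
    c.length ≤ birth c := by
  induction c generalizing t with
  | nil => simp
  | cons u c ih =>
    obtain ⟨h1, h2, h3, h4⟩ := cons_mem hc
    have h5 := ih h3
    have h6 := birth_le h3
    simp only [List.length_cons, birth_cons]
    omega

/-- The plan of an idle word. -/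
noncomputable def idle (z : X) : Plan X where
  z := z
  S := ∅
  tgt := fun _ => z
  pth := fun _ _ => z
  K := 0
  fr := 1
  ctr2 := z
  rad2 := 0
  ctr := z
  rad := 0
  σ := fun _ => z
  kc := 0

theorem idle_ok {s : Geo X} {T : ℕ} (h : GInv Q s T) {t : ℕ} (ht : t ≤ T) {Γ : Set X} {z : X}
    (hz : z ∈ Γ) {c : List ℕ} (hc : c ∈ cl s.i T) : LocOK s t Γ c (idle z) := by
  have hp := h.hh_pos hc
  refine
  { pc := fun k _ => continuous_const
    p0 := fun k _ => rfl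
    p1 := fun k _ => rfl
    pD := fun k _ u _ w _ => ?_
    pB := fun k _ u _ => Metric.mem_closedBall_self le_rfl
    pΓ := fun k _ u _ => hz
    K0 := le_rfl
    fr0 := zero_le_one
    fr1 := le_rfl
    frK := ?_
    frK2 := ?_
    zB := Metric.mem_closedBall_self le_rfl
    BB := Subset.rfl
    SB := fun x hx => absurd hx (notMem_empty x)
    tS := fun hx => absurd hx not_nonempty_empty
    Q := fun x hx => absurd hx (notMem_empty x)
    R1 := fun hne => absurd rfl hne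
    R2 := fun m _ _ _ _ => ?_
    R3 := fun m _ _ _ _ _ => ?_ }
  · rw [show (idle z).pth k u = z from rfl, show (idle z).pth k w = z from rfl, (h.pm ht).refl]
    simp [idle]
  · simp only [idle]; linarith
  · simp only [idle]; linarith
  · simp only [idle]; positivity
  · simp only [idle]; positivity

theorem idle_par {s : Geo X} {T : ℕ} (h : GInv Q s T) {t : ℕ} (ht : t ≤ T) {Γ : Set X}
    {u : ℕ} {c : List ℕ} (hc : u :: c ∈ cl s.i T) {P0 : Plan X} (hz : P0.z ∈ Γ)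
    (h0 : P0.z ∈ Metric.closedBall P0.ctr P0.rad) :
    ParOK s t Γ u c P0 (idle P0.z) := by
  refine
  { σc := continuous_const
    σ0 := rfl
    σ1 := rfl
    σD := fun u _ w _ => ?_
    σB := fun u _ => Metric.mem_closedBall_self le_rfl
    σΓ := fun u _ => hz
    kh := h.hh_pos hc
    nest := fun _ => ?_ }
  · rw [show (idle P0.z).σ u = P0.z from rfl, show (idle P0.z).σ w = P0.z from rfl,
      (h.pm ht).refl]
    simp [idle]
  · intro x hx
    simp only [idle, Metric.closedBall_zero, mem_singleton_iff] at hx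
    rw [hx]; exact h0

/-- Finite covers of the targets : the common part of the two kinds of plans. -/
theorem exists_targets {s : Geo X} {T : ℕ} (h : GInv Q s (T + 1)) {S : Set X} (hS : S.Nonempty)
    (hSU : S ⊆ s.U (T + 1)) : ∃ tgt : ℕ → X, (∀ k, tgt k ∈ S) ∧
      ∀ x ∈ S, ∃ k, rg s T k ∧ Reach (Dt s (T + 1)) (6 * s.η (T + 1)) (tgt k) x := by
  classical
  obtain ⟨x0, hx0⟩ := hS
  have h1 : ∀ k, ∃ t ∈ S, ∀ x ∈ S, Reach (Dt s (T + 1)) (s.η (T + 1)) (s.ξ (T + 1) k) x →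
      Reach (Dt s (T + 1)) (s.η (T + 1)) (s.ξ (T + 1) k) t := by
    intro k
    by_cases h2 : ∃ x ∈ S, Reach (Dt s (T + 1)) (s.η (T + 1)) (s.ξ (T + 1) k) x
    · obtain ⟨x, hx, hxr⟩ := h2
      exact ⟨x, hx, fun _ _ _ => hxr⟩
    · exact ⟨x0, hx0, fun x hx hxr => absurd ⟨x, hx, hxr⟩ h2⟩
  choose tgt ht1 ht2 using h1
  refine ⟨tgt, ht1, fun x hx => ?_⟩
  obtain ⟨k, hk, hkx⟩ := h.ξ T le_rfl x (hSU hx)
  exact ⟨k, hk, Reach.two (h.pm le_rfl) (h.ηpos _ le_rfl).le (ht2 k x hx hkx) hkx⟩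

theorem R_small {s : Geo X} {T : ℕ} (h : GInv Q s (T + 1)) {c : List ℕ} (hc : c ∈ cl s.i T)
    (hi : s.i (birth c) ≤ T + 1) {m : ℕ} (hm1 : 1 ≤ m) (hm : m ≤ T) (him : s.i m ≤ T + 1) :
    s.R T c ≤ (1 / 2) ^ m := by
  have hbc := birth_le hc
  rcases hi.lt_or_eq with h1 | h1
  · refine (h.Ra T (by omega) c hc (by omega)).trans ?_
    exact pow_le_pow_of_le_one (by norm_num) (by norm_num) hm
  · have h2 : m ≤ birth c := by
      by_contra hcon
      have := h.i_strict (a := birth c) (b := m) (by omega) (by omega)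
      omega
    refine (h.Rb T (by omega) c hc (by omega)).trans ?_
    exact pow_le_pow_of_le_one (by norm_num) (by norm_num) h2

end Pool.Agent.W618.IFS
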