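import Mathlib
import Pool.Agent.W618.IFS.Plans

/-!
# Plans of the words whose target is a new cell
-/

open Set Topology Filter

namespace Pool.Agent.W618.IFS

variable {X : Type*} [MetricSpace X] {Q : Set X}

theorem planE {s : Geo X} {T : ℕ} (h : GInv Q s (T + 1)) (hE : EF s T) {c c'' : List ℕ}
    (hcb : birth c = T) (hc'' : c'' ∈ cl s.i T)
    (hi : s.i (birth c'') ≤ T + 1) (hlen : c.length ≤ c''.length + 1) :
    ∃ (P : Plan X) (F : Set X), Thin F ∧ LocOK s (T + 1) F c P ∧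
      Continuous P.σ ∧ P.σ 0 = s.y c'' ∧ P.σ 1 = P.z ∧
      (∀ u ∈ Icc (0 : ℝ) 1, ∀ w ∈ Icc (0 : ℝ) 1, Dt s (T + 1) (P.σ u) (P.σ w) ≤ P.kc * |u - w|) ∧
      (∀ u ∈ Icc (0 : ℝ) 1, P.σ u ∈ Metric.closedBall P.ctr P.rad) ∧
      (∀ u ∈ Icc (0 : ℝ) 1, P.σ u ∈ F) ∧ P.kc < hh s c ∧
      P.z = s.y ((T + 1) :: c'') ∧ P.ctr = s.y c'' ∧ P.rad = s.R T c'' ∧
      ∀ x ∈ s.U (T + 1), dist x (s.y c'') < s.r T c'' → x ∈ P.S := by
  classical
  set κ := (s.g T + s.g (T + 1)) / 2 with hκ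
  have hgT := h.gpos T (by omega)
  have hgT1 := h.gpos (T + 1) le_rfl
  have hgd := h.gdec T (by omega)
  have hκ0 : 0 < κ := by rw [hκ]; linarith
  have hκT : κ < s.g T := by rw [hκ]; linarith
  set K := (9 / 10 : ℝ) ^ (c''.length + 1) * κ with hK
  have hK0 : 0 < K := by rw [hK]; positivity
  have hKh : K < hh s c := by
    rw [hK]
    unfold hh
    rw [hcb]
    have h1 : (9 / 10 : ℝ) ^ (c''.length + 1) ≤ (9 / 10) ^ c.length :=
      pow_le_pow_of_le_one (by norm_num) (by norm_num) hlen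
    have h2 : (0 : ℝ) < (9 / 10) ^ (c''.length + 1) := by positivity
    nlinarith
  have hr := h.rpos T (by omega) c'' hc''
  -- the set
  set S : Set X := {x | x ∈ s.U (T + 1) ∧ dist x (s.y c'') < s.r T c''} with hS
  have hSne : S.Nonempty := by
    obtain ⟨x, hx1, hx2⟩ := (h.Qd.mono (h.UQ (T + 1) le_rfl)).exists_mem_open
      (Metric.isOpen_ball (x := s.y c'') (ε := s.r T c'')) ⟨s.y c'', Metric.mem_ball_self hr.1⟩
    exact ⟨x, hx1, hx2⟩
  obtain ⟨tgt, ht1, ht2⟩ := exists_targets h hSne (fun x hx => hx.1)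
  have hpath : ∀ k, PathIn (Dt s (T + 1)) K (Metric.ball (s.y c'') (s.R T c''))
      (s.y ((T + 1) :: c'')) (tgt k) := fun k => hE.b c'' hc'' hi (tgt k) (ht1 k).1 (ht1 k).2
  choose τ hτ1 hτ2 hτ3 hτ4 hτ5 F hF1 hF2 using hpath
  obtain ⟨σ, hσ1, hσ2, hσ3, hσ4, hσ5, G, hG1, hG2⟩ := hE.a c'' hc'' hi
  have hq : (T + 1) :: c'' ∈ cl s.i (T + 1) := mem_cons hc'' hi
  have hηr : 16 * s.η (T + 1) ≤ s.r T c'' :=
    (h.ηr (T + 1) le_rfl c'' (cl_mono T hc'')).trans (h.rmono T (by omega) c'' hc'').1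
  have hη0 := h.ηpos (T + 1) le_rfl
  refine ⟨{
    z := s.y ((T + 1) :: c'')
    S := S
    tgt := tgt
    pth := τ
    K := K
    fr := 1 / 2
    ctr2 := s.y c''
    rad2 := s.R T c''
    ctr := s.y c''
    rad := s.R T c''
    σ := σ
    kc := K }, G ∪ ⋃ k ∈ Finset.range (s.i (T + 1)), F k,
    hG1.union (thin_biUnion _ _ fun k _ => hF1 k), ?_, hσ1, hσ2, hσ3, hσ4,
    fun u hu => Metric.ball_subset_closedBall (hσ5 u hu), fun u hu => Or.inl (hG2 u hu), hKh,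
    rfl, rfl, rfl, fun x hx hxr => ⟨hx, hxr⟩⟩
  refine
  { pc := fun k _ => hτ1 k
    p0 := fun k _ => hτ2 k
    p1 := fun k _ => hτ3 k
    pD := fun k _ => hτ4 k
    pB := fun k _ u hu => Metric.ball_subset_closedBall (hτ5 k u hu)
    pΓ := fun k hk u hu => Or.inr (mem_iUnion₂.2 ⟨k, Finset.mem_range.2 ?_, hF2 k u hu⟩)
    K0 := hK0.le
    fr0 := by norm_num
    fr1 := by norm_num
    frK := ?_
    frK2 := ?_
    zB := ?_
    BB := Subset.rfl
    SB := fun x hx => ?_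
    tS := fun _ k _ => ht1 k
    Q := fun x hx => ?_
    R1 := fun _ m hm1 hm2 hm3 => ?_
    R2 := fun m hm1 hm2 hm3 hm4 => ?_
    R3 := fun m hm1 hm2 hm3 hm4 hm5 => ?_ }
  · rw [hcb] at hk
    unfold rg at hk
    omega
  · simp only
    linarith
  · simp only
    linarith
  · simp only [Metric.mem_closedBall]
    have h1 := h.nest (T + 1) c'' hq (s.y ((T + 1) :: c''))
      (Or.inr (by rw [dist_self]; exact (h.R_pos le_rfl hq).le))
    rw [Nat.add_sub_cancel] at h1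
    linarith [hr.1, hr.2]
  · have h1 : dist x (s.y c'') < s.r T c'' := hx.2
    simp only
    rw [hcb]
    linarith [hr.1, hr.2]
  · rw [hcb]
    exact ht2 x hx
  · rw [hcb] at hm2 hm3
    exact R_small h hc'' hi hm1 hm2 hm3
  · rw [hcb] at hm2 hm3
    exact R_small h hc'' hi hm1 hm2 (by omega)
  · rw [hcb] at hm2 hm3
    exact R_small h hc'' hi hm1 hm2 (by omega)

end Pool.Agent.W618.IFS
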