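import Mathlib
import Pool.Agent.W618.IFS.Plans

/-!
# Plans of the other words
-/

open Set Topology Filter

namespace Pool.Agent.W618.IFS

variable {X : Type*} [MetricSpace X] {Q : Set X}

/-- Near a safe point the cost does not see the younger cells. -/
theorem safe_cost {s : Geo X} {T a : ℕ} (h : GInv Q s T) (ha : a ≤ T) {x : X}
    (hx : Safe s a T x) {p q : X} (hp : dist p x ≤ 6 * s.η a) (hq : dist q x ≤ 6 * s.η a) :
    Dt s T p q = Dt s a p q := by
  refine h.Dt_eq ha le_rfl fun c hc hca => ?_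
  have hz : ∀ p, dist p x ≤ 6 * s.η a → s.v c p = 0 := by
    intro p hp
    by_contra hne
    have hpos : 0 < s.v c p := lt_of_le_of_ne (h.v0 c hc p) (Ne.symm hne)
    obtain ⟨c0, hc0, hi0, hx0⟩ := h.later hc hca
    have h1 := hx0 p (Or.inl hpos)
    have hbc := birth_le hc
    have haT : a < T := by
      by_contra hcon
      have : a = T := by omega
      subst this
      exact hca hc
    have h2 := hx haT c0 hc0 (by omega)
    have h3 := h.ηr a ha c0 hc0
    have h4 := dist_triangle_left x (s.y c0) p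
    have h5 := h.rpos a ha c0 hc0
    have h6 := h.ηpos a ha
    linarith
  rw [hz p hp, hz q hq]

theorem planN {s : Geo X} {T : ℕ} (h : GInv Q s (T + 1)) {Γ : Set X} (hΓ : Thin Γ) {c' : List ℕ}
    {P : Plan X} (hc' : c' ∈ cl s.i (T + 1)) (hb : birth c' < T) (hi : s.i (birth c') ≤ T)
    (hP : LocOK s (T + 1) Γ c' P) :
    ∃ (P' : Plan X) (F : Set X), Thin F ∧ Γ ⊆ F ∧ LocOK s (T + 1) F (T :: c') P' ∧
      ParOK s (T + 1) F T c' P P' ∧
      ∀ k, T = s.i (birth c') + k + 1 → rg s (birth c') k → ∀ x ∈ s.U (T + 1), x ∈ P.S →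
        Reach (Dt s (birth c' + 1)) (6 * s.η (birth c' + 1)) (P.tgt k) x →
        Safe s (birth c' + 1) (T + 1) x → x ∈ P'.S := by
  classical
  obtain ⟨b, hbdef⟩ : ∃ b, b = birth c' := ⟨_, rfl⟩
  rw [← hbdef] at hb hi ⊢
  have hrg0 : rg s b 0 := by
    have := h.is b (by omega)
    unfold rg; omega
  have hzΓ : P.z ∈ Γ := by
    rw [← hP.p0 0 (by rw [← hbdef]; exact hrg0)]
    exact hP.pΓ 0 (by rw [← hbdef]; exact hrg0) 0 ⟨le_rfl, zero_le_one⟩
  have hcT : T :: c' ∈ cl s.i (T + 1) :=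
    mem_cons' hc' (by omega) (by rw [← hbdef]; exact hi) (by omega)
  by_cases hact : ∃ k, T = s.i b + k + 1 ∧ rg s b k ∧ ∃ x ∈ s.U (T + 1), x ∈ P.S ∧
      Reach (Dt s (b + 1)) (6 * s.η (b + 1)) (P.tgt k) x ∧ Safe s (b + 1) (T + 1) x
  · -- active
    obtain ⟨k, hTk, hk, hne⟩ := hact
    have hkr := hk
    unfold rg at hkr
    set S : Set X := {x | x ∈ s.U (T + 1) ∧ x ∈ P.S ∧
      Reach (Dt s (b + 1)) (6 * s.η (b + 1)) (P.tgt k) x ∧ Safe s (b + 1) (T + 1) x} with hS
    have hSne : S.Nonempty := by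
      obtain ⟨x, hx⟩ := hne
      exact ⟨x, hx⟩
    have hPSne : P.S.Nonempty := by
      obtain ⟨x, hx⟩ := hne
      exact ⟨x, hx.2.1⟩
    obtain ⟨tgt, ht1, ht2⟩ := exists_targets h hSne (fun x hx => hx.1)
    have hη1 := h.ηpos (b + 1) (by omega)
    -- small paths
    have hpath : ∀ l, PathIn (Dt s (T + 1)) (6 * s.η (b + 1))
        (Metric.closedBall (tgt l) (6 * s.η (b + 1))) (P.tgt k) (tgt l) := by
      intro l
      obtain ⟨h1, h2, h3, h4⟩ := ht1 l
      refine PathIn.mono_e h3 fun p hp q hq L hL => ?_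
      rw [safe_cost h (by omega) h4 hp hq]
      exact hL
    choose τ hτ1 hτ2 hτ3 hτ4 hτ5 F hF1 hF2 using hpath
    have hkb : rg s (birth c') k := by rw [← hbdef]; exact hk
    -- heights
    have hhc : hh s c' = (9 / 10) ^ c'.length * s.g b := by unfold hh; rw [← hbdef]
    have hhT : hh s (T :: c') = (9 / 10) ^ c'.length * (9 / 10 * s.g T) := by
      unfold hh; rw [birth_cons, List.length_cons, pow_succ]; ring
    have hpw : (0 : ℝ) < (9 / 10) ^ c'.length := by positivity
    have hgT : 9 / 10 * s.g b < s.g T := h.glow T (by omega) b (by omega) (by omega)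
    have hgb := h.gpos b (by omega)
    have hgT0 := h.gpos T (by omega)
    have hhr : 81 / 100 * hh s c' < hh s (T :: c') := by
      rw [hhc, hhT]
      nlinarith
    have hhpos : 0 < hh s c' := h.hh_pos hc'
    have hK1 := hP.frK
    have hK2 := hP.frK2
    have hK0 := hP.K0
    have hfr0 := hP.fr0
    have hfr1 := hP.fr1
    have hη60 : 60 * s.η (b + 1) ≤ 7 / 10 * hh s (T :: c') := by
      have h1 := h.ηg (b + 1) (by omega)
      have h2 : (9 / 10 : ℝ) ^ (b + 1) ≤ (9 / 10) ^ (c'.length + 1) :=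
        pow_le_pow_of_le_one (by norm_num) (by norm_num)
          (by have := length_le_birth hc'; omega)
      have h3 : s.g (b + 1) ≤ s.g b := (h.gdec b (by omega)).le
      have h4 := h.gpos (b + 1) (by omega)
      have h5 : (9 / 10 : ℝ) ^ (b + 1) * s.g (b + 1) ≤ (9 / 10) ^ (c'.length + 1) * s.g b :=
        mul_le_mul h2 h3 h4.le (by positivity)
      have h6 : (9 / 10 : ℝ) ^ (c'.length + 1) * s.g b = 9 / 10 * hh s c' := by
        rw [hhc, pow_succ]; ring
      nlinarith
    -- the new cost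
    obtain ⟨K', hK'⟩ : ∃ K', K' = max (10 / 9 * ((1 - P.fr) * P.K)) (60 * s.η (b + 1)) := ⟨_, rfl⟩
    have hK'1 : 10 / 9 * ((1 - P.fr) * P.K) ≤ K' := by rw [hK']; exact le_max_left _ _
    have hK'2 : 60 * s.η (b + 1) ≤ K' := by rw [hK']; exact le_max_right _ _
    have hK'3 : K' ≤ 7 / 10 * hh s (T :: c') := by
      rw [hK']
      refine max_le ?_ hη60
      linarith
    have hK'0 : 0 ≤ K' := le_trans (by positivity) hK'2
    -- the remaining path
    have hsub : ∀ u ∈ Icc (0 : ℝ) 1, P.fr + (1 - P.fr) * u ∈ Icc (0 : ℝ) 1 := by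
      rintro u ⟨hu0, hu1⟩
      constructor <;> nlinarith
    have hsub2 : ∀ u ∈ Icc (0 : ℝ) 1, P.fr * u ∈ Icc (0 : ℝ) 1 := by
      rintro u ⟨hu0, hu1⟩
      constructor <;> nlinarith
    have hrem : Continuous fun u => P.pth k (P.fr + (1 - P.fr) * u) :=
      (hP.pc k hkb).comp (by fun_prop)
    have hremc : ∀ u ∈ Icc (0 : ℝ) 1, ∀ w ∈ Icc (0 : ℝ) 1,
        Dt s (T + 1) (P.pth k (P.fr + (1 - P.fr) * u)) (P.pth k (P.fr + (1 - P.fr) * w)) ≤
          (1 - P.fr) * P.K * |u - w| := by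
      intro u hu w hw
      have h1 := hP.pD k hkb _ (hsub u hu) _ (hsub w hw)
      have h2 : |P.fr + (1 - P.fr) * u - (P.fr + (1 - P.fr) * w)| = (1 - P.fr) * |u - w| := by
        rw [show P.fr + (1 - P.fr) * u - (P.fr + (1 - P.fr) * w) = (1 - P.fr) * (u - w) by ring,
          abs_mul, abs_of_nonneg (by linarith)]
      rw [h2] at h1
      linarith
    have hend : P.pth k (P.fr + (1 - P.fr) * 1) = P.tgt k := by
      rw [show P.fr + (1 - P.fr) * 1 = 1 by ring]; exact hP.p1 k hkb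
    have hjoin : ∀ l, (fun u => P.pth k (P.fr + (1 - P.fr) * u)) 1 = τ l 0 := by
      intro l; rw [hτ2 l]; exact hend
    -- the small region
    obtain ⟨ctr2, rad2, hreg⟩ : ∃ (ctr2 : X) (rad2 : ℝ), (P.fr = 1 ∧ ctr2 = P.tgt k ∧
        rad2 = 14 * s.η (b + 1)) ∨ (P.fr ≠ 1 ∧ ctr2 = P.ctr2 ∧ rad2 = P.rad2) := by
      by_cases hf : P.fr = 1
      · exact ⟨_, _, Or.inl ⟨hf, rfl, rfl⟩⟩
      · exact ⟨_, _, Or.inr ⟨hf, rfl, rfl⟩⟩
    have htk := hP.tS hPSne k hkb
    have hSB := hP.SB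
    rw [← hbdef] at hSB
    have hreg1 : Metric.closedBall ctr2 rad2 ⊆ Metric.closedBall P.ctr2 P.rad2 := by
      rcases hreg with ⟨-, rfl, rfl⟩ | ⟨-, rfl, rfl⟩
      · have := hSB _ htk
        exact Metric.closedBall_subset_closedBall' (by linarith)
      · exact Subset.rfl
    have hreg2 : ∀ u ∈ Icc (0 : ℝ) 1, P.pth k (P.fr + (1 - P.fr) * u) ∈
        Metric.closedBall ctr2 rad2 := by
      intro u hu
      rcases hreg with ⟨hf, rfl, rfl⟩ | ⟨hf, rfl, rfl⟩
      · rw [hf, show (1 : ℝ) + (1 - 1) * u = 1 by ring, hP.p1 k hkb]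
        exact Metric.mem_closedBall_self (by positivity)
      · exact hP.pB k hkb _ (hsub u hu)
    have hreg3 : ∀ x ∈ S, ∀ p, dist p x ≤ 6 * s.η (b + 1) → p ∈ Metric.closedBall ctr2 rad2 := by
      intro x hx p hp
      rw [Metric.mem_closedBall]
      rcases hreg with ⟨hf, rfl, rfl⟩ | ⟨hf, rfl, rfl⟩
      · have h1 := hx.2.2.1.dist_le
        have h2 := dist_triangle p x (P.tgt k)
        rw [dist_comm x (P.tgt k)] at h2
        linarith
      · have h1 := hSB x hx.2.1
        have h2 := dist_triangle p x P.ctr2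
        linarith
    have hηT : s.η (T + 1) ≤ s.η (b + 1) / 2 := by
      have h1 := h.ηm T (by omega)
      have h2 := h.η_anti (a := b + 1) (b := T) (by omega) (by omega)
      linarith
    have hηT0 := h.ηpos (T + 1) le_rfl
    have hreg4 : ∀ x ∈ S, dist x ctr2 + 14 * s.η (T + 1) ≤ rad2 := by
      intro x hx
      rcases hreg with ⟨hf, rfl, rfl⟩ | ⟨hf, rfl, rfl⟩
      · have h1 := hx.2.2.1.dist_le
        rw [dist_comm]
        linarith
      · have h1 := hSB x hx.2.1
        linarith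
    have hzreg : P.pth k P.fr ∈ Metric.closedBall ctr2 rad2 := by
      have := hreg2 0 ⟨le_rfl, zero_le_one⟩
      rwa [mul_zero, add_zero] at this
    -- radius bounds
    have hR2 : ∀ m, 1 ≤ m → m ≤ T → s.i m ≤ T → s.i (s.i m) ≤ T → rad2 ≤ (1 / 2) ^ m := by
      intro m hm1 hm2 hm3 hm4
      have h1 : s.i m ≤ b := by
        have := h.lt_of_i_lt (a := s.i m) (b := b + 1) (by omega) (by omega)
        omega
      have h2 := h.i_lt (b := m) (by omega)
      rcases hreg with ⟨hf, rfl, rfl⟩ | ⟨hf, rfl, rfl⟩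
      · refine (h.η2 (b + 1) (by omega)).trans ?_
        exact pow_le_pow_of_le_one (by norm_num) (by norm_num) (by omega)
      · exact hP.R1 hf m hm1 (by omega) (by omega)
    have hR3 : ∀ m, 1 ≤ m → m ≤ T → s.i m ≤ T → s.i (s.i m) ≤ T → s.i (s.i (s.i m)) ≤ T →
        P.rad2 ≤ (1 / 2) ^ m := by
      intro m hm1 hm2 hm3 hm4 hm5
      have h1 : s.i (s.i m) ≤ b := by
        have := h.lt_of_i_lt (a := s.i (s.i m)) (b := b + 1) (by omega) (by omega)
        omega
      have h2 := h.i_lt (b := m) (by omega)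
      have h3 := h.i_lt (b := s.i m) (by omega)
      exact hP.R2 m hm1 (by omega) (by omega) (by omega)
    have hq : ∀ l, ∃ q : ℝ → X, Continuous q ∧ q 0 = P.pth k P.fr ∧ q 1 = tgt l ∧
        (∀ u ∈ Icc (0 : ℝ) 1, ∀ w ∈ Icc (0 : ℝ) 1, Dt s (T + 1) (q u) (q w) ≤ K' * |u - w|) ∧
        (∀ u ∈ Icc (0 : ℝ) 1, q u ∈ Metric.closedBall ctr2 rad2) ∧
        (∀ u ∈ Icc (0 : ℝ) 1, q u ∈ Γ ∪ F l) := by
      intro l
      refine ⟨cat (9 / 10) (fun u => P.pth k (P.fr + (1 - P.fr) * u)) (τ l),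
        cat_cont (by norm_num) hrem (hτ1 l) (hjoin l), ?_, ?_, ?_, ?_, ?_⟩
      · rw [cat_zero (by norm_num)]
        simp
      · rw [cat_one (by norm_num)]
        exact hτ3 l
      · exact cat_cost (by norm_num) (by norm_num) (hjoin l) (h.pm le_rfl) (K1 := (1 - P.fr) * P.K)
          (K2 := 6 * s.η (b + 1)) (by linarith) (by linarith) hremc (hτ4 l)
      · exact cat_mem (by norm_num) (by norm_num) hreg2
          (fun u hu => hreg3 _ (ht1 l) _ (hτ5 l u hu))
      · exact cat_mem (by norm_num) (by norm_num)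
          (fun u hu => Or.inl (hP.pΓ k hkb _ (hsub u hu))) (fun u hu => Or.inr (hF2 l u hu))
    choose q hq1 hq2 hq3 hq4 hq5 hq6 using hq
    have hσD : ∀ u ∈ Icc (0 : ℝ) 1, ∀ w ∈ Icc (0 : ℝ) 1,
        Dt s (T + 1) (P.pth k (P.fr * u)) (P.pth k (P.fr * w)) ≤ P.fr * P.K * |u - w| := by
      intro u hu w hw
      have h1 := hP.pD k hkb _ (hsub2 u hu) _ (hsub2 w hw)
      have h2 : |P.fr * u - P.fr * w| = P.fr * |u - w| := by
        rw [← mul_sub, abs_mul, abs_of_nonneg hfr0]
      rw [h2] at h1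
      linarith
    have hhT0 := h.hh_pos hcT
    have hkc : P.fr * P.K < hh s (T :: c') := by linarith
    refine ⟨{
      z := P.pth k P.fr
      S := S
      tgt := tgt
      pth := q
      K := K'
      fr := 1
      ctr2 := ctr2
      rad2 := rad2
      ctr := P.ctr2
      rad := P.rad2
      σ := fun u => P.pth k (P.fr * u)
      kc := P.fr * P.K }, Γ ∪ ⋃ l ∈ Finset.range (s.i (T + 1)), F l,
      hΓ.union (thin_biUnion _ _ fun l _ => hF1 l), subset_union_left, ?_, ?_, ?_⟩
    · refine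
      { pc := fun l _ => hq1 l
        p0 := fun l _ => hq2 l
        p1 := fun l _ => hq3 l
        pD := fun l _ => hq4 l
        pB := fun l _ => hq5 l
        pΓ := fun l hl u hu => ?_
        K0 := hK'0
        fr0 := zero_le_one
        fr1 := le_rfl
        frK := ?_
        frK2 := ?_
        zB := hzreg
        BB := hreg1
        SB := hreg4
        tS := fun _ l _ => ht1 l
        Q := ht2
        R1 := fun hne => absurd rfl hne
        R2 := hR2
        R3 := hR3 }
      · rcases hq6 l u hu with h1 | h1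
        · exact Or.inl h1
        · refine Or.inr (mem_iUnion₂.2 ⟨l, Finset.mem_range.2 ?_, h1⟩)
          rw [birth_cons] at hl
          unfold rg at hl
          omega
      · show 1 * K' ≤ _
        linarith
      · show (1 - 1) * K' ≤ _
        linarith
    · refine
      { σc := (hP.pc k hkb).comp (by fun_prop)
        σ0 := ?_
        σ1 := ?_
        σD := hσD
        σB := fun u hu => hP.pB k hkb _ (hsub2 u hu)
        σΓ := fun u hu => Or.inl (hP.pΓ k hkb _ (hsub2 u hu))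
        kh := hkc
        nest := fun _ => hP.BB }
      · show P.pth k (P.fr * 0) = P.z
        rw [mul_zero]; exact hP.p0 k hkb
      · show P.pth k (P.fr * 1) = P.pth k P.fr
        rw [mul_one]
    · intro k' hk1 hk2 x hxU hxS hxR hxs
      have : k' = k := by omega
      subst this
      exact ⟨hxU, hxS, hxR, hxs⟩
  · -- idle
    refine ⟨idle P.z, Γ, hΓ, Subset.rfl, idle_ok h le_rfl hzΓ hcT,
      idle_par h le_rfl hcT hzΓ (hP.BB hP.zB), ?_⟩
    intro k hk1 hk2 x hxU hxS hxR hxs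
    exact absurd ⟨k, hk1, hk2, x, hxU, hxS, hxR, hxs⟩ hact

end Pool.Agent.W618.IFS
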