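import Mathlib
import Pool.Agent.W618.IFS.GeoStep
import Pool.Agent.W618.IFS.PlanE
import Pool.Agent.W618.IFS.PlanN

/-!
# One step of the whole construction
-/

open Set Topology Filter

namespace Pool.Agent.W618.IFS

variable {X : Type*} [MetricSpace X] {Q : Set X}

/-- The invariants of the plans. -/
structure PInv (s : Geo X) (pl : Fin 2 → List ℕ → Plan X) (Γ : Set X) (T : ℕ) : Prop where
  thin : Thin Γ
  loc : ∀ j, ∀ c ∈ cl s.i T, birth c < T → LocOK s T Γ c (pl j c)
  par : ∀ j u c, u :: c ∈ cl s.i T → u < T → ParOK s T Γ u c (pl j c) (pl j (u :: c))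
  ez : ∀ j, ∀ c ∈ cl s.i T, birth c < T → tg j c ∈ cl s.i T → (pl j c).z = s.y (tg j c)
  er : ∀ j, ∀ c ∈ cl s.i T, birth c < T → c ≠ [] → tg j c ∈ cl s.i T →
    Metric.closedBall (s.y (tg j c)) (s.R (birth (tg j c)) (tg j c)) ⊆
      Metric.closedBall (pl j c).ctr (pl j c).rad
  r0 : 0 < T → (pl 0 []).S = ∅
  dens : 1 ≤ T → ∀ x ∈ s.U T, ∃ j, ∃ c ∈ cl s.i T, birth c < T ∧ ∃ k, rg s (birth c) k ∧
    T < s.i (birth c) + 2 + k ∧ x ∈ (pl j c).S ∧
    Reach (Dt s (birth c + 1)) (6 * s.η (birth c + 1)) ((pl j c).tgt k) x ∧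
    Safe s (birth c + 1) T x

theorem LocOK.transfer {s s' : Geo X} {T : ℕ} (hagr : Agr s s' T) {Γ : Set X} {c : List ℕ}
    (hb : birth c < T) (hD : ∀ p ∈ Γ, ∀ q ∈ Γ, Dt s' (T + 1) p q = Dt s T p q) {P : Plan X}
    (hP : LocOK s T Γ c P) : LocOK s' (T + 1) Γ c P := by
  have hrg : ∀ k, rg s' (birth c) k ↔ rg s (birth c) k := by
    intro k
    unfold rg
    rw [hagr.i _ (by omega), hagr.i _ (by omega)]
  have hh' : hh s' c = hh s c := hagr.hh hb.le
  refine
  { pc := fun k hk => hP.pc k ((hrg k).1 hk)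
    p0 := fun k hk => hP.p0 k ((hrg k).1 hk)
    p1 := fun k hk => hP.p1 k ((hrg k).1 hk)
    pD := fun k hk u hu w hw => ?_
    pB := fun k hk => hP.pB k ((hrg k).1 hk)
    pΓ := fun k hk => hP.pΓ k ((hrg k).1 hk)
    K0 := hP.K0
    fr0 := hP.fr0
    fr1 := hP.fr1
    frK := by rw [hh']; exact hP.frK
    frK2 := by rw [hh']; exact hP.frK2
    zB := hP.zB
    BB := hP.BB
    SB := ?_
    tS := fun hS k hk => hP.tS hS k ((hrg k).1 hk)
    Q := fun x hx => ?_
    R1 := fun hf m hm1 hm2 hm3 => ?_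
    R2 := fun m hm1 hm2 hm3 hm4 => ?_
    R3 := fun m hm1 hm2 hm3 hm4 hm5 => ?_ }
  · rw [hD _ (hP.pΓ k ((hrg k).1 hk) u hu) _ (hP.pΓ k ((hrg k).1 hk) w hw)]
    exact hP.pD k ((hrg k).1 hk) u hu w hw
  · rw [hagr.η _ (by omega)]; exact hP.SB
  · obtain ⟨k, hk, hkx⟩ := hP.Q x hx
    refine ⟨k, (hrg k).2 hk, ?_⟩
    rw [hagr.η _ (by omega), hagr.Dt (t := birth c + 1) (by omega)]
    exact hkx
  · rw [hagr.i m (by omega)] at hm3
    exact hP.R1 hf m hm1 hm2 hm3
  · rw [hagr.i m (by omega)] at hm3 hm4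
    rw [hagr.i (s.i m) (by omega)] at hm4
    exact hP.R2 m hm1 hm2 hm3 hm4
  · rw [hagr.i m (by omega)] at hm3 hm4 hm5
    rw [hagr.i (s.i m) (by omega)] at hm4 hm5
    rw [hagr.i (s.i (s.i m)) (by omega)] at hm5
    exact hP.R3 m hm1 hm2 hm3 hm4 hm5

theorem ParOK.transfer {s s' : Geo X} {T : ℕ} (hagr : Agr s s' T) {Γ : Set X} {u : ℕ}
    {c : List ℕ} (hb : u ≤ T)
    (hD : ∀ p ∈ Γ, ∀ q ∈ Γ, Dt s' (T + 1) p q = Dt s T p q) {P0 P : Plan X}
    (hP : ParOK s T Γ u c P0 P) : ParOK s' (T + 1) Γ u c P0 P := by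
  refine
  { σc := hP.σc
    σ0 := hP.σ0
    σ1 := hP.σ1
    σD := fun a ha b hb => ?_
    σB := hP.σB
    σΓ := hP.σΓ
    kh := ?_
    nest := hP.nest }
  · rw [hD _ (hP.σΓ a ha) _ (hP.σΓ b hb)]
    exact hP.σD a ha b hb
  · rw [hagr.hh (c := u :: c) hb]
    exact hP.kh

theorem ParOK.congr0 {s : Geo X} {t u : ℕ} {Γ : Set X} {c : List ℕ} {P0 P0' P : Plan X}
    (h : ParOK s t Γ u c P0 P) (he : P0 = P0') : ParOK s t Γ u c P0' P := he ▸ h

theorem step (hCC : ∀ (y : X) (R : ℝ), 0 < R → ∃ r, 0 < r ∧ r ≤ R / 4 ∧ CCat Q y R r)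
    {s : Geo X} {pl : Fin 2 → List ℕ → Plan X} {Γ : Set X} {T : ℕ} (h : GInv Q s T)
    (hp : PInv s pl Γ T) (hroot : ∀ x, dist x (s.y []) < s.r 0 []) :
    ∃ (s' : Geo X) (pl' : Fin 2 → List ℕ → Plan X) (Γ' : Set X), Agr s s' T ∧
      (∀ j c, birth c < T → pl' j c = pl j c) ∧ GInv Q s' (T + 1) ∧ PInv s' pl' Γ' (T + 1) := by
  classical
  obtain ⟨s', hagr, h', hE, hvΓ⟩ := geo_step hCC h hp.thin
  have hcl : ∀ t ≤ T + 1, cl s'.i t = cl s.i t := fun t ht => hagr.cl ht
  have hDΓ : ∀ p ∈ Γ, ∀ q ∈ Γ, Dt s' (T + 1) p q = Dt s T p q := by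
    intro p hp q hq
    rw [h'.Dt_eq (a := T) (by omega) le_rfl, hagr.Dt le_rfl]
    intro c hc hcT
    obtain ⟨c0, hc0, hi0, rfl⟩ := new_iff.1 ⟨hc, hcT⟩
    rw [hcl T (by omega)] at hc0
    rw [hagr.i _ (birth_le hc0)] at hi0
    rw [hvΓ c0 hc0 hi0 p hp, hvΓ c0 hc0 hi0 q hq]
  have hloc : ∀ j, ∀ c ∈ cl s.i T, birth c < T → LocOK s' (T + 1) Γ c (pl j c) :=
    fun j c hc hb => (hp.loc j c hc hb).transfer hagr hb hDΓ
  have hi0 : s'.i 0 = 1 := h'.i0
  -- the plans of the new words
  have hnew : ∀ j, ∀ c ∈ cl s.i T, birth c = T → ∃ (P : Plan X) (F : Set X), Thin F ∧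
      LocOK s' (T + 1) F c P ∧ (∀ u c', c = u :: c' → ParOK s' (T + 1) F u c' (pl j c') P) ∧
      (tg j c ∈ cl s'.i (T + 1) → P.z = s'.y (tg j c) ∧ (c ≠ [] →
        Metric.closedBall (s'.y (tg j c)) (s'.R (birth (tg j c)) (tg j c)) ⊆
          Metric.closedBall P.ctr P.rad)) ∧
      (∀ c'' ∈ cl s'.i T, s'.i (birth c'') ≤ T + 1 → tg j c = (T + 1) :: c'' →
        ∀ x ∈ s'.U (T + 1), dist x (s'.y c'') < s'.r T c'' → x ∈ P.S) ∧
      (∀ u c', c = u :: c' → tg j c ∉ cl s'.i (T + 1) → ∀ k, T = s'.i (birth c') + k + 1 →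
        rg s' (birth c') k → ∀ x ∈ s'.U (T + 1), x ∈ (pl j c').S →
        Reach (Dt s' (birth c' + 1)) (6 * s'.η (birth c' + 1)) ((pl j c').tgt k) x →
        Safe s' (birth c' + 1) (T + 1) x → x ∈ P.S) ∧ (j = 0 → c = [] → P.S = ∅) := by
    intro j c hc hb
    by_cases htg : tg j c ∈ cl s'.i (T + 1)
    · by_cases hj : j = 0 ∧ c = []
      · obtain ⟨rfl, rfl⟩ := hj
        have hT0 : T = 0 := hb.symm
        subst hT0
        obtain ⟨σ, -, hσ0, -, -, -, F, hF, hFσ⟩ := hE.a [] (nil_mem _) (by rw [birth_nil, hi0])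
        have hz : s'.y [] ∈ F := by rw [← hσ0]; exact hFσ 0 ⟨le_rfl, zero_le_one⟩
        refine ⟨idle (s'.y []), F, hF, idle_ok h' le_rfl hz (nil_mem _),
          fun u c' hcon => absurd hcon.symm (List.cons_ne_nil _ _), fun _ => ⟨rfl, fun hne =>
          absurd rfl hne⟩, fun c'' _ _ hcon => ?_, fun u c' hcon =>
          absurd hcon.symm (List.cons_ne_nil _ _), fun _ _ => rfl⟩
        rw [tg_zero_nil] at hcon
        exact absurd hcon.symm (List.cons_ne_nil _ _)
      · have hbt := birth_tg j c hj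
        rw [hb] at hbt
        obtain ⟨c'', hc''e⟩ : ∃ c'', tg j c = (T + 1) :: c'' := by
          rcases htc : tg j c with _ | ⟨t, c''⟩
          · rw [htc] at hbt
            simp at hbt
          · rw [htc, birth_cons] at hbt
            rw [hbt]
            exact ⟨c'', rfl⟩
        have htg' := htg
        rw [hc''e] at htg'
        obtain ⟨-, -, hc'', hic''⟩ := cons_mem htg'
        rw [Nat.add_sub_cancel] at hc''
        have hlen : c.length ≤ c''.length + 1 := by
          have := length_tg j c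
          rwa [hc''e, List.length_cons] at this
        obtain ⟨P, F, hF, hP1, hP2, hP3, hP4, hP5, hP6, hP7, hP8, hP9, hP10, hP11, hP12⟩ :=
          planE h' hE hb hc'' hic'' hlen
        refine ⟨P, F, hF, hP1, ?_, ?_, ?_, ?_, fun h1 h2 => absurd ⟨h1, h2⟩ hj⟩
        · intro u c' hcu
          have huT : u = T := by rw [hcu] at hb; exact hb
          subst hcu
          subst huT
          obtain ⟨hu1, -, hc', hic'⟩ := cons_mem hc
          have hbc' := birth_le hc'
          rw [tg_cons] at hc''e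
          have hc''e' : tg j c' = c'' := (List.cons.inj hc''e).2
          have hc'T : c' ∈ cl s.i u := cl_mono_le (by omega) hc'
          have htT : tg j c' ∈ cl s.i u := by rw [hc''e', ← hcl u (by omega)]; exact hc''
          refine
          { σc := hP2
            σ0 := ?_
            σ1 := hP4
            σD := hP5
            σB := hP6
            σΓ := hP7
            kh := hP8
            nest := fun hne => ?_ }
          · rw [hP3, hp.ez j c' hc'T (by omega) htT, hc''e']
            exact hagr.y c'' (birth_le hc'')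
          · have h1 := hp.er j c' hc'T (by omega) hne htT
            rw [hc''e'] at h1
            rw [hP10, hP11]
            refine Subset.trans ?_ h1
            rw [hagr.y c'' (birth_le hc''), hagr.R u le_rfl]
            refine Metric.closedBall_subset_closedBall ?_
            rw [hcl u (by omega)] at hc''
            exact (h.r_anti (mem_birth hc'') (birth_le hc'') le_rfl).2
        · intro _
          refine ⟨by rw [hP9, hc''e], fun _ => ?_⟩
          rw [hP10, hP11, hc''e, birth_cons]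
          intro x hx
          have h1 := h'.nest (T + 1) c'' htg' x (Or.inr hx)
          rw [Nat.add_sub_cancel] at h1
          have h2 := h'.rpos T (by omega) c'' hc''
          rw [Metric.mem_closedBall]
          linarith [h2.1, h2.2]
        · intro c2 _ _ hc2
          rw [hc''e] at hc2
          have : c2 = c'' := (List.cons.inj hc2).2.symm
          subst this
          exact hP12
        · intro u c' _ hcon
          exact absurd htg hcon
    · obtain _ | ⟨u, c'⟩ := c
      · exfalso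
        have hT0 : T = 0 := hb.symm
        subst hT0
        fin_cases j
        · exact htg (nil_mem _)
        · exact htg (mem_cons (nil_mem _) (by rw [birth_nil, hi0]))
      · have huT : u = T := hb
        subst huT
        obtain ⟨hu1, -, hc', hic'⟩ := cons_mem hc
        have hbc' := birth_le hc'
        have hc'T : c' ∈ cl s.i u := cl_mono_le (by omega) hc'
        have hlc := hloc j c' hc'T (by omega)
        obtain ⟨P, F, hF, hΓF, hP1, hP2, hP3⟩ := planN (P := pl j c') h' hp.thin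
          (by rw [hcl _ le_rfl]; exact cl_mono _ hc'T) (by omega)
          (by rw [hagr.i _ (by omega)]; exact hic') hlc
        refine ⟨P, F, hF, hP1, ?_, fun hcon => absurd hcon htg, ?_, ?_,
          fun _ h2 => absurd h2 (List.cons_ne_nil _ _)⟩
        · intro u1 c1 hcu
          obtain ⟨rfl, rfl⟩ := List.cons.inj hcu
          exact hP2
        · intro c'' hc'' hic'' hcon
          exact absurd (by rw [hcon]; exact mem_cons hc'' hic'') htg
        · intro u1 c1 hcu _
          obtain ⟨rfl, rfl⟩ := List.cons.inj hcu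
          exact hP3
  have : Nonempty (Plan X) := ⟨idle (s.y [])⟩
  choose! Pn Fn hn1 hn2 hn3 hn4 hn5 hn6 hn7 using hnew
  obtain ⟨A, hA⟩ : ∃ A, A = (cl s.i T).filter (fun c => birth c = T) := ⟨_, rfl⟩
  have hAm : ∀ c, c ∈ A ↔ c ∈ cl s.i T ∧ birth c = T := by
    intro c; rw [hA, Finset.mem_filter]
  obtain ⟨Γ', hΓ'⟩ : ∃ Γ', Γ' = Γ ∪ ⋃ c ∈ A, (Fn 0 c ∪ Fn 1 c) := ⟨_, rfl⟩
  have hΓΓ' : Γ ⊆ Γ' := by rw [hΓ']; exact subset_union_left
  have hFΓ' : ∀ j, ∀ c ∈ cl s.i T, birth c = T → Fn j c ⊆ Γ' := by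
    intro j c hc hb x hx
    rw [hΓ']
    refine Or.inr (mem_iUnion₂.2 ⟨c, (hAm c).2 ⟨hc, hb⟩, ?_⟩)
    fin_cases j
    · exact Or.inl hx
    · exact Or.inr hx
  obtain ⟨pl', hpl'⟩ : ∃ pl' : Fin 2 → List ℕ → Plan X,
    pl' = fun j c => if birth c = T then Pn j c else pl j c := ⟨_, rfl⟩
  have hplo : ∀ j c, birth c < T → pl' j c = pl j c := by
    intro j c hb
    rw [hpl']
    exact if_neg (by omega)
  have hpln : ∀ j c, birth c = T → pl' j c = Pn j c := by
    intro j c hb
    rw [hpl']
    exact if_pos hb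
  clear hpl'
  refine ⟨s', pl', Γ', hagr, hplo, h', ?_⟩
  have hmemT : ∀ c ∈ cl s'.i (T + 1), birth c < T + 1 → c ∈ cl s.i T := by
    intro c hc hb
    rw [hcl _ le_rfl] at hc
    exact mem_of_birth_le hc (by omega)
  have hLoc : ∀ j, ∀ c ∈ cl s'.i (T + 1), birth c < T + 1 → LocOK s' (T + 1) Γ' c (pl' j c) := by
    intro j c hc hb
    have hcT := hmemT c hc hb
    rcases (Nat.lt_succ_iff.1 hb).lt_or_eq with hb' | hb'
    · rw [hplo j c hb']
      exact (hloc j c hcT hb').mono hΓΓ'
    · rw [hpln j c hb']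
      exact (hn2 j c hcT hb').mono (hFΓ' j c hcT hb')
  refine
  { thin := ?_
    loc := hLoc
    par := ?_
    ez := ?_
    er := ?_
    r0 := ?_
    dens := ?_ }
  · rw [hΓ']
    refine hp.thin.union (thin_biUnion _ _ fun c hc => ?_)
    have hc' := (hAm c).1 hc
    exact (hn1 0 c hc'.1 hc'.2).union (hn1 1 c hc'.1 hc'.2)
  · -- par
    intro j u c hc hu
    have hcT := hmemT _ hc hu
    obtain ⟨hu1, -, hc1, -⟩ := cons_mem hcT
    have hbc := birth_le hc1
    rcases (Nat.lt_succ_iff.1 hu).lt_or_eq with hb' | hb'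
    · rw [hplo j c (by omega), hplo j (u :: c) hb']
      exact ((hp.par j u c hcT hb').transfer hagr hb'.le hDΓ).mono hΓΓ'
    · rw [hplo j c (by omega), hpln j (u :: c) hb']
      exact (hn3 j (u :: c) hcT hb' u c rfl).mono (hFΓ' j _ hcT hb')
  · -- ez
    intro j c hc hb htg
    have hcT := hmemT c hc hb
    rcases (Nat.lt_succ_iff.1 hb).lt_or_eq with hb' | hb'
    · have hbt := birth_tg_le j c
      rw [hcl _ le_rfl] at htg
      have htT : tg j c ∈ cl s.i T := mem_of_birth_le htg (by omega)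
      rw [hplo j c hb', hagr.y _ (by omega)]
      exact hp.ez j c hcT hb' htT
    · rw [hpln j c hb']
      exact (hn4 j c hcT hb' htg).1
  · -- er
    intro j c hc hb hne htg
    have hcT := hmemT c hc hb
    rcases (Nat.lt_succ_iff.1 hb).lt_or_eq with hb' | hb'
    · have hbt := birth_tg_le j c
      rw [hcl _ le_rfl] at htg
      have htT : tg j c ∈ cl s.i T := mem_of_birth_le htg (by omega)
      rw [hplo j c hb', hagr.y _ (by omega), hagr.R _ (by omega)]
      exact hp.er j c hcT hb' hne htT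
    · rw [hpln j c hb']
      exact (hn4 j c hcT hb' htg).2 hne
  · -- r0
    intro _
    rcases Nat.eq_zero_or_pos T with hT0 | hT0
    · rw [hpln 0 [] hT0.symm]
      exact hn7 0 [] (nil_mem _) hT0.symm rfl rfl
    · rw [hplo 0 [] hT0]
      exact hp.r0 hT0
  · -- dens
    intro _ x hx
    -- a point in the zone of an active cell
    have hzone : ∀ c'' ∈ cl s'.i T, s'.i (birth c'') ≤ T + 1 → dist x (s'.y c'') < s'.r T c'' →
        ∃ j, ∃ c ∈ cl s'.i (T + 1), birth c < T + 1 ∧ ∃ k, rg s' (birth c) k ∧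
        T + 1 < s'.i (birth c) + 2 + k ∧ x ∈ (pl' j c).S ∧
        Reach (Dt s' (birth c + 1)) (6 * s'.η (birth c + 1)) ((pl' j c).tgt k) x ∧
        Safe s' (birth c + 1) (T + 1) x := by
      intro c'' hc'' hic'' hxc
      have hq := mem_cons hc'' hic''
      obtain ⟨j, c, hc1, hc2, hc3⟩ := exists_word hi0 (fun b hb => by
        have := h'.is b (by omega); omega) hq rfl
      have hcT : c ∈ cl s.i T := by rw [← hcl T (by omega)]; exact hc1
      have hxS := hn5 j c hcT hc2 c'' hc'' hic'' hc3 x hx hxc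
      obtain ⟨k, hk, hkx⟩ := (hn2 j c hcT hc2).Q x hxS
      refine ⟨j, c, cl_mono _ hc1, by omega, k, hk, ?_, ?_, ?_, ?_⟩
      · have := h'.i_lt (b := T) (by omega)
        rw [hc2]; omega
      · rw [hpln j c hc2]; exact hxS
      · rw [hpln j c hc2]; exact hkx
      · intro hcon
        rw [hc2] at hcon
        exact absurd hcon (lt_irrefl _)
    rcases Nat.eq_zero_or_pos T with hT0 | hT0
    · subst hT0
      refine hzone [] (nil_mem _) (by rw [birth_nil, hi0]) ?_
      rw [hagr.y [] (Nat.zero_le _), hagr.r 0 le_rfl]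
      exact hroot x
    · have hxT : x ∈ s.U T := by
        rw [← hagr.U T le_rfl]
        exact h'.Um T (by omega) hx
      obtain ⟨j, c, hc, hb, k, hk, htk, hxS, hxR, hxs⟩ := hp.dens hT0 x hxT
      by_cases hsafe : Safe s' (birth c + 1) (T + 1) x
      · have hk' : rg s' (birth c) k := by
          unfold rg at hk ⊢
          rw [hagr.i _ (by omega), hagr.i _ (by omega)]; exact hk
        have hxR' : Reach (Dt s' (birth c + 1)) (6 * s'.η (birth c + 1)) ((pl j c).tgt k) x := by
          rw [hagr.Dt (t := birth c + 1) (by omega), hagr.η _ (by omega)]; exact hxR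
        rcases (Nat.lt_iff_add_one_le.1 htk).lt_or_eq with h1 | h1
        · -- still pending
          refine ⟨j, c, ?_, by omega, k, hk', ?_, ?_, ?_, hsafe⟩
          · rw [hcl _ le_rfl]; exact cl_mono _ hc
          · rw [hagr.i _ (by omega)]; exact h1
          · rw [hplo j c hb]; exact hxS
          · rw [hplo j c hb]; exact hxR'
        · -- the task is treated now
          have hTc : T :: c ∈ cl s.i T := mem_cons' hc hb (by omega) le_rfl
          have htg : tg j (T :: c) ∉ cl s'.i (T + 1) := by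
            intro hcon
            rw [tg_cons] at hcon
            obtain ⟨-, -, h2, h3⟩ := cons_mem hcon
            by_cases hj : j = 0 ∧ c = []
            · obtain ⟨rfl, rfl⟩ := hj
              rw [hp.r0 hT0] at hxS
              exact hxS
            · rw [birth_tg j c hj, hagr.i _ (by omega)] at h3
              unfold rg at hk
              omega
          have hxn := hn6 j (T :: c) hTc rfl T c rfl htg k (by
            rw [hagr.i _ (by omega)]; omega) hk' x hx hxS hxR' hsafe
          obtain ⟨k', hk1, hk2⟩ := (hn2 j (T :: c) hTc rfl).Q x hxn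
          rw [birth_cons] at hk1 hk2
          refine ⟨j, T :: c, ?_, by rw [birth_cons]; omega, k', ?_, ?_, ?_, ?_, ?_⟩
          · rw [hcl _ le_rfl]; exact cl_mono _ hTc
          · rw [birth_cons]; exact hk1
          · rw [birth_cons]
            have := h'.i_lt (b := T) (by omega)
            omega
          · rw [hpln j (T :: c) rfl]; exact hxn
          · rw [hpln j (T :: c) rfl, birth_cons]; exact hk2
          · intro hcon
            rw [birth_cons] at hcon
            exact absurd hcon (lt_irrefl _)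
      · -- the point came into an active zone
        unfold Safe at hsafe
        push Not at hsafe
        obtain ⟨-, c', hc', hic', hdc'⟩ := hsafe
        have hb1 : birth c' ≤ birth c + 1 := birth_le hc'
        refine hzone c' (cl_mono_le (by omega) hc') hic' ?_
        have hc'' : c' ∈ cl s.i (birth c + 1) := by
          rw [← hcl _ (by omega)]; exact hc'
        have hreq : s'.r T c' = s'.r (birth c + 1) c' := by
          rw [hagr.r T le_rfl, hagr.r (birth c + 1) (by omega)]
          rcases (show birth c + 1 ≤ T from hb).eq_or_lt with h2 | h2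
          · rw [h2]
          · refine h.r_inact hc'' h2.le le_rfl ?_
            by_contra hcon
            have h3 := hxs h2 c' hc'' (not_lt.1 hcon)
            rw [hagr.r (birth c + 1) (by omega), hagr.y c' (by omega)] at hdc'
            linarith
        rw [hreq]
        exact hdc'

end Pool.Agent.W618.IFS
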