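import Mathlib
import Pool.Agent.W618.IFS.Step
import Pool.Agent.W618.IFS.Maps

/-!
# The limit of the construction
-/

open Set Topology Filter

namespace Pool.Agent.W618.IFS

open Pool.Agent.H764R3.TopFractal

variable {X : Type*} [MetricSpace X] {Q : Set X}

/-- a complete state -/
abbrev St (X : Type*) := Geo X × (Fin 2 → List ℕ → Plan X) × Set X

/-- the invariants of a complete state -/
def Good (Q : Set X) (T : ℕ) (x : St X) : Prop :=
  GInv Q x.1 T ∧ PInv x.1 x.2.1 x.2.2 T ∧ ∀ a, dist a (x.1.y []) < x.1.r 0 []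

theorem exists_seq (hCC : ∀ (y : X) (R : ℝ), 0 < R → ∃ r, 0 < r ∧ r ≤ R / 4 ∧ CCat Q y R r)
    (x0 : St X) (h0 : Good Q 0 x0) : ∃ f : ℕ → St X, (∀ T, Good Q T (f T)) ∧
      ∀ T, Agr (f T).1 (f (T + 1)).1 T ∧
        ∀ j c, birth c < T → (f (T + 1)).2.1 j c = (f T).2.1 j c := by
  have hstep : ∀ (T : ℕ) (x : St X), Good Q T x → ∃ x' : St X, Good Q (T + 1) x' ∧
      (Agr x.1 x'.1 T ∧ ∀ j c, birth c < T → x'.2.1 j c = x.2.1 j c) := by
    rintro T ⟨s, pl, Γ⟩ ⟨h1, h2, h3⟩
    obtain ⟨s', pl', Γ', h4, h5, h6, h7⟩ := step hCC h1 h2 h3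
    refine ⟨⟨s', pl', Γ'⟩, ⟨h6, h7, ?_⟩, h4, h5⟩
    show ∀ a, dist a (s'.y []) < s'.r 0 []
    rw [h4.y [] (Nat.zero_le _), h4.r 0 (Nat.zero_le _)]
    exact h3
  choose nxt hn1 hn2 using hstep
  let g : (T : ℕ) → {x : St X // Good Q T x} := fun T =>
    Nat.rec (motive := fun T => {x : St X // Good Q T x}) ⟨x0, h0⟩
      (fun T x => ⟨nxt T x.1 x.2, hn1 T x.1 x.2⟩) T
  exact ⟨fun T => (g T).1, fun T => (g T).2, fun T => hn2 T (g T).1 (g T).2⟩

theorem attractor_of_state [CompactSpace X] (hQ : Dense Q)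
    (hCC : ∀ (y : X) (R : ℝ), 0 < R → ∃ r, 0 < r ∧ r ≤ R / 4 ∧ CCat Q y R r)
    (x0 : St X) (h0 : Good Q 0 x0) : IsTopologicalIFSAttractor X := by
  classical
  have : Nonempty X := ⟨x0.1.y []⟩
  obtain ⟨f, hf, hs⟩ := exists_seq hCC x0 h0
  clear h0
  have hagr : ∀ a T, a ≤ T → Agr (f a).1 (f T).1 a := by
    intro a T haT
    induction haT with
    | refl => exact Agr.refl _ _
    | step hm ih =>
      rename_i m
      exact ih.trans ((hs m).1.mono hm)
  have hpl : ∀ j c T, birth c + 1 ≤ T → (f T).2.1 j c = (f (birth c + 1)).2.1 j c := by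
    intro j c T hT
    induction hT with
    | refl => rfl
    | step hm ih =>
      rename_i m
      exact ((hs m).2 j c hm).trans ih
  -- the limit objects
  obtain ⟨I, hI⟩ : ∃ I : ℕ → ℕ, I = fun b => (f b).1.i b := ⟨_, rfl⟩
  obtain ⟨G, hG⟩ : ∃ G : ℕ → ℝ, G = fun b => (f b).1.g b := ⟨_, rfl⟩
  obtain ⟨Y, hY⟩ : ∃ Y : List ℕ → X, Y = fun c => (f (birth c)).1.y c := ⟨_, rfl⟩
  obtain ⟨V, hV⟩ : ∃ V : List ℕ → X → ℝ, V = fun c => (f (birth c)).1.v c := ⟨_, rfl⟩
  obtain ⟨PL, hPL⟩ : ∃ PL : Fin 2 → List ℕ → Plan X,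
    PL = fun j c => (f (birth c + 1)).2.1 j c := ⟨_, rfl⟩
  have hIT : ∀ b T, b ≤ T → (f T).1.i b = I b := fun b T h => by
    rw [hI]; exact (hagr b T h).i b le_rfl
  have hGT : ∀ b T, b ≤ T → (f T).1.g b = G b := fun b T h => by
    rw [hG]; exact (hagr b T h).g b le_rfl
  have hYT : ∀ c T, birth c ≤ T → (f T).1.y c = Y c := fun c T h => by
    rw [hY]; exact (hagr (birth c) T h).y c le_rfl
  have hVT : ∀ c T, birth c ≤ T → (f T).1.v c = V c := fun c T h => by
    rw [hV]; exact (hagr (birth c) T h).v c le_rfl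
  have hPT : ∀ j c T, birth c < T → (f T).2.1 j c = PL j c := fun j c T h => by
    rw [hPL]; exact hpl j c T h
  clear hI hG hY hV hPL
  have hclT : ∀ T t, t ≤ T + 1 → cl (f T).1.i t = cl I t := fun T t ht =>
    cl_congr (fun b hb => hIT b T hb) t ht
  have gi : ∀ T, GInv Q (f T).1 T := fun T => (hf T).1
  have pi : ∀ T, PInv (f T).1 (f T).2.1 (f T).2.2 T := fun T => (hf T).2.1
  -- monotonicity of I
  have hIlt : ∀ b, b < I b := fun b => by
    rw [← hIT b b le_rfl]; exact (gi b).i_lt le_rfl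
  have hImono : ∀ a b, a ≤ b → I a ≤ I b := fun a b hab => by
    rw [← hIT a b hab, ← hIT b b le_rfl]; exact (gi b).i_mono hab le_rfl
  -- heights
  have hGpos : ∀ b, 0 < G b := fun b => by rw [← hGT b b le_rfl]; exact (gi b).gpos b le_rfl
  have hG1 : ∀ b, G b ≤ 1 := fun b => by rw [← hGT b b le_rfl]; exact (gi b).g1 b le_rfl
  have hGanti : ∀ a b, a ≤ b → G b ≤ G a := fun a b hab => by
    rw [← hGT a b hab, ← hGT b b le_rfl]; exact (gi b).g_anti hab le_rfl
  have hGup : ∀ b, G (I b) ≤ 19 / 20 * G b := fun b => by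
    have h1 := hIlt b
    have h2 := (gi (I b)).gup (I b) le_rfl b h1.le (by rw [hIT b (I b) h1.le])
    rwa [hGT (I b) (I b) le_rfl, hGT b (I b) h1.le] at h2
  have hGlim : ∀ ε > 0, ∃ T, ∀ t, T ≤ t → G t ≤ ε := by
    intro ε hε
    have h1 : ∀ n : ℕ, ∃ b, G b ≤ (19 / 20 : ℝ) ^ n := by
      intro n
      induction n with
      | zero => exact ⟨0, by rw [pow_zero]; exact hG1 0⟩
      | succ n ih =>
        obtain ⟨b, hb⟩ := ih
        refine ⟨I b, (hGup b).trans ?_⟩
        rw [pow_succ]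
        linarith
    obtain ⟨n, hn⟩ := exists_pow_lt_of_lt_one hε (show (19 / 20 : ℝ) < 1 by norm_num)
    obtain ⟨b, hb⟩ := h1 n
    exact ⟨b, fun t ht => (hGanti b t ht).trans (hb.trans hn.le)⟩
  have hh_eq : ∀ c T, birth c ≤ T → hh (f T).1 c = (9 / 10 : ℝ) ^ c.length * G (birth c) := by
    intro c T hT
    unfold hh
    rw [hGT _ _ hT]
  have hnew : ∀ T c, c ∈ cl I (T + 1) → c ∉ cl I T → ∃ c0 ∈ cl I T, I (birth c0) ≤ T + 1 ∧
      c = (T + 1) :: c0 := fun T c h1 h2 => new_iff.1 ⟨h1, h2⟩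
  have hmem : ∀ T c, c ∈ cl I T → c ∈ cl (f T).1.i T := fun T c h => by
    rw [hclT T T (Nat.le_succ T)]; exact h
  have hnest : ∀ T c0, (T + 1) :: c0 ∈ cl I (T + 1) → ∀ x, 0 < V ((T + 1) :: c0) x →
      dist x (Y c0) < (f (T + 1)).1.R T c0 ∧ c0 ∈ cl I T := by
    intro T c0 hc x hx
    have h1 := hmem _ _ hc
    obtain ⟨-, -, h3, -⟩ := cons_mem hc
    rw [Nat.add_sub_cancel] at h3
    have hb := birth_le h3
    have h2 := (gi (T + 1)).nest (T + 1) c0 h1 x
      (Or.inl (by rw [hVT _ _ (by rw [birth_cons])]; exact hx))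
    rw [Nat.add_sub_cancel, hYT c0 (T + 1) (by omega)] at h2
    have h4 : c0 ∈ cl (f (T + 1)).1.i T := by rw [hclT (T + 1) T (by omega)]; exact h3
    have h5 := (gi (T + 1)).rpos T (by omega) c0 h4
    exact ⟨by linarith [h5.1, h5.2], h3⟩
  -- the cell system
  let S : CellSys X (List ℕ) :=
  { cells := fun T => cl I T
    o := []
    par := List.tail
    dep := List.length
    y := Y
    v := V
    h := fun c => (9 / 10 : ℝ) ^ c.length * G (birth c)
    θ := 9 / 10
    mono := fun T => cl_mono T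
    zero := rfl
    θ0 := by norm_num
    θ1 := by norm_num
    vcont := fun T c hc => by
      rw [← hVT c T (birth_le hc)]; exact (gi T).vc c (hmem T c hc)
    v0 := fun T c hc x => by
      rw [← hVT c T (birth_le hc)]; exact (gi T).v0 c (hmem T c hc) x
    v1 := fun T c hc x => by
      rw [← hVT c T (birth_le hc)]; exact (gi T).v1 c (hmem T c hc) x
    vo := fun x => by
      rw [← hVT [] 0 le_rfl]; exact (gi 0).vo x
    h0 := fun T c hc => mul_pos (by positivity) (hGpos _)
    par_mem := fun T c hc hcT => by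
      obtain ⟨c0, h1, h2, rfl⟩ := hnew T c hc hcT
      exact h1
    dep_par := fun T c hc hcT => by
      obtain ⟨c0, h1, h2, rfl⟩ := hnew T c hc hcT
      rfl
    hθ := fun T c hc => mul_le_of_le_one_right (by positivity) (hG1 _)
    hlim := fun ε hε => by
      obtain ⟨T, hT⟩ := hGlim ε hε
      refine ⟨T, fun T' c hc hcT => ?_⟩
      have h1 : T ≤ birth c := by
        by_contra hcon
        exact hcT (mem_of_birth_le hc (by omega))
      have h2 := hT _ h1
      have h3 : (9 / 10 : ℝ) ^ c.length ≤ 1 := pow_le_one₀ (by norm_num) (by norm_num)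
      have h4 := hGpos (birth c)
      nlinarith
    B1 := fun T c hc hcT x hx c' hc' => by
      obtain ⟨c0, h1, h2, rfl⟩ := hnew T c hc hcT
      have h3 := (hnest T c0 hc x hx).1
      have hb := birth_le h1
      have hb' := birth_le hc'
      have h4 := (gi (T + 1)).vcon T (by omega) c0 (by rw [hclT _ _ (by omega)]; exact h1) c'
        (by rw [hclT _ _ (by omega)]; exact hc') x
        (by rw [hYT c0 _ (by omega)]; exact h3)
      rw [hVT c' _ (by omega), hYT c0 _ (by omega)] at h4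
      exact h4
    B2 := fun T c hc hcT p hp => by
      obtain ⟨c0, h1, h2, rfl⟩ := hnew T c hc hcT
      have hb := birth_le hp
      have h3 := (gi (T + 1)).vy0 p (hmem _ _ (cl_mono T hp)) _ (hmem _ _ hc)
        (by rintro rfl; exact hcT hp) (by rw [birth_cons]; omega)
      rw [hVT _ _ (by rw [birth_cons]), hYT p _ (by omega)] at h3
      exact h3
    B3 := fun T c hc hcT c' hc' hcT' hne x hx => by
      obtain ⟨c0, h1, h2, rfl⟩ := hnew T c hc hcT
      obtain ⟨c1, h3, h4, rfl⟩ := hnew T c' hc' hcT'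
      have h5 := (gi (T + 1)).v0 _ (hmem _ _ hc') x
      rw [hVT _ _ (by rw [birth_cons])] at h5
      refine le_antisymm (not_lt.1 fun hpos => ?_) h5
      have h6 := (hnest T c0 hc x hx).1
      have h7 := (hnest T c1 hc' x hpos).1
      have hb0 := birth_le h1
      have hb1 := birth_le h3
      refine (gi (T + 1)).disj (t := T) (by omega) (c := c0) (c' := c1)
        (by rw [hclT _ _ (by omega)]; exact h1) (by rw [hclT _ _ (by omega)]; exact h3)
        (fun heq => hne (by rw [heq])) (x := x) ?_ ?_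
      · rw [hYT c0 _ (by omega)]; exact h6
      · rw [hYT c1 _ (by omega)]; exact h7
    B4 := fun T c hc hcT => by
      rw [← hVT c (T + 1) (birth_le hc), ← hYT c (T + 1) (birth_le hc)]
      exact (gi (T + 1)).vy c (hmem _ _ hc) }
  have hρ : ∀ T a b, S.ρ T a b = Dt (f T).1 T a b := by
    intro T a b
    unfold CellSys.ρ Dt
    rw [hclT T T (by omega)]
    refine Finset.sum_congr rfl fun c hc => ?_
    have hb := birth_le hc
    rw [hh_eq c T hb, hVT c T hb]
  -- parents
  have hpar : ∀ j T' u c, u :: c ∈ cl I T' → u < T' →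
      ParOK (f T').1 T' (f T').2.2 u c (PL j c) (PL j (u :: c)) := by
    intro j T' u c hc hu
    obtain ⟨hu1, -, hc1, -⟩ := cons_mem hc
    have hb := birth_le hc1
    have h1 := (pi T').par j u c (hmem _ _ hc) hu
    rw [hPT j c T' (by omega), hPT j (u :: c) T' hu] at h1
    exact h1
  have hloc : ∀ j c T, c ∈ cl I T → birth c < T → LocOK (f T).1 T (f T).2.2 c (PL j c) := by
    intro j c T hc hb
    have h1 := (pi T).loc j c (hmem _ _ hc) hb
    rwa [hPT j c T hb] at h1
  let M : Fin 2 → MapSys S := fun j =>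
  { z := fun c => (PL j c).z
    σ := fun c => (PL j c).σ
    k := fun c => (PL j c).kc
    reg := fun c => Metric.closedBall (PL j c).ctr (PL j c).rad
    σc := fun T c hc hcT => by
      obtain ⟨c0, h1, h2, rfl⟩ := hnew T c hc hcT
      exact (hpar j (T + 2) (T + 1) c0 (cl_mono _ hc) (by omega)).σc
    σ0 := fun T c hc hcT => by
      obtain ⟨c0, h1, h2, rfl⟩ := hnew T c hc hcT
      exact (hpar j (T + 2) (T + 1) c0 (cl_mono _ hc) (by omega)).σ0
    σ1 := fun T c hc hcT => by
      obtain ⟨c0, h1, h2, rfl⟩ := hnew T c hc hcT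
      exact (hpar j (T + 2) (T + 1) c0 (cl_mono _ hc) (by omega)).σ1
    kh := fun T c hc hcT => by
      obtain ⟨c0, h1, h2, rfl⟩ := hnew T c hc hcT
      have h3 := (hpar j (T + 2) (T + 1) c0 (cl_mono _ hc) (by omega)).kh
      rw [hh_eq _ _ (by rw [birth_cons]; omega)] at h3
      exact h3
    B6 := fun T c hc hcT T' s hs t ht => by
      obtain ⟨c0, h1, h2, rfl⟩ := hnew T c hc hcT
      have h3 : ∀ T', T + 2 ≤ T' → S.ρ T' ((PL j ((T + 1) :: c0)).σ s)
          ((PL j ((T + 1) :: c0)).σ t) ≤ (PL j ((T + 1) :: c0)).kc * |s - t| := by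
        intro T' hT'
        rw [hρ]
        exact (hpar j T' (T + 1) c0 (cl_mono_le (by omega) hc) (by omega)).σD s hs t ht
      exact (S.ρ_mono (le_max_left T' (T + 2)) _ _).trans (h3 _ (le_max_right _ _))
    regσ := fun T c hc hcT s hs => by
      obtain ⟨c0, h1, h2, rfl⟩ := hnew T c hc hcT
      exact (hpar j (T + 2) (T + 1) c0 (cl_mono _ hc) (by omega)).σB s hs
    regn := fun T c hc hcT hne => by
      obtain ⟨c0, h1, h2, rfl⟩ := hnew T c hc hcT
      exact (hpar j (T + 2) (T + 1) c0 (cl_mono _ hc) (by omega)).nest hne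
    regd := fun ε hε => by
      obtain ⟨n, hn⟩ := exists_pow_lt_of_lt_one (half_pos hε) (show (1 / 2 : ℝ) < 1 by norm_num)
      have hm1 : 1 ≤ n + 1 := by omega
      have hn' : (1 / 2 : ℝ) ^ (n + 1) < ε / 2 := lt_of_le_of_lt
        (pow_le_pow_of_le_one (by norm_num) (by norm_num) (by omega)) hn
      refine ⟨I (I (I (n + 1))), fun T' c hc hcT a ha b hb => ?_⟩
      have h1 : I (I (I (n + 1))) < birth c := by
        by_contra hcon
        exact hcT (mem_of_birth_le hc (by omega))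
      have h2 := hIlt (n + 1)
      have h3 := hIlt (I (n + 1))
      have h4 := hIlt (I (I (n + 1)))
      have h5 := hloc j c (birth c + 1) (cl_mono _ (mem_birth hc)) (by omega)
      have h6 := h5.R3 (n + 1) hm1 (by omega)
        (by rw [hIT (n + 1) (birth c + 1) (by omega)]; omega)
        (by rw [hIT (n + 1) (birth c + 1) (by omega), hIT (I (n + 1)) (birth c + 1) (by omega)]
            omega)
        (by rw [hIT (n + 1) (birth c + 1) (by omega), hIT (I (n + 1)) (birth c + 1) (by omega),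
              hIT (I (I (n + 1))) (birth c + 1) (by omega)]
            omega)
      rw [Metric.mem_closedBall] at ha hb
      have h7 := dist_triangle_right a b (PL j c).ctr
      linarith }
  refine attractor_of_maps S M fun x ε hε => ?_
  -- density
  have hdense : Dense (⋂ T, (f T).1.U T) :=
    hQ.mono (subset_iInter fun T => (gi T).UQ T le_rfl)
  obtain ⟨x', hx', hxd⟩ := hdense.exists_dist_lt x (half_pos hε)
  obtain ⟨n, hn⟩ := exists_pow_lt_of_lt_one (show 0 < ε / 4 by positivity)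
    (show (1 / 2 : ℝ) < 1 by norm_num)
  have hn' : (1 / 2 : ℝ) ^ (n + 1) < ε / 4 := lt_of_le_of_lt
    (pow_le_pow_of_le_one (by norm_num) (by norm_num) (by omega)) hn
  obtain ⟨T, hT⟩ : ∃ T, T = I (I (I (n + 1))) := ⟨_, rfl⟩
  have h2 := hIlt (n + 1)
  have h3 := hIlt (I (n + 1))
  have h4 := hIlt (I (I (n + 1)))
  obtain ⟨j, c, hc, hb, k, hk, htk, hxS, -, -⟩ := (pi T).dens (by omega) x' (mem_iInter.1 hx' T)
  unfold rg at hk
  have h5 : I (I (n + 1)) < birth c + 1 := by
    refine lt_of_not_ge fun hcon => ?_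
    have h6 := hImono _ _ hcon
    rw [hIT (birth c) T (by omega)] at htk hk
    rw [hIT (birth c + 1) T (by omega)] at hk
    omega
  rw [hclT T T (by omega)] at hc
  have hL := hloc j c T hc hb
  rw [hPT j c T hb] at hxS
  have h6 := hL.R2 (n + 1) (by omega) (by omega)
    (by rw [hIT (n + 1) T (by omega)]; omega)
    (by rw [hIT (n + 1) T (by omega), hIT (I (n + 1)) T (by omega)]; omega)
  have h7 := hL.SB x' hxS
  have h8 := hL.zB
  have h9 := (gi T).ηpos (birth c + 1) (by omega)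
  rw [Metric.mem_closedBall] at h8
  refine ⟨j, T, c, hc, ?_⟩
  show dist x (PL j c).z < ε
  have h10 := dist_triangle4 x x' (PL j c).ctr2 (PL j c).z
  rw [dist_comm (PL j c).ctr2] at h10
  linarith

end Pool.Agent.W618.IFS
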