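import Mathlib
import Pool.Agent.W618.IFS.Limit

/-!
# Spaces with a supply of cells are topological IFS-attractors
-/

open Set Topology Filter

namespace Pool.Agent.W618.IFS

open Pool.Agent.H764R3.TopFractal

variable {X : Type*} [MetricSpace X] {Q : Set X}

theorem attractor_of_supply [CompactSpace X] (hQ : Dense Q)
    (hCC : ∀ (y : X) (R : ℝ), 0 < R → ∃ r, 0 < r ∧ r ≤ R / 4 ∧ CCat Q y R r)
    (hroot : ∃ (y : X) (R r : ℝ), 0 < r ∧ r ≤ R / 4 ∧ CCat Q y R r ∧ ∀ x, dist x y < r)
    (hnet : Net (fun _ _ : X => (0 : ℝ)) univ) : IsTopologicalIFSAttractor X := by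
  obtain ⟨y, R, r, hr, hrR, hcc, hall⟩ := hroot
  obtain ⟨s, hs⟩ : ∃ s : Geo X, s = {
    i := fun _ => 1
    g := fun _ => 1
    η := fun _ => min (r / 16) (1 / 1200)
    ξ := fun _ _ => y
    U := fun _ => univ
    y := fun _ => y
    v := fun _ _ => 1
    R := fun _ _ => R
    r := fun _ _ => r } := ⟨_, rfl⟩
  have hη0 : 0 < min (r / 16) (1 / 1200) := lt_min (by positivity) (by norm_num)
  have hη1 := min_le_left (r / 16) (1 / 1200)
  have hη2 := min_le_right (r / 16) (1 / 1200)
  have hD : Dt s 0 = fun _ _ => 0 := by
    funext a b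
    unfold Dt
    rw [hs]
    simp
  have hm : ∀ c ∈ cl s.i 0, c = [] := fun c hc => by
    rw [cl_zero, Finset.mem_singleton] at hc; exact hc
  have hG : GInv Q s 0 := by
    refine
    { i0 := by rw [hs]
      is := fun t ht => absurd ht (Nat.not_lt_zero t)
      gpos := fun t _ => by rw [hs]; exact one_pos
      g1 := fun t _ => by rw [hs]
      gdec := fun t ht => absurd ht (Nat.not_lt_zero t)
      glow := fun t _ b hb => absurd hb (Nat.not_lt_zero b)
      gup := fun t ht b hb hbt => by
        rw [hs] at hbt
        simp only at hbt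
        omega
      vc := fun c _ => by rw [hs]; exact continuous_const
      v0 := fun c _ x => by rw [hs]; exact zero_le_one
      v1 := fun c _ x => by rw [hs]
      vo := fun x => by rw [hs]
      vy := fun c _ => by rw [hs]
      vy0 := fun c hc c' hc' hne => absurd ((hm c hc).trans (hm c' hc').symm) hne
      vcon := fun t _ c _ c' _ x _ => by rw [hs]
      rpos := fun t _ c _ => by rw [hs]; exact ⟨hr, hrR⟩
      rmono := fun t ht => absurd ht (Nat.not_lt_zero t)
      rinact := fun t ht => absurd ht (Nat.not_lt_zero t)
      Rb := fun t ht c hc hb => by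
        have h0 : t = 0 := by omega
        subst h0
        rw [hm c hc] at hb
        simp at hb
      Ra := fun t ht c hc hb => by
        rw [hs] at hb
        simp only at hb
        omega
      cc := fun c _ => by rw [hs]; exact hcc
      nest := fun u c hc => absurd (hm _ hc) (List.cons_ne_nil _ _)
      Qd := hQ
      UQ := fun t _ => by rw [hs]; exact subset_univ _
      Um := fun t ht => absurd ht (Nat.not_lt_zero t)
      net := by
        rw [hD, hs]
        exact hnet
      ηpos := fun t _ => by rw [hs]; exact hη0
      ηr := fun t _ c _ => by rw [hs]; simp only; linarith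
      ηg := fun t ht => by
        have h0 : t = 0 := by omega
        subst h0
        rw [hs]
        simp only [pow_zero]
        linarith
      η2 := fun t ht => by
        have h0 : t = 0 := by omega
        subst h0
        rw [hs]
        simp only [pow_zero]
        linarith
      ηm := fun t ht => absurd ht (Nat.not_lt_zero t)
      ξ := fun t ht => by omega }
  have hP : PInv s (fun _ _ => idle y) ∅ 0 := by
    refine
    { thin := thin_empty
      loc := fun j c _ hb => absurd hb (Nat.not_lt_zero _)
      par := fun j u c hc => absurd (hm _ hc) (List.cons_ne_nil _ _)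
      ez := fun j c _ hb => absurd hb (Nat.not_lt_zero _)
      er := fun j c _ hb => absurd hb (Nat.not_lt_zero _)
      r0 := fun h => absurd h (lt_irrefl 0)
      dens := fun h => by omega }
  refine attractor_of_state hQ hCC ⟨s, fun _ _ => idle y, ∅⟩ ⟨hG, hP, ?_⟩
  show ∀ a, dist a (s.y []) < s.r 0 []
  rw [hs]
  exact hall

end Pool.Agent.W618.IFS
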