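import Mathlib
import Pool.Agent.W618.IFS.Supply
import Pool.Agent.W618.IFS.Reparam
import Pool.Agent.W618.IFS.FreeArc

/-!
# Compact geodesic spaces are topological IFS-attractors
-/

open Set Topology Filter

namespace Pool.Agent.W618.IFS

open Pool.Agent.H764R3.TopFractal

section

variable {X : Type*} [MetricSpace X] [CompactSpace X]

/-- constant speed segments with thin images -/
def Segs (X : Type*) [MetricSpace X] : Prop :=
  ∀ x y : X, ∃ σ : ℝ → X, Continuous σ ∧ σ 0 = x ∧ σ 1 = y ∧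
    (∀ u ∈ Icc (0 : ℝ) 1, ∀ w ∈ Icc (0 : ℝ) 1, dist (σ u) (σ w) = dist x y * |u - w|) ∧
    ∃ F, Thin F ∧ ∀ u ∈ Icc (0 : ℝ) 1, σ u ∈ F

theorem net_of_segs (h : Segs X) {e : X → X → ℝ} {L : ℝ} (hL : 0 ≤ L)
    (he : ∀ a b, e a b ≤ L * dist a b) (U : Set X) : Net e U := by
  intro η hη
  have hη' : 0 < η / (L + 1) := by positivity
  obtain ⟨P, -, hP⟩ := (isCompact_univ (X := X)).finite_cover_balls hη'
  obtain ⟨hPf, hPc⟩ := hP
  refine ⟨hPf.toFinset, fun x _ => ?_⟩
  obtain ⟨p, hp, hpx⟩ := mem_iUnion₂.1 (hPc (mem_univ x))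
  refine ⟨p, hPf.mem_toFinset.2 hp, ?_⟩
  rw [Metric.mem_ball, dist_comm] at hpx
  obtain ⟨σ, h1, h2, h3, h4, h5⟩ := h p x
  have hd : dist p x ≤ η := hpx.le.trans ((div_le_iff₀ (by positivity)).2 (by nlinarith))
  have hLd : L * dist p x ≤ η := by
    have h6 : (L + 1) * dist p x < η := by
      rw [lt_div_iff₀ (by positivity)] at hpx
      linarith
    have := dist_nonneg (x := p) (y := x)
    linarith
  refine ⟨σ, h1, h2, h3, fun s hs t ht => ?_, fun s hs => ?_, h5⟩
  · have h6 := he (σ s) (σ t)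
    rw [h4 s hs t ht] at h6
    have h7 := abs_nonneg (s - t)
    nlinarith
  · rw [Metric.mem_closedBall]
    have h6 := h4 s hs 1 ⟨zero_le_one, le_rfl⟩
    rw [h3] at h6
    rw [h6]
    have h7 : |s - 1| ≤ 1 := by
      rw [abs_le]
      constructor <;> linarith [hs.1, hs.2]
    have := dist_nonneg (x := p) (y := x)
    nlinarith

theorem ccat_of_segs (h : Segs X) (y : X) (r : ℝ) (hr : 0 < r) : CCat y (4 * r) r := by
  intro Γ hΓ ε hε
  -- the point y is thin
  obtain ⟨σ0, -, hσ0, -, -, F0, hF0, hσF0⟩ := h y y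
  have hyF : y ∈ F0 := by rw [← hσ0]; exact hσF0 0 ⟨le_rfl, zero_le_one⟩
  have hthin := hΓ.union hF0
  have hdense : Dense (Γ ∪ F0)ᶜ := interior_eq_empty_iff_dense_compl.1 hthin.2
  obtain ⟨y', hy'1, hy'2⟩ := hdense.exists_mem_open (Metric.isOpen_ball (x := y) (ε := r / 4))
    ⟨y, Metric.mem_ball_self (by positivity)⟩
  rw [Metric.mem_ball] at hy'2
  obtain ⟨δ, hδ, hball⟩ := Metric.isOpen_iff.1 hthin.1.isOpen_compl y' hy'1
  have hδΓ : ∀ x ∈ Γ ∪ F0, δ ≤ dist x y' := by
    intro x hx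
    by_contra hcon
    exact hball (Metric.mem_ball.2 (not_le.1 hcon)) hx
  set ρ := min (δ / 2) (r / 8) with hρ
  have hρ0 : 0 < ρ := lt_min (by positivity) (by positivity)
  have hρ1 : ρ ≤ δ / 2 := min_le_left _ _
  have hρ2 : ρ ≤ r / 8 := min_le_right _ _
  set v : X → ℝ := fun x => cl01 (2 - 2 * dist x y' / ρ) with hv
  have hvc : Continuous v := cl01_cont.comp (by fun_prop)
  have hvm : ∀ a b, dist a y' ≤ dist b y' → v b ≤ v a := by
    intro a b hab
    refine cl01_mono ?_
    have : 2 * dist a y' / ρ ≤ 2 * dist b y' / ρ := by gcongr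
    linarith
  have hv0 : ∀ x, ρ ≤ dist x y' → v x = 0 := by
    intro x hx
    have h1 : 1 ≤ dist x y' / ρ := (one_le_div hρ0).2 hx
    have h2 : 2 * dist x y' / ρ = 2 * (dist x y' / ρ) := by ring
    rw [hv]
    simp only [cl01]
    rw [h2, max_eq_left]
    exact (min_le_left _ _).trans (by linarith)
  have hv1 : ∀ x, dist x y' ≤ ρ / 2 → v x = 1 := by
    intro x hx
    have h1 : dist x y' / ρ ≤ 1 / 2 := (div_le_iff₀ hρ0).2 (by linarith)
    have h2 : 2 * dist x y' / ρ = 2 * (dist x y' / ρ) := by ring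
    rw [hv]
    simp only [cl01]
    rw [h2, min_eq_right (by linarith), max_eq_right zero_le_one]
  have hpath : ∀ x, dist x y < r → PathIn (fun a b => |v a - v b|) (1 + ε)
      (Metric.ball y (4 * r)) y' x := by
    intro x hx
    obtain ⟨σ, h1, h2, h3, h4, F, hF, hF'⟩ := h y' x
    have hd : dist y' x < 5 / 4 * r := by
      have := dist_triangle_right y' x y
      linarith
    have h5 : ∀ u ∈ Icc (0 : ℝ) 1, dist (σ u) y' = dist y' x * u := by
      intro u hu
      have h6 := h4 u hu 0 ⟨le_rfl, zero_le_one⟩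
      rw [h2, sub_zero, abs_of_nonneg hu.1] at h6
      exact h6
    have h6 : PathIn (fun a b => |v a - v b|) (1 + ε) (Metric.ball y (4 * r)) (σ 0) (σ 1) := by
      refine pathIn_of_antitone hvc h1 ?_ hε ?_ ?_ hF hF'
      · intro s t hs hst ht
        refine hvm _ _ ?_
        rw [h5 s ⟨hs, hst.trans ht⟩, h5 t ⟨hs.trans hst, ht⟩]
        exact mul_le_mul_of_nonneg_left hst dist_nonneg
      · have h7 := (cl01_mem (2 - 2 * dist (σ 0) y' / ρ)).2
        have h8 := (cl01_mem (2 - 2 * dist (σ 1) y' / ρ)).1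
        simp only [hv]
        linarith
      · intro s hs
        rw [Metric.mem_ball]
        have h7 := dist_triangle (σ s) y' y
        rw [h5 s hs] at h7
        have h8 : dist y' x * s ≤ dist y' x := mul_le_of_le_one_right dist_nonneg hs.2
        linarith
    rwa [h2, h3] at h6
  have hyy : δ ≤ dist y y' := hδΓ y (Or.inr hyF)
  refine ⟨y', v, univ, hvc, fun x => cl01_mem _, ?_, ⟨δ - ρ, by linarith, ?_⟩,
    ⟨ρ / 2, by positivity, fun x hx => hv1 x hx.le⟩, ?_, isOpen_univ, dense_univ, ?_,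
    (hpath y (by rwa [dist_self])).symm, fun x _ hx => hpath x hx⟩
  · intro x hx
    have h1 : dist x y' < ρ := by
      by_contra hcon
      rw [hv0 x (not_lt.1 hcon)] at hx
      exact lt_irrefl _ hx
    have := dist_triangle x y' y
    linarith
  · intro x hx
    refine hv0 x ?_
    have := dist_triangle_left y y' x
    linarith
  · intro x hx
    refine hv0 x ?_
    have := hδΓ x (Or.inl hx)
    linarith
  · refine net_of_segs h (L := 2 / ρ) (by positivity) (fun a b => ?_) _
    have h1 : ∀ s t : ℝ, |cl01 s - cl01 t| ≤ |s - t| := cl01_lip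
    refine (h1 _ _).trans ?_
    have h2 : 2 - 2 * dist a y' / ρ - (2 - 2 * dist b y' / ρ) =
        2 / ρ * (dist b y' - dist a y') := by ring
    rw [h2, abs_mul, abs_of_pos (by positivity)]
    refine mul_le_mul_of_nonneg_left ?_ (by positivity)
    rw [dist_comm a b]
    exact abs_dist_sub_le b a y'

end

theorem attractor_of_geodesic {X : Type*} [MetricSpace X] (q : unitInterval → X)
    (hq : Continuous q) (hqs : Function.Surjective q)
    (hgeo : ∀ x y : X, ∃ γ : ℝ → X, γ 0 = x ∧ γ (dist x y) = y ∧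
      ∀ s ∈ Icc 0 (dist x y), ∀ t ∈ Icc 0 (dist x y), dist (γ s) (γ t) = |s - t|) :
    IsTopologicalIFSAttractor X := by
  have hcomp : CompactSpace X := ⟨by rw [← hqs.range_eq]; exact isCompact_range hq⟩
  have hne : Nonempty X := ⟨q 0⟩
  rcases subsingleton_or_nontrivial X with hsub | hnt
  · exact attractor_of_subsingleton
  have hseg : ∀ x y : X, ∃ σ : ℝ → X, Continuous σ ∧ σ 0 = x ∧ σ 1 = y ∧
      (∀ u ∈ Icc (0 : ℝ) 1, ∀ w ∈ Icc (0 : ℝ) 1, dist (σ u) (σ w) = dist x y * |u - w|) := by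
    intro x y
    obtain ⟨γ, h1, h2, h3⟩ := hgeo x y
    have hI : ∀ u, dist x y * cl01 u ∈ Icc 0 (dist x y) := fun u =>
      ⟨mul_nonneg dist_nonneg (cl01_mem u).1, mul_le_of_le_one_right dist_nonneg (cl01_mem u).2⟩
    refine ⟨fun u => γ (dist x y * cl01 u), ?_, ?_, ?_, ?_⟩
    · refine continuous_iff_continuousAt.2 fun u => ?_
      rw [ContinuousAt, tendsto_iff_dist_tendsto_zero]
      have h4 : Continuous fun w => |dist x y * cl01 w - dist x y * cl01 u| := by
        have := cl01_cont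
        fun_prop
      have h5 := h4.tendsto u
      rw [sub_self, abs_zero] at h5
      refine h5.congr fun w => ?_
      rw [h3 _ (hI w) _ (hI u)]
    · simp only [cl01_of_mem (show (0 : ℝ) ∈ Icc (0 : ℝ) 1 from ⟨le_rfl, zero_le_one⟩), mul_zero, h1]
    · simp only [cl01_of_mem (show (1 : ℝ) ∈ Icc (0 : ℝ) 1 from ⟨zero_le_one, le_rfl⟩), mul_one, h2]
    · intro u hu w hw
      simp only
      rw [h3 _ (hI u) _ (hI w), cl01_of_mem hu, cl01_of_mem hw, ← mul_sub, abs_mul,
        abs_of_nonneg dist_nonneg]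
  choose σ hσ1 hσ2 hσ3 hσ4 using hseg
  by_cases hfree : ∃ x y, x ≠ y ∧ (interior (σ x y '' Icc 0 1)).Nonempty
  · obtain ⟨x, y, hxy, hint⟩ := hfree
    refine attractor_of_free_arc q hq hqs (hσ1 x y) ?_ hint
    intro u hu w hw huw
    have h1 := hσ4 x y u hu w hw
    rw [huw, dist_self] at h1
    have h2 : 0 < dist x y := dist_pos.2 hxy
    have h3 : |u - w| = 0 := by
      rcases mul_eq_zero.1 h1.symm with h | h
      · linarith
      · exact h
    linarith [abs_eq_zero.1 h3]
  · push Not at hfree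
    have hthin : ∀ x y, x ≠ y → Thin (σ x y '' Icc 0 1) := fun x y hxy =>
      ⟨(isCompact_Icc.image (hσ1 x y)).isClosed, hfree x y hxy⟩
    have hsegs : Segs X := by
      intro x y
      refine ⟨σ x y, hσ1 x y, hσ2 x y, hσ3 x y, hσ4 x y, ?_⟩
      by_cases hxy : x = y
      · obtain ⟨z, hz⟩ := exists_ne x
        refine ⟨σ x z '' Icc 0 1, hthin x z (Ne.symm hz), fun u hu => ?_⟩
        have h1 := hσ4 x y u hu 0 ⟨le_rfl, zero_le_one⟩
        subst hxy
        rw [hσ2, dist_self, zero_mul] at h1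
        rw [dist_eq_zero.1 h1]
        exact ⟨0, ⟨le_rfl, zero_le_one⟩, hσ2 x z⟩
      · exact ⟨_, hthin x y hxy, fun u hu => mem_image_of_mem _ hu⟩
    refine attractor_of_supply (fun y R hR => ⟨R / 4, by positivity, le_rfl, ?_⟩) ?_ ?_
    · have := ccat_of_segs hsegs y (R / 4) (by positivity)
      rwa [show 4 * (R / 4) = R by ring] at this
    · obtain ⟨y⟩ := hne
      have hr : 0 < Metric.diam (univ : Set X) + 1 := by
        have := Metric.diam_nonneg (s := (univ : Set X)); linarith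
      refine ⟨y, 4 * (Metric.diam (univ : Set X) + 1), Metric.diam (univ : Set X) + 1, hr,
        by linarith, ccat_of_segs hsegs y _ hr, fun x => ?_⟩
      have := Metric.dist_le_diam_of_mem (isCompact_univ (X := X)).isBounded (mem_univ x)
        (mem_univ y)
      linarith
    · exact net_of_segs hsegs (L := 0) le_rfl (fun a b => by simp) _

end Pool.Agent.W618.IFS
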